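import Pool.Agent.R213.NP.Stm

open MeasureTheory Set Filter Topology
open scoped ContDiff ENNReal

namespace Pool.Agent.R213.NP

open Pool.Agent.R212

lemma D_sub_cont : Continuous fun x : V2 => D (x - cc) := by unfold D; fun_prop

lemma D_sub_smooth : ContDiff ℝ ∞ fun x : V2 => D (x - cc) := by unfold D; fun_prop

lemma D_pos {y : V2} (hy : y ≠ 0) : 0 < D y := by
  unfold D
  by_contra h
  push Not at h
  have h0 : y 0 = 0 := by nlinarith [sq_nonneg (y 0), sq_nonneg (y 1)]
  have h1 : y 1 = 0 := by nlinarith [sq_nonneg (y 0), sq_nonneg (y 1)]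
  apply hy
  ext i
  fin_cases i <;> simp [h0, h1]

lemma Tt_pos {y : V2} (hy : y ≠ 0) (h : D y < 1 / 10) : 0 < Tt y := by
  have hD := D_pos hy
  unfold Tt
  have h1 : Real.log (D y) < -(11 / 10) := by
    have h2 : Real.log (D y) ≤ Real.log (1 / 10) := Real.log_le_log hD h.le
    have h3 : Real.log (1 / 10 : ℝ) = -Real.log 10 := by rw [one_div, Real.log_inv]
    have h4 : (11 / 10 : ℝ) < Real.log 10 := by
      rw [Real.lt_log_iff_exp_lt (by norm_num)]
      have h5 : Real.exp (11 / 10) = Real.exp 1 * Real.exp (1 / 10) := by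
        rw [← Real.exp_add]; norm_num
      have h6 : Real.exp (1 / 10) ≤ Real.exp 1 := Real.exp_le_exp.2 (by norm_num)
      have h7 := Real.exp_one_lt_d9
      have h8 := Real.exp_pos 1
      rw [h5]
      nlinarith
    linarith
  have h2 : (y 0 ^ 2 - y 1 ^ 2) / (2 * D y) ≤ 1 / 2 := by
    rw [div_le_iff₀ (by positivity)]
    unfold D
    nlinarith [sq_nonneg (y 1)]
  linarith

lemma cut_smooth (a : ℝ) : ContDiff ℝ ∞ (cut a) := by
  unfold cut
  exact Real.smoothTransition.contDiff.comp (by fun_prop)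

lemma cut_one {a s : ℝ} (h : s ≤ a) : cut a s = 1 := by
  unfold cut
  exact Real.smoothTransition.one_of_one_le (by linarith)

lemma cut_zero {a s : ℝ} (h : a + 1 / 50 ≤ s) : cut a s = 0 := by
  unfold cut
  exact Real.smoothTransition.zero_of_nonpos (by linarith)

lemma sub_ne {x : V2} (h : x ≠ cc) : x - cc ≠ 0 := sub_ne_zero.2 h

/-- `pd` of a translate -/
lemma pd_translate (i : Fin 2) (f : V2 → ℝ) (x : V2) :
    pd i (fun x => f (x - cc)) x = pd i f (x - cc) := by
  unfold pd
  rw [fderiv_comp_sub]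

lemma pd_congr {i : Fin 2} {f g : V2 → ℝ} {x : V2} (h : f =ᶠ[𝓝 x] g) : pd i f x = pd i g x := by
  unfold pd
  rw [h.fderiv_eq]

lemma pd_eventually {i : Fin 2} {f g : V2 → ℝ} {x : V2} (h : f =ᶠ[𝓝 x] g) :
    pd i f =ᶠ[𝓝 x] pd i g := by
  filter_upwards [h.eventuallyEq_nhds] with y hy
  exact pd_congr hy

lemma lap_congr {f g : V2 → ℝ} {x : V2} (h : f =ᶠ[𝓝 x] g) : lap f x = lap g x := by
  unfold lap
  refine Finset.sum_congr rfl fun i _ => pd_congr (pd_eventually h)

lemma lap_translate (f : V2 → ℝ) (x : V2) :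
    lap (fun x => f (x - cc)) x = lap f (x - cc) := by
  unfold lap
  refine Finset.sum_congr rfl fun i _ => ?_
  have : pd i (fun x => f (x - cc)) = fun x => pd i f (x - cc) := funext fun x => pd_translate i f x
  rw [this, pd_translate]

lemma pd_contDiffAt {i : Fin 2} {f : V2 → ℝ} {x : V2} (h : ContDiffAt ℝ 2 f x) :
    ContDiffAt ℝ 1 (pd i f) x := by
  unfold pd
  exact (h.fderiv_right (m := 1) (by norm_num)).clm_apply contDiffAt_const

lemma pd_continuousAt {i : Fin 2} {f : V2 → ℝ} {x : V2} (h : ContDiffAt ℝ 1 f x) :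
    ContinuousAt (pd i f) x := by
  unfold pd
  exact ((h.fderiv_right (m := 0) (by norm_num)).clm_apply contDiffAt_const).continuousAt

lemma lap_continuousAt {f : V2 → ℝ} {x : V2} (h : ContDiffAt ℝ 2 f x) :
    ContinuousAt (lap f) x := by
  unfold lap
  refine tendsto_finsetSum _ fun i _ => ?_
  exact pd_continuousAt (pd_contDiffAt h)

section

variable {m m1 m2 P P1 n : ℝ → ℝ}

lemma u1_smooth (h : Profile m m1 m2 P P1 n) (hP : S_PDE) {x : V2} (hx : x ≠ cc) :
    ContDiffAt ℝ 2 (u1 m) x := by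
  by_cases hD : D (x - cc) < 1 / 10
  · have h1 := (hP m m1 m2 P P1 n h (x - cc) (sub_ne hx) (Tt_pos (sub_ne hx) hD)).1
    unfold u1
    refine ContDiffAt.mul ?_ ?_
    · exact (contDiff_infty.1 ((cut_smooth _).comp D_sub_smooth) 2).contDiffAt
    · exact ContDiffAt.comp x h1 (by fun_prop : ContDiffAt ℝ 2 (fun x : V2 => x - cc) x)
  · have : u1 m =ᶠ[𝓝 x] fun _ => 0 := by
      have hlt : (2 / 50 : ℝ) < D (x - cc) := by linarith [not_lt.1 hD]
      filter_upwards [D_sub_cont.continuousAt.eventually (lt_mem_nhds hlt)] with z hz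
      unfold u1
      rw [cut_zero (by linarith : (1 / 50 : ℝ) + 1 / 50 ≤ D (z - cc)), zero_mul]
    exact contDiffAt_const.congr_of_eventuallyEq this

lemma psi_smooth (h : Profile m m1 m2 P P1 n) (hP : S_PDE) {x : V2} (hx : x ≠ cc) :
    ContDiffAt ℝ 2 (psi P) x := by
  by_cases hD : D (x - cc) < 1 / 10
  · have h1 := (hP m m1 m2 P P1 n h (x - cc) (sub_ne hx) (Tt_pos (sub_ne hx) hD)).2.1
    unfold psi
    refine ContDiffAt.mul ?_ ?_
    · exact (contDiff_infty.1 ((cut_smooth _).comp D_sub_smooth) 2).contDiffAt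
    · exact ContDiffAt.comp x h1 (by fun_prop : ContDiffAt ℝ 2 (fun x : V2 => x - cc) x)
  · have : psi P =ᶠ[𝓝 x] fun _ => 0 := by
      have hlt : (4 / 50 : ℝ) < D (x - cc) := by linarith [not_lt.1 hD]
      filter_upwards [D_sub_cont.continuousAt.eventually (lt_mem_nhds hlt)] with z hz
      unfold psi
      rw [cut_zero (by linarith : (3 / 50 : ℝ) + 1 / 50 ≤ D (z - cc)), zero_mul]
    exact contDiffAt_const.congr_of_eventuallyEq this

lemma coord_of_D {x : V2} (h : D (x - cc) ≤ 9 / 100) (i : Fin 2) :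
    x i ∈ Icc (1 / 5 : ℝ) (4 / 5) := by
  unfold D at h
  simp only [Pi.sub_apply, cc] at h
  fin_cases i
  · constructor
    · show (1 / 5 : ℝ) ≤ x 0
      nlinarith [sq_nonneg (x 1 - 1 / 2), sq_nonneg (x 0 - 1 / 2)]
    · show x 0 ≤ (4 / 5 : ℝ)
      nlinarith [sq_nonneg (x 1 - 1 / 2), sq_nonneg (x 0 - 1 / 2)]
  · constructor
    · show (1 / 5 : ℝ) ≤ x 1
      nlinarith [sq_nonneg (x 1 - 1 / 2), sq_nonneg (x 0 - 1 / 2)]
    · show x 1 ≤ (4 / 5 : ℝ)
      nlinarith [sq_nonneg (x 1 - 1 / 2), sq_nonneg (x 0 - 1 / 2)]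

lemma u1_zero {x : V2} (h : 1 / 25 ≤ D (x - cc)) : u1 m x = 0 := by
  unfold u1
  rw [cut_zero (by linarith), zero_mul]

lemma psi_zero {x : V2} (h : 2 / 25 ≤ D (x - cc)) : psi P x = 0 := by
  unfold psi
  rw [cut_zero (by linarith), zero_mul]

lemma box_compact : IsCompact (Set.pi univ fun _ : Fin 2 => Icc (1 / 5 : ℝ) (4 / 5)) :=
  isCompact_univ_pi fun _ => isCompact_Icc

lemma u1_supp : HasCompactSupport (u1 m) := by
  refine HasCompactSupport.intro box_compact fun x hx => ?_
  apply u1_zero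
  by_contra h
  exact hx fun i _ => coord_of_D (by linarith [not_le.1 h]) i

lemma psi_supp : HasCompactSupport (psi P) := by
  refine HasCompactSupport.intro box_compact fun x hx => ?_
  apply psi_zero
  by_contra h
  exact hx fun i _ => coord_of_D (by linarith [not_le.1 h]) i

lemma D_neg (y : V2) : D (-y) = D y := by unfold D; simp

lemma Tt_neg (y : V2) : Tt (-y) = Tt y := by unfold Tt; rw [D_neg]; simp

lemma u1_odd (y : V2) : u1 m (cc - y) = -u1 m (cc + y) := by
  unfold u1 U
  rw [show cc - y - cc = -y by abel, show cc + y - cc = y by abel, D_neg, Tt_neg]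
  simp only [Pi.neg_apply]
  ring

lemma psi_even (y : V2) : psi P (cc - y) = psi P (cc + y) := by
  unfold psi Psi
  rw [show cc - y - cc = -y by abel, show cc + y - cc = y by abel, D_neg, Tt_neg]
  simp only [Pi.neg_apply]
  ring

/-- the right-hand side -/
noncomputable def gg (m P : ℝ → ℝ) (x : V2) : ℝ :=
  open Classical in if x = cc then 0 else
    lap (u1 m) x - (pd 1 (psi P) x * pd 0 (u1 m) x - pd 0 (psi P) x * pd 1 (u1 m) x)

lemma gg_near (h : Profile m m1 m2 P P1 n) (hP : S_PDE) {x : V2} (hD : D (x - cc) < 1 / 50) :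
    gg m P x = 0 := by
  unfold gg
  split_ifs with hx
  · rfl
  have e1 : u1 m =ᶠ[𝓝 x] fun x => U m (x - cc) := by
    filter_upwards [D_sub_cont.continuousAt.eventually (gt_mem_nhds hD)] with z hz
    unfold u1
    rw [cut_one hz.le, one_mul]
  have e2 : psi P =ᶠ[𝓝 x] fun x => Psi P (x - cc) := by
    filter_upwards [D_sub_cont.continuousAt.eventually (gt_mem_nhds hD)] with z hz
    unfold psi
    rw [cut_one (by linarith), one_mul]
  rw [lap_congr e1, pd_congr e1, pd_congr e1, pd_congr e2, pd_congr e2, lap_translate]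
  simp only [pd_translate]
  rw [(hP m m1 m2 P P1 n h (x - cc) (sub_ne hx) (Tt_pos (sub_ne hx) (by linarith))).2.2, sub_self]

lemma gg_far {x : V2} (hD : 1 / 25 < D (x - cc)) : gg m P x = 0 := by
  have e1 : u1 m =ᶠ[𝓝 x] fun _ => 0 := by
    filter_upwards [D_sub_cont.continuousAt.eventually (lt_mem_nhds hD)] with z hz
    exact u1_zero hz.le
  unfold gg
  split_ifs with hx
  · rfl
  rw [lap_congr e1, pd_congr e1, pd_congr e1]
  unfold lap pd
  simp

lemma gg_cont (h : Profile m m1 m2 P P1 n) (hP : S_PDE) : Continuous (gg m P) := by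
  rw [continuous_iff_continuousAt]
  intro x
  by_cases hx : x = cc
  · have hD : D (x - cc) < 1 / 50 := by rw [hx]; unfold D; simp
    have : gg m P =ᶠ[𝓝 x] fun _ => 0 := by
      filter_upwards [D_sub_cont.continuousAt.eventually (gt_mem_nhds hD)] with z hz
      exact gg_near h hP hz
    exact continuousAt_const.congr this.symm
  · have hu := u1_smooth h hP hx
    have hψ := psi_smooth h hP hx
    have : (fun x => lap (u1 m) x - (pd 1 (psi P) x * pd 0 (u1 m) x -
        pd 0 (psi P) x * pd 1 (u1 m) x)) =ᶠ[𝓝 x] gg m P := by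
      filter_upwards [isOpen_ne.mem_nhds hx] with z hz
      unfold gg
      rw [if_neg hz]
    refine ContinuousAt.congr ?_ this
    have hu' : ContDiffAt ℝ 1 (u1 m) x := hu.of_le (by norm_num)
    have hψ' : ContDiffAt ℝ 1 (psi P) x := hψ.of_le (by norm_num)
    exact (lap_continuousAt hu).sub (((pd_continuousAt hψ').mul (pd_continuousAt hu')).sub
      ((pd_continuousAt hψ').mul (pd_continuousAt hu')))

lemma pd_psi_zero {i : Fin 2} {x : V2} (hD : 2 / 25 < D (x - cc)) : pd i (psi P) x = 0 := by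
  have e1 : psi P =ᶠ[𝓝 x] fun _ => 0 := by
    filter_upwards [D_sub_cont.continuousAt.eventually (lt_mem_nhds hD)] with z hz
    exact psi_zero hz.le
  rw [pd_congr e1]
  unfold pd
  simp

lemma D_big {x : V2} (hx : x ∉ cube 2) : 9 / 100 < D (x - cc) := by
  by_contra h
  push Not at h
  apply hx
  intro i _
  have := coord_of_D h i
  exact ⟨by linarith [this.1], by linarith [this.2]⟩

lemma int_cube {F : V2 → ℝ} (hF : ∀ x, x ∉ cube 2 → F x = 0) :
    ∫ x, F x ∂(cubeMeasure 2) = ∫ x, F x := by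
  unfold cubeMeasure
  exact setIntegral_eq_integral_of_forall_compl_eq_zero hF

theorem asm (hProf : S_PROF) (hP : S_PDE) (hL : S_L2) (hN : S_NI) (hWk : S_WEAK) (hW : S_W)
    (hG : S_GR) : S_MAIN := by
  obtain ⟨m, m1, m2, P, P1, n, h⟩ := hProf
  obtain ⟨hu2, hp2⟩ := hL m m1 m2 P P1 n h
  have hni := hN m m1 m2 P P1 n h
  obtain ⟨hw1, hw2⟩ := hWk cc (u1 m) (psi P) (gg m P) (fun x hx => u1_smooth h hP hx)
    (fun x hx => psi_smooth h hP hx) u1_supp psi_supp u1_odd psi_even hu2 hp2
    (fun x hx => by unfold gg; rw [if_neg hx])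
    ⟨1 / 10, by norm_num, fun x _ hx => gg_near h hP (by
      have h0 : ∀ i, |(x - cc) i| < 1 / 10 := fun i => by
        have h1 := dist_le_pi_dist x cc i
        rw [Real.dist_eq] at h1
        exact h1.trans_lt hx
      have h0' := h0 0
      have h1' := h0 1
      rw [abs_lt] at h0' h1'
      unfold D
      nlinarith)⟩
  have hbL : ∀ i, MemLp (fun x => bb P x i) 2 (cubeMeasure 2) := by
    intro i
    fin_cases i
    · exact (hp2 1).restrict _
    · exact (hp2 0).neg.restrict _
  have hadv : ∀ (φ : V2 → ℝ) (x : V2), adv (bb P) φ x =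
      pd 1 (psi P) x * pd 0 φ x - pd 0 (psi P) x * pd 1 φ x := by
    intro φ x
    unfold adv bb
    rw [Fin.sum_univ_two]
    simp
    ring
  have hdiv : DivFree (bb P) := by
    intro φ hφ hper
    have h1 : ∀ x, ∑ i, bb P x i * pd i φ x =
        pd 1 (psi P) x * pd 0 φ x - pd 0 (psi P) x * pd 1 φ x := fun x => hadv φ x
    simp_rw [h1]
    rw [int_cube, hw2 φ hφ]
    intro x hx
    have := D_big hx
    rw [pd_psi_zero (by linarith), pd_psi_zero (by linarith)]
    ring
  have hgL : MemLp (gg m P) 2 (cubeMeasure 2) := by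
    obtain ⟨C, hC0, hC⟩ := cont_bounded (gg_cont h hP)
    refine MemLp.of_bound (gg_cont h hP).aestronglyMeasurable C ?_
    filter_upwards [ae_cube 2] with x hx
    exact hC x hx
  have huL : MemLp (u1 m) 2 (cubeMeasure 2) := hu2.restrict _
  obtain ⟨w, W0, W1, hwL, hW0L, hW1L, hwd0, hwd1, hweq⟩ :=
    hW (bb P) (fun x => gg m P x - u1 m x) hbL hdiv (hgL.sub huL)
  have hbnd : ∀ φ : V2 → ℝ, SP φ → MemLp (fun x => φ x) 2 (cubeMeasure 2) ∧
      MemLp (fun x => lap φ x) 2 (cubeMeasure 2) ∧ MemLp (fun x => adv (bb P) φ x) 2 (cubeMeasure 2) := by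
    intro φ hφ
    have hc : ∀ F : V2 → ℝ, Continuous F → MemLp F 2 (cubeMeasure 2) := by
      intro F hF
      obtain ⟨C, hC0, hC⟩ := cont_bounded hF
      refine MemLp.of_bound hF.aestronglyMeasurable C ?_
      filter_upwards [ae_cube 2] with x hx
      exact hC x hx
    refine ⟨hc _ hφ.1.continuous, hc _ ?_, ?_⟩
    · unfold lap
      exact continuous_finsetSum _ fun i _ => (pd_smooth' (pd_smooth' hφ.1 i) i).continuous
    · have : (fun x => adv (bb P) φ x) = fun x => ∑ i, bb P x i * pd i φ x := rfl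
      rw [this]
      refine memLp_finsetSum _ fun i _ => ?_
      obtain ⟨C, hC0, hC⟩ := cont_bounded (pd_smooth' hφ.1 i).continuous
      refine MemLp.of_le ((hbL i).const_mul C)
        ((hbL i).aestronglyMeasurable.mul (pd_smooth' hφ.1 i).continuous.aestronglyMeasurable) ?_
      filter_upwards [ae_cube 2] with x hx
      rw [norm_mul, norm_mul, mul_comm]
      exact mul_le_mul_of_nonneg_right ((hC x hx).trans (le_abs_self C)) (norm_nonneg _)
  have hu_eq : ∀ φ : V2 → ℝ, SP φ →
      ∫ x, u1 m x * (lap φ x + adv (bb P) φ x) ∂(cubeMeasure 2) =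
        ∫ x, gg m P x * φ x ∂(cubeMeasure 2) := by
    intro φ hφ
    rw [int_cube, int_cube]
    · simp_rw [hadv]
      exact hw1 φ hφ.1
    · intro x hx
      rw [gg_far (by linarith [D_big hx]), zero_mul]
    · intro x hx
      rw [u1_zero (by linarith [D_big hx]), zero_mul]
  refine ⟨bb P, fun x => u1 m x + w x, hbL, hdiv, huL.add hwL, ?_, ?_⟩
  · intro φ hφ
    obtain ⟨a1, a2, a3⟩ := hbnd φ hφ
    have e1 := hu_eq φ hφ
    have e2 := hweq φ hφ
    have i1 : Integrable (fun x => u1 m x * φ x) (cubeMeasure 2) := huL.integrable_mul a1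
    have i2 : Integrable (fun x => u1 m x * (lap φ x + adv (bb P) φ x)) (cubeMeasure 2) :=
      huL.integrable_mul (a2.add a3)
    have i3 : Integrable (fun x => w x * (φ x - lap φ x - adv (bb P) φ x)) (cubeMeasure 2) :=
      hwL.integrable_mul ((a1.sub a2).sub a3)
    have i4 : Integrable (fun x => gg m P x * φ x) (cubeMeasure 2) := hgL.integrable_mul a1
    have e3 : ∀ x, (u1 m x + w x) * (φ x - lap φ x - adv (bb P) φ x) =
        u1 m x * φ x - u1 m x * (lap φ x + adv (bb P) φ x) +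
          w x * (φ x - lap φ x - adv (bb P) φ x) := fun x => by ring
    have s1 : ∫ x, (u1 m x * φ x - u1 m x * (lap φ x + adv (bb P) φ x) +
          w x * (φ x - lap φ x - adv (bb P) φ x)) ∂(cubeMeasure 2) =
        ∫ x, u1 m x * φ x ∂(cubeMeasure 2) -
          ∫ x, u1 m x * (lap φ x + adv (bb P) φ x) ∂(cubeMeasure 2) +
          ∫ x, w x * (φ x - lap φ x - adv (bb P) φ x) ∂(cubeMeasure 2) := by
      rw [← integral_sub i1 i2]
      exact integral_add (i1.sub i2) i3
    simp_rw [e3]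
    rw [s1, e1, e2]
    have e4 : ∀ x, (gg m P x - u1 m x) * φ x = gg m P x * φ x - u1 m x * φ x := fun x => by ring
    simp_rw [e4]
    rw [integral_sub i4 i1]
    ring
  · rintro ⟨G, hGL, hGe⟩
    apply hni
    refine hG (u1 m) (fun x => G x - W0 x) (fun x hx => (u1_smooth h hP hx).of_le (by norm_num))
      (fun x hx i => coord_of_D (by
        by_contra h9
        exact hx (u1_zero (by linarith [not_le.1 h9]))) i) huL (hGL.sub hW0L) fun φ hφ => ?_
    have hc : MemLp (pd 0 φ) 2 (cubeMeasure 2) := by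
      obtain ⟨C, hC0, hC⟩ := cont_bounded (pd_smooth' hφ.1 0).continuous
      refine MemLp.of_bound (pd_smooth' hφ.1 0).continuous.aestronglyMeasurable C ?_
      filter_upwards [ae_cube 2] with x hx
      exact hC x hx
    have a1 := (hbnd φ hφ).1
    have e1 := hGe φ hφ
    have e2 := hwd0 φ hφ
    have e3 : ∀ x, (u1 m x + w x) * pd 0 φ x = u1 m x * pd 0 φ x + w x * pd 0 φ x :=
      fun x => by ring
    have s1 : ∫ x, (u1 m x * pd 0 φ x + w x * pd 0 φ x) ∂(cubeMeasure 2) =
        ∫ x, u1 m x * pd 0 φ x ∂(cubeMeasure 2) + ∫ x, w x * pd 0 φ x ∂(cubeMeasure 2) :=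
      integral_add (huL.integrable_mul hc) (hwL.integrable_mul hc)
    simp_rw [e3] at e1
    rw [s1, e2] at e1
    have e4 : ∀ x, (G x - W0 x) * φ x = G x * φ x - W0 x * φ x := fun x => by ring
    have s2 : ∫ x, (G x * φ x - W0 x * φ x) ∂(cubeMeasure 2) =
        ∫ x, G x * φ x ∂(cubeMeasure 2) - ∫ x, W0 x * φ x ∂(cubeMeasure 2) :=
      integral_sub (hGL.integrable_mul a1) (hW0L.integrable_mul a1)
    simp_rw [e4]
    rw [s2]
    linarith

end

end Pool.Agent.R213.NP
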