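import Pool.Agent.R213.NP.Stm

open MeasureTheory Set Filter Topology
open scoped ContDiff ENNReal

namespace Pool.Agent.R213.NP

open Pool.Agent.R212

/-- computing `pd 0` -/
lemma pd0_eq {f : V2 → ℝ} {F : ℝ → ℝ → ℝ} (hF : ∀ y, f y = F (y 0) (y 1)) {y : V2} {v : ℝ}
    (hd : DifferentiableAt ℝ f y) (h : HasDerivAt (fun a => F a (y 1)) v (y 0)) : pd 0 f y = v := by
  have h1 := pd_hasDeriv 0 hd
  have h2 : (fun s : ℝ => f (y + s • bv 0)) = fun s => F (y 0 + s) (y 1) := by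
    ext s
    rw [hF]
    simp [bv]
  rw [h2] at h1
  have h3 : HasDerivAt (fun s : ℝ => F (y 0 + s) (y 1)) v 0 := by
    have h4 : HasDerivAt (fun s : ℝ => y 0 + s) 1 0 := (hasDerivAt_id (0 : ℝ)).const_add _
    have h5 : HasDerivAt (fun a => F a (y 1)) v (y 0 + 0) := by rwa [add_zero]
    have h6 := h5.comp (0 : ℝ) h4
    rw [mul_one] at h6
    exact h6
  exact h1.unique h3

/-- computing `pd 1` -/
lemma pd1_eq {f : V2 → ℝ} {F : ℝ → ℝ → ℝ} (hF : ∀ y, f y = F (y 0) (y 1)) {y : V2} {v : ℝ}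
    (hd : DifferentiableAt ℝ f y) (h : HasDerivAt (fun b => F (y 0) b) v (y 1)) : pd 1 f y = v := by
  have h1 := pd_hasDeriv 1 hd
  have h2 : (fun s : ℝ => f (y + s • bv 1)) = fun s => F (y 0) (y 1 + s) := by
    ext s
    rw [hF]
    simp [bv]
  rw [h2] at h1
  have h3 : HasDerivAt (fun s : ℝ => F (y 0) (y 1 + s)) v 0 := by
    have h4 : HasDerivAt (fun s : ℝ => y 1 + s) 1 0 := (hasDerivAt_id (0 : ℝ)).const_add _
    have h5 : HasDerivAt (fun b => F (y 0) b) v (y 1 + 0) := by rwa [add_zero]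
    have h6 := h5.comp (0 : ℝ) h4
    rw [mul_one] at h6
    exact h6
  exact h1.unique h3

/-- `T` as a function of two real variables -/
noncomputable def T2 (a b : ℝ) : ℝ :=
  -(1 / 2) * Real.log (a ^ 2 + b ^ 2) - (a ^ 2 - b ^ 2) / (2 * (a ^ 2 + b ^ 2))

noncomputable def Ta (a b : ℝ) : ℝ := -(a * (a ^ 2 + 3 * b ^ 2)) / (a ^ 2 + b ^ 2) ^ 2
noncomputable def Tb (a b : ℝ) : ℝ := b * (a ^ 2 - b ^ 2) / (a ^ 2 + b ^ 2) ^ 2

lemma T2_a {a b : ℝ} (h : a ^ 2 + b ^ 2 ≠ 0) : HasDerivAt (fun a => T2 a b) (Ta a b) a := by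
  have h1 : HasDerivAt (fun a : ℝ => a ^ 2 + b ^ 2) (2 * a) a := by
    simpa using (hasDerivAt_pow 2 a).add_const (b ^ 2)
  have h2 : HasDerivAt (fun a : ℝ => a ^ 2 - b ^ 2) (2 * a) a := by
    simpa using (hasDerivAt_pow 2 a).sub_const (b ^ 2)
  have h3 := ((h1.log h).const_mul (-(1 / 2))).sub (h2.div (h1.const_mul 2) (by positivity))
  refine h3.congr_deriv ?_
  unfold Ta
  field_simp
  ring

lemma T2_b {a b : ℝ} (h : a ^ 2 + b ^ 2 ≠ 0) : HasDerivAt (fun b => T2 a b) (Tb a b) b := by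
  have h1 : HasDerivAt (fun b : ℝ => a ^ 2 + b ^ 2) (2 * b) b := by
    simpa using (hasDerivAt_pow 2 b).const_add (a ^ 2)
  have h2 : HasDerivAt (fun b : ℝ => a ^ 2 - b ^ 2) (-(2 * b)) b := by
    simpa using (hasDerivAt_pow 2 b).const_sub (a ^ 2)
  have h3 := ((h1.log h).const_mul (-(1 / 2))).sub (h2.div (h1.const_mul 2) (by positivity))
  refine h3.congr_deriv ?_
  unfold Tb
  field_simp
  ring

section
variable {m m1 m2 P P1 : ℝ → ℝ} {a b : ℝ}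

/-- derivatives of `a / (a² + b²) * m (T)` -/
noncomputable def Ua (m m1 : ℝ → ℝ) (a b : ℝ) : ℝ :=
  (b ^ 2 - a ^ 2) / (a ^ 2 + b ^ 2) ^ 2 * m (T2 a b) -
    a ^ 2 * (a ^ 2 + 3 * b ^ 2) / (a ^ 2 + b ^ 2) ^ 3 * m1 (T2 a b)

noncomputable def Ub (m m1 : ℝ → ℝ) (a b : ℝ) : ℝ :=
  -(2 * a * b) / (a ^ 2 + b ^ 2) ^ 2 * m (T2 a b) +
    a * b * (a ^ 2 - b ^ 2) / (a ^ 2 + b ^ 2) ^ 3 * m1 (T2 a b)

lemma hU_a (h : a ^ 2 + b ^ 2 ≠ 0) (hm : HasDerivAt m (m1 (T2 a b)) (T2 a b)) :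
    HasDerivAt (fun a => a / (a ^ 2 + b ^ 2) * m (T2 a b)) (Ua m m1 a b) a := by
  have h1 : HasDerivAt (fun a : ℝ => a ^ 2 + b ^ 2) (2 * a) a := by
    simpa using (hasDerivAt_pow 2 a).add_const (b ^ 2)
  have h3 := ((hasDerivAt_id a).fun_div h1 h).fun_mul (hm.comp a (T2_a h))
  refine h3.congr_deriv ?_
  simp only [id, Function.comp]
  unfold Ua Ta
  field_simp
  ring

lemma hU_b (h : a ^ 2 + b ^ 2 ≠ 0) (hm : HasDerivAt m (m1 (T2 a b)) (T2 a b)) :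
    HasDerivAt (fun b => a / (a ^ 2 + b ^ 2) * m (T2 a b)) (Ub m m1 a b) b := by
  have h1 : HasDerivAt (fun b : ℝ => a ^ 2 + b ^ 2) (2 * b) b := by
    simpa using (hasDerivAt_pow 2 b).const_add (a ^ 2)
  have h3 := ((hasDerivAt_const b a).fun_div h1 h).fun_mul (hm.comp b (T2_b h))
  refine h3.congr_deriv ?_
  simp only [Function.comp]
  unfold Ub Tb
  field_simp
  ring

noncomputable def Uaa (m m1 m2 : ℝ → ℝ) (a b : ℝ) : ℝ :=
  (2 * a * (a ^ 2 - 3 * b ^ 2)) / (a ^ 2 + b ^ 2) ^ 3 * m (T2 a b) +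
    (b ^ 2 - a ^ 2) / (a ^ 2 + b ^ 2) ^ 2 * (m1 (T2 a b) * Ta a b) -
    ((4 * a ^ 3 + 6 * a * b ^ 2) * (a ^ 2 + b ^ 2) - 6 * a * (a ^ 2 * (a ^ 2 + 3 * b ^ 2))) /
      (a ^ 2 + b ^ 2) ^ 4 * m1 (T2 a b) -
    a ^ 2 * (a ^ 2 + 3 * b ^ 2) / (a ^ 2 + b ^ 2) ^ 3 * (m2 (T2 a b) * Ta a b)

noncomputable def Ubb (m m1 m2 : ℝ → ℝ) (a b : ℝ) : ℝ :=
  (-(2 * a) * (a ^ 2 + b ^ 2) + 8 * a * b ^ 2) / (a ^ 2 + b ^ 2) ^ 3 * m (T2 a b) +
    -(2 * a * b) / (a ^ 2 + b ^ 2) ^ 2 * (m1 (T2 a b) * Tb a b) +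
    ((a ^ 3 - 3 * a * b ^ 2) * (a ^ 2 + b ^ 2) - 6 * b * (a * b * (a ^ 2 - b ^ 2))) /
      (a ^ 2 + b ^ 2) ^ 4 * m1 (T2 a b) +
    a * b * (a ^ 2 - b ^ 2) / (a ^ 2 + b ^ 2) ^ 3 * (m2 (T2 a b) * Tb a b)

lemma hUa_a (h : a ^ 2 + b ^ 2 ≠ 0) (hm : HasDerivAt m (m1 (T2 a b)) (T2 a b))
    (hm1 : HasDerivAt m1 (m2 (T2 a b)) (T2 a b)) :
    HasDerivAt (fun a => Ua m m1 a b) (Uaa m m1 m2 a b) a := by
  have h1 : HasDerivAt (fun a : ℝ => a ^ 2 + b ^ 2) (2 * a) a := by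
    simpa using (hasDerivAt_pow 2 a).add_const (b ^ 2)
  have h2 : HasDerivAt (fun a : ℝ => b ^ 2 - a ^ 2) (-(2 * a)) a := by
    simpa using (hasDerivAt_pow 2 a).const_sub (b ^ 2)
  have h4 : HasDerivAt (fun a : ℝ => a ^ 2 + 3 * b ^ 2) (2 * a) a := by
    simpa using (hasDerivAt_pow 2 a).add_const (3 * b ^ 2)
  have h5 : HasDerivAt (fun a : ℝ => a ^ 2) (2 * a) a := by simpa using hasDerivAt_pow 2 a
  have h3 := ((h2.fun_div (h1.fun_pow 2) (pow_ne_zero 2 h)).fun_mul (hm.comp a (T2_a h))).fun_sub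
    (((h5.fun_mul h4).fun_div (h1.fun_pow 3) (pow_ne_zero 3 h)).fun_mul (hm1.comp a (T2_a h)))
  refine h3.congr_deriv ?_
  simp only [Function.comp, Nat.cast_ofNat]
  norm_num only
  try unfold Uaa
  try unfold Ubb
  field_simp
  ring

lemma hUb_b (h : a ^ 2 + b ^ 2 ≠ 0) (hm : HasDerivAt m (m1 (T2 a b)) (T2 a b))
    (hm1 : HasDerivAt m1 (m2 (T2 a b)) (T2 a b)) :
    HasDerivAt (fun b => Ub m m1 a b) (Ubb m m1 m2 a b) b := by
  have h1 : HasDerivAt (fun b : ℝ => a ^ 2 + b ^ 2) (2 * b) b := by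
    simpa using (hasDerivAt_pow 2 b).const_add (a ^ 2)
  have h2 : HasDerivAt (fun b : ℝ => a ^ 2 - b ^ 2) (-(2 * b)) b := by
    simpa using (hasDerivAt_pow 2 b).const_sub (a ^ 2)
  have h4 : HasDerivAt (fun b : ℝ => -(2 * a * b)) (-(2 * a)) b := by
    simpa using ((hasDerivAt_id b).const_mul (2 * a)).fun_neg
  have h5 : HasDerivAt (fun b : ℝ => a * b) a b := by
    simpa using (hasDerivAt_id b).const_mul a
  have h3 := ((h4.fun_div (h1.fun_pow 2) (pow_ne_zero 2 h)).fun_mul (hm.comp b (T2_b h))).fun_add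
    (((h5.fun_mul h2).fun_div (h1.fun_pow 3) (pow_ne_zero 3 h)).fun_mul (hm1.comp b (T2_b h)))
  refine h3.congr_deriv ?_
  simp only [Function.comp, Nat.cast_ofNat]
  norm_num only
  try unfold Uaa
  try unfold Ubb
  field_simp
  ring

/-- derivatives of `2 a b / (a² + b²) * P (T)` -/
noncomputable def Pa (P P1 : ℝ → ℝ) (a b : ℝ) : ℝ :=
  2 * b * (b ^ 2 - a ^ 2) / (a ^ 2 + b ^ 2) ^ 2 * P (T2 a b) +
    2 * a * b / (a ^ 2 + b ^ 2) * (P1 (T2 a b) * Ta a b)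

noncomputable def Pb (P P1 : ℝ → ℝ) (a b : ℝ) : ℝ :=
  2 * a * (a ^ 2 - b ^ 2) / (a ^ 2 + b ^ 2) ^ 2 * P (T2 a b) +
    2 * a * b / (a ^ 2 + b ^ 2) * (P1 (T2 a b) * Tb a b)

lemma hP_a (h : a ^ 2 + b ^ 2 ≠ 0) (hm : HasDerivAt P (P1 (T2 a b)) (T2 a b)) :
    HasDerivAt (fun a => 2 * a * b / (a ^ 2 + b ^ 2) * P (T2 a b)) (Pa P P1 a b) a := by
  have h1 : HasDerivAt (fun a : ℝ => a ^ 2 + b ^ 2) (2 * a) a := by
    simpa using (hasDerivAt_pow 2 a).add_const (b ^ 2)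
  have h2 : HasDerivAt (fun a : ℝ => 2 * a * b) (2 * b) a := by
    simpa using ((hasDerivAt_id a).const_mul 2).mul_const b
  have h3 := (h2.fun_div h1 h).fun_mul (hm.comp a (T2_a h))
  refine h3.congr_deriv ?_
  simp only [Function.comp]
  unfold Pa
  field_simp
  ring

lemma hP_b (h : a ^ 2 + b ^ 2 ≠ 0) (hm : HasDerivAt P (P1 (T2 a b)) (T2 a b)) :
    HasDerivAt (fun b => 2 * a * b / (a ^ 2 + b ^ 2) * P (T2 a b)) (Pb P P1 a b) b := by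
  have h1 : HasDerivAt (fun b : ℝ => a ^ 2 + b ^ 2) (2 * b) b := by
    simpa using (hasDerivAt_pow 2 b).const_add (a ^ 2)
  have h2 : HasDerivAt (fun b : ℝ => 2 * a * b) (2 * a) b := by
    simpa using (hasDerivAt_id b).const_mul (2 * a)
  have h3 := (h2.fun_div h1 h).fun_mul (hm.comp b (T2_b h))
  refine h3.congr_deriv ?_
  simp only [Function.comp]
  unfold Pb
  field_simp
  ring

end

lemma D_pos' {y : V2} (hy : y ≠ 0) : 0 < D y := by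
  unfold D
  by_contra h
  push Not at h
  have h0 : y 0 = 0 := by nlinarith [sq_nonneg (y 0), sq_nonneg (y 1)]
  have h1 : y 1 = 0 := by nlinarith [sq_nonneg (y 0), sq_nonneg (y 1)]
  apply hy
  ext i
  fin_cases i <;> simp [h0, h1]

lemma Tt_smooth {y : V2} (hy : y ≠ 0) : ContDiffAt ℝ 2 Tt y := by
  have hD : D y ≠ 0 := (D_pos' hy).ne'
  have h1 : ContDiffAt ℝ 2 D y := by unfold D; fun_prop
  unfold Tt
  refine (contDiffAt_const.mul (h1.log hD)).sub (ContDiffAt.div (by fun_prop) (contDiffAt_const.mul h1)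
    (by positivity))

section
variable {m m1 m2 P P1 n : ℝ → ℝ}

lemma U_smooth (h : Profile m m1 m2 P P1 n) {y : V2} (hy : y ≠ 0) (hT : 0 < Tt y) :
    ContDiffAt ℝ 2 (U m) y := by
  have hD : D y ≠ 0 := (D_pos' hy).ne'
  have h1 : ContDiffAt ℝ 2 D y := by unfold D; fun_prop
  unfold U
  refine ContDiffAt.mul (ContDiffAt.div (by fun_prop) h1 hD) ?_
  exact ContDiffAt.comp y (h.mc.contDiffAt (Ioi_mem_nhds hT)) (Tt_smooth hy)

lemma Psi_smooth (h : Profile m m1 m2 P P1 n) {y : V2} (hy : y ≠ 0) (hT : 0 < Tt y) :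
    ContDiffAt ℝ 2 (Psi P) y := by
  have hD : D y ≠ 0 := (D_pos' hy).ne'
  have h1 : ContDiffAt ℝ 2 D y := by unfold D; fun_prop
  unfold Psi
  refine ContDiffAt.mul (ContDiffAt.div (by fun_prop) h1 hD) ?_
  exact ContDiffAt.comp y (h.Pc.contDiffAt (Ioi_mem_nhds hT)) (Tt_smooth hy)

lemma U_eq (m : ℝ → ℝ) (y : V2) :
    U m y = (fun a b => a / (a ^ 2 + b ^ 2) * m (T2 a b)) (y 0) (y 1) := rfl

lemma Psi_eq (P : ℝ → ℝ) (y : V2) :
    Psi P y = (fun a b => 2 * a * b / (a ^ 2 + b ^ 2) * P (T2 a b)) (y 0) (y 1) := rfl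

lemma Tt_eq (y : V2) : Tt y = T2 (y 0) (y 1) := rfl

lemma pd0_U (h : Profile m m1 m2 P P1 n) {y : V2} (hy : y ≠ 0) (hT : 0 < Tt y) :
    pd 0 (U m) y = Ua m m1 (y 0) (y 1) :=
  pd0_eq (F := fun a b => a / (a ^ 2 + b ^ 2) * m (T2 a b)) (U_eq m) ((U_smooth h hy hT).differentiableAt (by norm_num))
    (hU_a (D_pos' hy).ne' (h.dm _ hT))

lemma pd1_U (h : Profile m m1 m2 P P1 n) {y : V2} (hy : y ≠ 0) (hT : 0 < Tt y) :
    pd 1 (U m) y = Ub m m1 (y 0) (y 1) :=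
  pd1_eq (F := fun a b => a / (a ^ 2 + b ^ 2) * m (T2 a b)) (U_eq m) ((U_smooth h hy hT).differentiableAt (by norm_num))
    (hU_b (D_pos' hy).ne' (h.dm _ hT))

lemma pd0_Psi (h : Profile m m1 m2 P P1 n) {y : V2} (hy : y ≠ 0) (hT : 0 < Tt y) :
    pd 0 (Psi P) y = Pa P P1 (y 0) (y 1) :=
  pd0_eq (F := fun a b => 2 * a * b / (a ^ 2 + b ^ 2) * P (T2 a b)) (Psi_eq P) ((Psi_smooth h hy hT).differentiableAt (by norm_num))
    (hP_a (D_pos' hy).ne' (h.dP _ hT))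

lemma pd1_Psi (h : Profile m m1 m2 P P1 n) {y : V2} (hy : y ≠ 0) (hT : 0 < Tt y) :
    pd 1 (Psi P) y = Pb P P1 (y 0) (y 1) :=
  pd1_eq (F := fun a b => 2 * a * b / (a ^ 2 + b ^ 2) * P (T2 a b)) (Psi_eq P) ((Psi_smooth h hy hT).differentiableAt (by norm_num))
    (hP_b (D_pos' hy).ne' (h.dP _ hT))

lemma good_nhds {y : V2} (hy : y ≠ 0) (hT : 0 < Tt y) : ∀ᶠ z in 𝓝 y, z ≠ 0 ∧ 0 < Tt z :=
  Filter.Eventually.and (isOpen_ne.mem_nhds hy)
    ((Tt_smooth hy).continuousAt.eventually (lt_mem_nhds hT))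

lemma pd_contDiffAt' {i : Fin 2} {f : V2 → ℝ} {x : V2} (h : ContDiffAt ℝ 2 f x) :
    ContDiffAt ℝ 1 (pd i f) x := by
  unfold pd
  exact (h.fderiv_right (m := 1) (by norm_num)).clm_apply contDiffAt_const

theorem pde : S_PDE := by
  intro m m1 m2 P P1 n h y hy hT
  have hU := U_smooth h hy hT
  refine ⟨hU, Psi_smooth h hy hT, ?_⟩
  have hD : (y 0) ^ 2 + (y 1) ^ 2 ≠ 0 := (D_pos' hy).ne'
  have e0 : pd 0 (pd 0 (U m)) y = Uaa m m1 m2 (y 0) (y 1) := by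
    have h1 : pd 0 (U m) =ᶠ[𝓝 y] fun z => Ua m m1 (z 0) (z 1) := by
      filter_upwards [good_nhds hy hT] with z hz using pd0_U h hz.1 hz.2
    have h2 : DifferentiableAt ℝ (fun z : V2 => Ua m m1 (z 0) (z 1)) y :=
      ((pd_contDiffAt' hU).differentiableAt (by norm_num)).congr_of_eventuallyEq h1.symm
    have h3 : pd 0 (pd 0 (U m)) y = pd 0 (fun z : V2 => Ua m m1 (z 0) (z 1)) y := by
      unfold pd at h1 ⊢
      rw [h1.fderiv_eq]
    rw [h3]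
    exact pd0_eq (F := fun a b => Ua m m1 a b) (fun _ => rfl) h2 (hUa_a hD (h.dm _ hT) (h.dm1 _ hT))
  have e1 : pd 1 (pd 1 (U m)) y = Ubb m m1 m2 (y 0) (y 1) := by
    have h1 : pd 1 (U m) =ᶠ[𝓝 y] fun z => Ub m m1 (z 0) (z 1) := by
      filter_upwards [good_nhds hy hT] with z hz using pd1_U h hz.1 hz.2
    have h2 : DifferentiableAt ℝ (fun z : V2 => Ub m m1 (z 0) (z 1)) y :=
      ((pd_contDiffAt' hU).differentiableAt (by norm_num)).congr_of_eventuallyEq h1.symm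
    have h3 : pd 1 (pd 1 (U m)) y = pd 1 (fun z : V2 => Ub m m1 (z 0) (z 1)) y := by
      unfold pd at h1 ⊢
      rw [h1.fderiv_eq]
    rw [h3]
    exact pd1_eq (F := fun a b => Ub m m1 a b) (fun _ => rfl) h2 (hUb_b hD (h.dm _ hT) (h.dm1 _ hT))
  unfold lap
  rw [Fin.sum_univ_two, e0, e1, pd0_U h hy hT, pd1_U h hy hT, pd0_Psi h hy hT, pd1_Psi h hy hT]
  have o1 := h.ode1 _ hT
  have o2 := h.ode2 _ hT
  rw [Tt_eq] at o1 o2
  unfold Uaa Ubb Ua Ub Pa Pb Ta Tb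
  generalize m (T2 (y 0) (y 1)) = M at *
  generalize m1 (T2 (y 0) (y 1)) = M1 at *
  generalize m2 (T2 (y 0) (y 1)) = M2 at *
  generalize P (T2 (y 0) (y 1)) = Q at *
  generalize P1 (T2 (y 0) (y 1)) = Q1 at *
  generalize y 0 = a at *
  generalize y 1 = b at *
  have o1' : M2 = -(Q1 * M) := by linarith
  subst o1'
  have o3 : (a / (a ^ 2 + b ^ 2) ^ 2) * ((a ^ 2 - b ^ 2) / (a ^ 2 + b ^ 2)) *
      (2 * (M + M1) * Q + -(Q1 * M) + 4 * M1) = 0 := by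
    rw [o2]; ring
  rw [← sub_eq_zero, ← o3]
  field_simp
  ring

theorem grad : S_GRAD := by
  intro m m1 m2 P P1 n h y hy hT
  have hD0 : 0 < (y 0) ^ 2 + (y 1) ^ 2 := D_pos' hy
  have hn := h.Pn _ hT
  have hn1 := h.P1n _ hT
  have hm := h.mpos _ hT
  have hmg := h.m1ge _ hT
  constructor
  · have hs : 0 < √(D y) := Real.sqrt_pos.2 hD0
    have hs2 : √(D y) ^ 2 = (y 0) ^ 2 + (y 1) ^ 2 := Real.sq_sqrt hD0.le
    have hn0 : 0 ≤ n (Tt y) := (abs_nonneg _).trans hn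
    have ha : |y 0| ≤ √(D y) := by
      rw [← Real.sqrt_sq_eq_abs]; apply Real.sqrt_le_sqrt; unfold D; nlinarith [sq_nonneg (y 1)]
    have hb : |y 1| ≤ √(D y) := by
      rw [← Real.sqrt_sq_eq_abs]; apply Real.sqrt_le_sqrt; unfold D; nlinarith [sq_nonneg (y 0)]
    have q1 : |(y 1) ^ 2 - (y 0) ^ 2| ≤ √(D y) ^ 2 := by
      rw [hs2, abs_le]; constructor <;> nlinarith [sq_nonneg (y 0), sq_nonneg (y 1)]
    have q2 : |2 * y 0 * y 1| ≤ √(D y) ^ 2 := by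
      rw [hs2, abs_le]
      constructor <;> nlinarith [sq_nonneg (y 0 - y 1), sq_nonneg (y 0 + y 1)]
    have hTa : |Ta (y 0) (y 1)| ≤ 3 / √(D y) := by
      unfold Ta
      rw [← hs2, abs_div, abs_neg, abs_mul, abs_of_nonneg (by positivity : (0:ℝ) ≤ (√(D y) ^ 2) ^ 2),
        abs_of_nonneg (by positivity : (0:ℝ) ≤ y 0 ^ 2 + 3 * y 1 ^ 2), div_le_div_iff₀ (by positivity) hs]
      have : y 0 ^ 2 + 3 * y 1 ^ 2 ≤ 3 * √(D y) ^ 2 := by rw [hs2]; nlinarith [sq_nonneg (y 0)]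
      calc |y 0| * (y 0 ^ 2 + 3 * y 1 ^ 2) * √(D y) ≤ √(D y) * (3 * √(D y) ^ 2) * √(D y) := by
            gcongr
        _ = 3 * (√(D y) ^ 2) ^ 2 := by ring
    have hTb : |Tb (y 0) (y 1)| ≤ 3 / √(D y) := by
      unfold Tb
      rw [← hs2, abs_div, abs_mul, abs_of_nonneg (by positivity : (0:ℝ) ≤ (√(D y) ^ 2) ^ 2),
        div_le_div_iff₀ (by positivity) hs]
      rw [abs_sub_comm] at q1
      calc |y 1| * |y 0 ^ 2 - y 1 ^ 2| * √(D y) ≤ √(D y) * (√(D y) ^ 2) * √(D y) := by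
            gcongr
        _ ≤ 3 * (√(D y) ^ 2) ^ 2 := by nlinarith [sq_nonneg (√(D y) ^ 2)]
    have hr : |2 * y 0 * y 1 / ((y 0) ^ 2 + (y 1) ^ 2)| ≤ 1 := by
      rw [abs_div, abs_of_pos hD0, div_le_one hD0, ← hs2]
      exact q2
    intro i
    fin_cases i
    · show |pd 0 (Psi P) y| ≤ _
      rw [pd0_Psi h hy hT]
      unfold Pa
      refine (abs_add_le _ _).trans ?_
      have c1 : |2 * y 1 * (y 1 ^ 2 - y 0 ^ 2) / (y 0 ^ 2 + y 1 ^ 2) ^ 2| ≤ 2 / √(D y) := by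
        rw [← hs2, abs_div, abs_mul, abs_mul, abs_of_nonneg (by positivity : (0:ℝ) ≤ (√(D y) ^ 2) ^ 2),
          div_le_div_iff₀ (by positivity) hs, abs_of_pos (by norm_num : (0:ℝ) < 2)]
        calc 2 * |y 1| * |y 1 ^ 2 - y 0 ^ 2| * √(D y) ≤ 2 * √(D y) * (√(D y) ^ 2) * √(D y) := by
              gcongr
          _ = 2 * (√(D y) ^ 2) ^ 2 := by ring
      rw [abs_mul, abs_mul, abs_mul]
      calc _ ≤ 2 / √(D y) * n (Tt y) + 1 * (n (Tt y) * (3 / √(D y))) := by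
            gcongr
            · exact hn
            · exact hn1
        _ ≤ 20 * n (Tt y) / √(D y) := by
            rw [show 2 / √(D y) * n (Tt y) + 1 * (n (Tt y) * (3 / √(D y))) =
              5 * n (Tt y) / √(D y) by field_simp; ring]
            gcongr
            norm_num
    · show |pd 1 (Psi P) y| ≤ _
      rw [pd1_Psi h hy hT]
      unfold Pb
      refine (abs_add_le _ _).trans ?_
      have c1 : |2 * y 0 * (y 0 ^ 2 - y 1 ^ 2) / (y 0 ^ 2 + y 1 ^ 2) ^ 2| ≤ 2 / √(D y) := by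
        rw [← hs2, abs_div, abs_mul, abs_mul, abs_of_nonneg (by positivity : (0:ℝ) ≤ (√(D y) ^ 2) ^ 2),
          div_le_div_iff₀ (by positivity) hs, abs_of_pos (by norm_num : (0:ℝ) < 2)]
        rw [abs_sub_comm] at q1
        calc 2 * |y 0| * |y 0 ^ 2 - y 1 ^ 2| * √(D y) ≤ 2 * √(D y) * (√(D y) ^ 2) * √(D y) := by
              gcongr
          _ = 2 * (√(D y) ^ 2) ^ 2 := by ring
      rw [abs_mul, abs_mul, abs_mul]
      calc _ ≤ 2 / √(D y) * n (Tt y) + 1 * (n (Tt y) * (3 / √(D y))) := by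
            gcongr
            · exact hn
            · exact hn1
        _ ≤ 20 * n (Tt y) / √(D y) := by
            rw [show 2 / √(D y) * n (Tt y) + 1 * (n (Tt y) * (3 / √(D y))) =
              5 * n (Tt y) / √(D y) by field_simp; ring]
            gcongr
            norm_num
  · intro h4
    rw [pd0_U h hy hT]
    unfold Ua
    rw [← Tt_eq]
    have hm1 : m1 (Tt y) ≥ -(m (Tt y)) / 4 := hmg
    generalize m1 (Tt y) = M1 at *
    generalize m (Tt y) = M at *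
    unfold D
    generalize y 0 = a at *
    generalize y 1 = b at *
    set q := a ^ 2 + b ^ 2 with hq
    have h5 : M / (4 * q) = (M * q ^ 2 / 4) / q ^ 3 := by field_simp
    have h6 : -((b ^ 2 - a ^ 2) / q ^ 2 * M - a ^ 2 * (a ^ 2 + 3 * b ^ 2) / q ^ 3 * M1) =
        ((a ^ 2 - b ^ 2) * q * M + a ^ 2 * (a ^ 2 + 3 * b ^ 2) * M1) / q ^ 3 := by
      field_simp
      ring
    rw [h5, h6]
    apply div_le_div_of_nonneg_right _ (by positivity)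
    have h7 : a ^ 2 * (a ^ 2 + 3 * b ^ 2) * (-M / 4) ≤ a ^ 2 * (a ^ 2 + 3 * b ^ 2) * M1 :=
      mul_le_mul_of_nonneg_left hm1 (by positivity)
    have h8 : 0 ≤ (a ^ 2 - b ^ 2) * q - a ^ 2 * (a ^ 2 + 3 * b ^ 2) / 4 - q ^ 2 / 4 := by
      rw [hq]
      nlinarith [sq_nonneg a, sq_nonneg b, mul_nonneg (sq_nonneg a) (sub_nonneg.2 h4),
        mul_nonneg (sq_nonneg b) (sub_nonneg.2 h4)]
    nlinarith
end

end Pool.Agent.R213.NP
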