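import Pool.Agent.R213.NP.Stm

open MeasureTheory Set Filter Function
open scoped Topology ContDiff ENNReal

namespace Pool.Agent.R213.NP

open Pool.Agent.R212 Pool.Agent.R212.AdvDiff

/-- the solution -/
noncomputable def sol (v : V2 → ℝ) (t : ℝ) (x : V2) : ℝ := Real.exp t * v x

lemma tq (T : ℝ) : (volume.restrict (Ioo 0 T) : Measure ℝ) = volume.restrict (Ioc 0 T) :=
  restrict_Ioo_eq_restrict_Ioc

/-- product of an integrable function of `x` and a continuous function of `(t,x)` -/
lemma int_prod {w : V2 → ℝ} (hw : Integrable w (cubeMeasure 2)) {K : ℝ × V2 → ℝ}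
    (hK : Continuous K) (T : ℝ) :
    Integrable (fun p : ℝ × V2 => w p.2 * K p) ((volume.restrict (Ioc 0 T)).prod (cubeMeasure 2)) := by
  obtain ⟨C, hC⟩ := (isCompact_Icc.prod (ccube_compact 2)).exists_bound_of_continuousOn
    (s := Icc 0 T ×ˢ ccube 2) hK.continuousOn
  have h1 : Integrable (fun p : ℝ × V2 => w p.2)
      ((volume.restrict (Ioc 0 T)).prod (cubeMeasure 2)) := hw.comp_snd _
  refine h1.mul_bdd hK.aestronglyMeasurable (c := C) ?_
  have : (volume.restrict (Ioc (0 : ℝ) T)).prod (cubeMeasure 2) =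
      (volume.prod volume).restrict (Ioc 0 T ×ˢ cube 2) := by
    rw [cubeMeasure, Measure.prod_restrict]
  rw [this]
  filter_upwards [ae_restrict_mem (measurableSet_Ioc.prod (cube_meas 2))] with p hp
  exact hC p ⟨Ioc_subset_Icc_self hp.1, cube_sub 2 hp.2⟩

lemma cont_slice {K : ℝ × V2 → ℝ} (hK : Continuous K) (t : ℝ) : Continuous fun x => K (t, x) :=
  hK.comp (by fun_prop)

lemma int_slice {w : V2 → ℝ} (hw : Integrable w (cubeMeasure 2)) {K : V2 → ℝ} (hK : Continuous K) :
    Integrable (fun x => w x * K x) (cubeMeasure 2) := by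
  obtain ⟨C, hC⟩ := (ccube_compact 2).exists_bound_of_continuousOn (s := ccube 2) hK.continuousOn
  refine hw.mul_bdd hK.aestronglyMeasurable (c := C) ?_
  filter_upwards [ae_cube 2] with x hx
  exact hC x (cube_sub 2 hx)

/-- the weak formulation in space and time -/
lemma weak_time {b : V2 → V2} {v : V2 → ℝ} (hb : ∀ i, MemLp (fun x => b x i) 2 (cubeMeasure 2))
    (hv : MemLp v 2 (cubeMeasure 2))
    (he : ∀ φ, SP φ → ∫ x, v x * (φ x - lap φ x - adv b φ x) ∂(cubeMeasure 2) = 0)
    {T : ℝ} (hT : 0 < T) {φ : ℝ → V2 → ℝ} (h : IsTestFunction T φ) :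
    ∫ p, sol v p.1 p.2 * (dt φ p.1 p.2 + adv b (φ p.1) p.2 + lap (φ p.1) p.2)
        ∂((volume.restrict (Ioc 0 T)).prod (cubeMeasure 2)) +
      ∫ x, v x * φ 0 x ∂(cubeMeasure 2) = 0 := by
  obtain ⟨hs, hper, δ, hδ, hz⟩ := h
  have hvi : Integrable v (cubeMeasure 2) := hv.integrable (by norm_num)
  have hbi : ∀ i, Integrable (fun x => v x * b x i) (cubeMeasure 2) := fun i =>
    hv.integrable_mul (hb i)
  have hs1 : ContDiff ℝ 1 (fun p : ℝ × V2 => φ p.1 p.2) := hs.of_le (by exact_mod_cast le_top)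
  have c0 : Continuous fun p : ℝ × V2 => φ p.1 p.2 := hs.continuous
  have c1 : Continuous fun p : ℝ × V2 => dt φ p.1 p.2 := dt_cont hs1
  have c2 : ∀ i, Continuous fun p : ℝ × V2 => pd i (φ p.1) p.2 := fun i => (pd_smooth hs i).continuous
  have c3 : Continuous fun p : ℝ × V2 => lap (φ p.1) p.2 := (lap_smooth hs).continuous
  have ce : Continuous fun p : ℝ × V2 => Real.exp p.1 := by fun_prop
  -- integrability of the integrand
  have I1 := int_prod hvi (ce.mul c1) T
  have I2 : ∀ i, _ := fun i => int_prod (hbi i) (ce.mul (c2 i)) T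
  have I3 := int_prod hvi (ce.mul c3) T
  have hint : Integrable (fun p : ℝ × V2 =>
      sol v p.1 p.2 * (dt φ p.1 p.2 + adv b (φ p.1) p.2 + lap (φ p.1) p.2))
      ((volume.restrict (Ioc 0 T)).prod (cubeMeasure 2)) := by
    refine (((I1.add (I2 0)).add (I2 1)).add I3).congr ?_
    filter_upwards with p
    simp only [Pi.add_apply, Pi.mul_apply, sol, adv, Fin.sum_univ_two]
    ring
  rw [integral_prod _ hint]
  -- slices
  have hsl : ∀ t, ∫ x, sol v t x * (dt φ t x + adv b (φ t) x + lap (φ t) x) ∂(cubeMeasure 2) =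
      ∫ x, v x * (Real.exp t * (dt φ t x + φ t x)) ∂(cubeMeasure 2) := by
    intro t
    have e1 := he (φ t) ⟨slice_smooth hs t, hper t⟩
    have J0 := int_slice hvi (cont_slice c0 t)
    have J1 := int_slice hvi (cont_slice c1 t)
    have J2 : ∀ i, _ := fun i => int_slice (hbi i) (cont_slice (c2 i) t)
    have J3 := int_slice hvi (cont_slice c3 t)
    have J4 : Integrable (fun x => v x * (φ t x - lap (φ t) x - adv b (φ t) x)) (cubeMeasure 2) := by
      refine ((J0.sub J3).sub ((J2 0).add (J2 1))).congr ?_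
      filter_upwards with x
      simp only [Pi.add_apply, Pi.sub_apply, adv, Fin.sum_univ_two]
      ring
    have J5 : Integrable (fun x => v x * (Real.exp t * (dt φ t x + φ t x))) (cubeMeasure 2) := by
      refine ((J0.add J1).const_mul (Real.exp t)).congr ?_
      filter_upwards with x
      simp only [Pi.add_apply]
      ring
    have e2 : ∀ x, sol v t x * (dt φ t x + adv b (φ t) x + lap (φ t) x) =
        v x * (Real.exp t * (dt φ t x + φ t x)) -
          Real.exp t * (v x * (φ t x - lap (φ t) x - adv b (φ t) x)) := by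
      intro x
      simp only [sol]
      ring
    simp_rw [e2]
    rw [integral_sub J5 (J4.const_mul _), integral_const_mul, e1]
    simp
  simp_rw [hsl]
  -- swap
  have I4 : Integrable (uncurry fun (t : ℝ) (x : V2) => v x * (Real.exp t * (dt φ t x + φ t x)))
      ((volume.restrict (Ioc 0 T)).prod (cubeMeasure 2)) := by
    have := int_prod hvi (ce.mul (c1.add c0)) T
    exact this
  rw [integral_integral_swap I4]
  have hx : ∀ x, ∫ t, v x * (Real.exp t * (dt φ t x + φ t x)) ∂(volume.restrict (Ioc 0 T)) =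
      -(v x * φ 0 x) := by
    intro x
    rw [integral_const_mul, ← intervalIntegral.integral_of_le hT.le]
    have hd : ∀ t, HasDerivAt (fun t => Real.exp t * φ t x) (Real.exp t * (dt φ t x + φ t x)) t := by
      intro t
      refine ((Real.hasDerivAt_exp t).fun_mul (dt_hasDeriv hs1 t x)).congr_deriv ?_
      ring
    rw [intervalIntegral.integral_eq_sub_of_hasDerivAt (fun t _ => hd t)]
    · rw [hz T (by linarith) x]
      simp
    · apply Continuous.intervalIntegrable
      fun_prop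
  simp_rw [hx]
  rw [integral_neg]
  simp

theorem final (h : S_MAIN) : ∃ (b : V2 → V2) (u₀ : V2 → ℝ) (u : ℝ → V2 → ℝ),
    MemLp b 2 (torusMeasure 2) ∧ ∀ T : ℝ, 0 < T →
      MemLrLp T 2 2 (fun _ => b) ∧ DivergenceFree T (fun _ => b) ∧
      IsDistributionalSolution T 2 (fun _ => b) u₀ u ∧ ¬ IsParabolic T u := by
  obtain ⟨b, v, hb, hdiv, hv, heq, hnp⟩ := h
  have hbL : MemLp b 2 (cubeMeasure 2) := memLp_pi_iff.2 hb
  have hvi : Integrable v (cubeMeasure 2) := hv.integrable (by norm_num)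
  have hbi : ∀ i, Integrable (fun x => v x * b x i) (cubeMeasure 2) := fun i =>
    hv.integrable_mul (hb i)
  have ce : Continuous fun p : ℝ × V2 => Real.exp p.1 := by fun_prop
  refine ⟨b, v, sol v, hbL, fun T hT => ⟨⟨?_, ?_⟩, ?_, ⟨hv, ⟨?_, ?_⟩, ?_, ?_⟩, ?_⟩⟩
  · exact hbL.1.comp_snd
  · rw [eLpNorm_const' _ (by norm_num) (by norm_num)]
    refine ENNReal.mul_lt_top ?_ ?_
    · have : ‖eLpNorm b 2 (cubeMeasure 2)‖ₑ < ⊤ := by simpa using hbL.2
      exact this
    · apply ENNReal.rpow_lt_top_of_nonneg (by norm_num)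
      simp
  · filter_upwards with t ψ hψ
    exact hdiv ψ hψ.1 hψ.2
  · exact ce.aestronglyMeasurable.mul (hv.1.comp_snd)
  · refine lt_of_le_of_lt (b := ENNReal.ofReal (Real.exp T) * eLpNorm v 2 (cubeMeasure 2)) ?_
      (ENNReal.mul_lt_top ENNReal.ofReal_lt_top hv.2)
    rw [eLpNorm_exponent_top]
    refine eLpNormEssSup_le_of_ae_enorm_bound ?_
    filter_upwards [ae_restrict_mem measurableSet_Ioo] with t ht
    have : sol v t = Real.exp t • v := rfl
    rw [this, eLpNorm_const_smul]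
    show _ * _ ≤ _
    gcongr
    · rw [Real.enorm_eq_ofReal (Real.exp_pos t).le]
      exact ENNReal.ofReal_le_ofReal (Real.exp_le_exp.2 ht.2.le)
    · exact le_refl _
  · rw [tq]
    rw [integrable_pi_iff]
    intro i
    refine (int_prod (hbi i) ce T).congr ?_
    filter_upwards with p
    simp only [sol, Pi.smul_apply, smul_eq_mul]
    ring
  · intro φ hφ
    rw [tq]
    exact weak_time hb hv heq hT hφ
  · rintro ⟨-, G, ⟨hGm, hG⟩, hGw⟩
    change AEStronglyMeasurable _ ((volume.restrict (Ioo 0 T)).prod (cubeMeasure 2)) at hGm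
    change eLpNorm (fun t => eLpNorm (G t) 2 (cubeMeasure 2)) 2 (volume.restrict (Ioo 0 T)) < ⊤ at hG
    have hGs : ∀ᵐ t ∂(volume.restrict (Ioo 0 T)), AEStronglyMeasurable (G t) (cubeMeasure 2) :=
      hGm.prodMk_left
    have hGf : ∀ᵐ t ∂(volume.restrict (Ioo 0 T)), eLpNorm (G t) 2 (cubeMeasure 2) < ⊤ := by
      have h1 : ∫⁻ t, (eLpNorm (G t) 2 (cubeMeasure 2)) ^ (2 : ℝ) ∂(volume.restrict (Ioo 0 T)) < ⊤ := by
        have h1 := lintegral_rpow_enorm_lt_top_of_eLpNorm_lt_top (p := 2) (by norm_num)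
          (by norm_num) hG
        simpa using h1
      have h2 : AEMeasurable (fun t => (eLpNorm (G t) 2 (cubeMeasure 2)) ^ (2 : ℝ))
          (volume.restrict (Ioo 0 T)) := by
        have h3 : AEMeasurable (fun q : ℝ × V2 => ‖G q.1 q.2‖ₑ ^ (2 : ℝ))
          ((volume.restrict (Ioo 0 T)).prod (cubeMeasure 2)) := hGm.enorm.pow_const _
        have h4 := h3.lintegral_prod_right'
        refine h4.congr (Eventually.of_forall fun t => ?_)
        show ∫⁻ x, ‖G t x‖ₑ ^ (2 : ℝ) ∂(cubeMeasure 2) = (eLpNorm (G t) 2 (cubeMeasure 2)) ^ (2 : ℝ)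
        rw [eLpNorm_eq_lintegral_rpow_enorm_toReal (by norm_num) (by norm_num), ← ENNReal.rpow_mul]
        simp
      filter_upwards [ae_lt_top' h2 h1.ne] with t ht
      by_contra h
      rw [not_lt, top_le_iff] at h
      rw [h] at ht
      simp at ht
    have hne : (volume.restrict (Ioo 0 T)) ≠ 0 := by
      rw [Ne, Measure.restrict_eq_zero]
      simp [hT]
    have : NeBot (ae (volume.restrict (Ioo 0 T))) := ae_neBot.2 hne
    obtain ⟨t, h1, h2, h3⟩ := (hGs.and (hGf.and hGw)).exists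
    apply hnp
    have hGt : MemLp (G t) 2 (cubeMeasure 2) := ⟨h1, h2⟩
    refine ⟨fun x => Real.exp (-t) * G t x 0, (hGt.eval 0).const_mul _, fun φ hφ => ?_⟩
    have h4 := h3 φ ⟨hφ.1, hφ.2⟩ 0
    have e1 : ∫ x, sol v t x * partialD 0 φ x ∂(torusMeasure 2) =
        Real.exp t * ∫ x, v x * pd 0 φ x ∂(cubeMeasure 2) := by
      rw [← integral_const_mul]
      refine integral_congr_ae (Eventually.of_forall fun x => ?_)
      show Real.exp t * v x * pd 0 φ x = Real.exp t * (v x * pd 0 φ x)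
      ring
    have e2 : ∫ x, Real.exp (-t) * G t x 0 * φ x ∂(cubeMeasure 2) =
        Real.exp (-t) * ∫ x, G t x 0 * φ x ∂(cubeMeasure 2) := by
      rw [← integral_const_mul]
      refine integral_congr_ae (Eventually.of_forall fun x => ?_)
      show Real.exp (-t) * G t x 0 * φ x = Real.exp (-t) * (G t x 0 * φ x)
      ring
    rw [e2]
    rw [e1] at h4
    have e3 : Real.exp (-t) * Real.exp t = 1 := by rw [← Real.exp_add]; simp
    have h4' : Real.exp t * ∫ x, v x * pd 0 φ x ∂(cubeMeasure 2) =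
      -∫ x, G t x 0 * φ x ∂(cubeMeasure 2) := h4
    calc ∫ x, v x * pd 0 φ x ∂(cubeMeasure 2) =
        Real.exp (-t) * (Real.exp t * ∫ x, v x * pd 0 φ x ∂(cubeMeasure 2)) := by
          rw [← mul_assoc, e3, one_mul]
      _ = _ := by rw [h4']; ring

end Pool.Agent.R213.NP
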