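import Pool.Agent.R213.NP.Stm

/-!
# Weak gradient and classical gradient off the centre
-/

open MeasureTheory Set Filter
open scoped ContDiff ENNReal Topology

namespace Pool.Agent.R213.NP

open Pool.Agent.R212

/-- the fractional part of every coordinate -/
noncomputable def frc (x : V2) : V2 := fun i => Int.fract (x i)

/-- the open unit square -/
def Osq : Set V2 := Set.pi univ fun _ => Ioo (0 : ℝ) 1

lemma Osq_open : IsOpen Osq := isOpen_set_pi finite_univ fun _ _ => isOpen_Ioo

/-- near a point with no integer coordinate the periodisation is a translate -/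
lemma gr_per_int {ψ : V2 → ℝ} {x : V2} (hx : ∀ i, x i ≠ ⌊x i⌋) :
    (fun y => ψ (frc y)) =ᶠ[𝓝 x] fun y => ψ (y - fun i => (⌊x i⌋ : ℝ)) := by
  have h1 : ∀ i : Fin 2, ∀ᶠ y : V2 in 𝓝 x, ⌊y i⌋ = ⌊x i⌋ := by
    intro i
    have h2 : ∀ᶠ s : ℝ in 𝓝 (x i), ⌊s⌋ = ⌊x i⌋ := by
      have h3 : (⌊x i⌋ : ℝ) < x i := lt_of_le_of_ne (Int.floor_le _) (hx i).symm
      have h4 : x i < ⌊x i⌋ + 1 := Int.lt_floor_add_one _
      filter_upwards [Ioo_mem_nhds h3 h4] with s hs
      exact Int.floor_eq_iff.2 ⟨hs.1.le, hs.2⟩
    exact (continuous_apply i).continuousAt.eventually h2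
  filter_upwards [h1 0, h1 1] with y h0 h1
  have : frc y = y - fun i => (⌊x i⌋ : ℝ) := by
    funext i
    simp only [frc, Pi.sub_apply, Int.fract]
    fin_cases i
    · simp [h0]
    · simp [h1]
  simp only [this]

/-- near a point with an integer coordinate the periodisation vanishes -/
lemma per_zero {ψ : V2 → ℝ} (hc : HasCompactSupport ψ) (hs : tsupport ψ ⊆ Osq) {x : V2} {i : Fin 2}
    {k : ℤ} (hx : x i = k) : (fun y => ψ (frc y)) =ᶠ[𝓝 x] fun _ => 0 := by
  set K : Set ℝ := (fun y : V2 => y i) '' tsupport ψ with hK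
  have hKc : IsCompact K := hc.isCompact.image (continuous_apply i)
  have hK0 : (0 : ℝ) ∉ K := by
    rintro ⟨y, hy, h⟩
    have := hs hy i (mem_univ i)
    simp only at h
    rw [h] at this
    exact lt_irrefl _ this.1
  have hK1 : (1 : ℝ) ∉ K := by
    rintro ⟨y, hy, h⟩
    have := hs hy i (mem_univ i)
    simp only at h
    rw [h] at this
    exact lt_irrefl _ this.2
  have hU0 : Kᶜ ∈ 𝓝 (0 : ℝ) := hKc.isClosed.isOpen_compl.mem_nhds hK0
  have hU1 : Kᶜ ∈ 𝓝 (1 : ℝ) := hKc.isClosed.isOpen_compl.mem_nhds hK1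
  have hc0 : Tendsto (fun y : V2 => y i - k) (𝓝 x) (𝓝 0) := by
    have : Continuous fun y : V2 => y i - (k : ℝ) := by fun_prop
    have h := this.tendsto x
    simpa [hx] using h
  have hc1 : Tendsto (fun y : V2 => y i - k + 1) (𝓝 x) (𝓝 1) := by
    have h := hc0.add_const 1
    simpa using h
  have hI : Ioo (-1 : ℝ) 1 ∈ 𝓝 (0 : ℝ) := Ioo_mem_nhds (by norm_num) (by norm_num)
  filter_upwards [hc0 hU0, hc1 hU1, hc0 hI] with y h0 h1 h2
  have h3 : Int.fract (y i) = y i - k ∨ Int.fract (y i) = y i - k + 1 := by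
    have h2' : -1 < y i - k ∧ y i - k < 1 := h2
    by_cases h : 0 ≤ y i - k
    · left
      have : ⌊y i⌋ = k := Int.floor_eq_iff.2 ⟨by linarith, by linarith [h2'.2]⟩
      simp [Int.fract, this]
    · right
      push Not at h
      have : ⌊y i⌋ = k - 1 := Int.floor_eq_iff.2 ⟨by push_cast; linarith [h2'.1], by push_cast; linarith⟩
      simp [Int.fract, this]
      ring
  have h4 : frc y ∉ tsupport ψ := by
    intro h
    have h5 : frc y i ∈ K := ⟨_, h, rfl⟩
    rcases h3 with h3 | h3
    · exact h0 (by rw [frc, h3] at h5; exact h5)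
    · exact h1 (by rw [frc, h3] at h5; exact h5)
  exact image_eq_zero_of_notMem_tsupport h4

/-- the periodisation is an admissible test function -/
lemma per_SP {ψ : V2 → ℝ} (hsm : ContDiff ℝ ∞ ψ) (hc : HasCompactSupport ψ)
    (hs : tsupport ψ ⊆ Osq) : SP fun y => ψ (frc y) := by
  constructor
  · rw [contDiff_iff_contDiffAt]
    intro x
    by_cases h : ∀ i, x i ≠ ⌊x i⌋
    · have h1 : ContDiffAt ℝ ∞ (fun y => ψ (y - fun i => (⌊x i⌋ : ℝ))) x :=
        (hsm.comp (contDiff_id.sub contDiff_const)).contDiffAt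
      exact h1.congr_of_eventuallyEq (gr_per_int h)
    · push Not at h
      obtain ⟨i, hi⟩ := h
      exact contDiffAt_const.congr_of_eventuallyEq (per_zero hc hs hi)
  · intro i x
    have : frc (x + Pi.single i 1) = frc x := by
      funext j
      simp only [frc, Pi.add_apply]
      by_cases hj : j = i
      · subst hj
        simp
      · simp [hj]
    simp only [this]

/-- the periodisation is the given function near every point of the cube -/
lemma per_eq {ψ : V2 → ℝ} (hc : HasCompactSupport ψ)
    (hs : tsupport ψ ⊆ Osq) {x : V2} (hx : x ∈ cube 2) : (fun y => ψ (frc y)) =ᶠ[𝓝 x] ψ := by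
  by_cases h : ∀ i, x i ≠ 1
  · have h0 : ∀ i, ⌊x i⌋ = 0 := fun i => by
      have := hx i (mem_univ i)
      exact Int.floor_eq_iff.2 ⟨by simpa using this.1.le, by
        simpa using lt_of_le_of_ne this.2 (h i)⟩
    have h1 : ∀ i, x i ≠ ⌊x i⌋ := fun i => by
      rw [h0 i]
      simpa using (hx i (mem_univ i)).1.ne'
    refine (gr_per_int h1).trans (Eventually.of_forall fun y => ?_)
    simp only [h0]
    congr 1
    funext i
    simp
  · push Not at h
    obtain ⟨i, hi⟩ := h
    have h1 : x i = ((1 : ℤ) : ℝ) := by simpa using hi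
    refine (per_zero hc hs h1).trans ?_
    have h2 : x ∉ tsupport ψ := fun h => by
      have := (hs h) i (mem_univ i)
      rw [hi] at this
      exact lt_irrefl _ this.2
    have h3 : (tsupport ψ)ᶜ ∈ 𝓝 x := (isClosed_tsupport ψ).isOpen_compl.mem_nhds h2
    filter_upwards [h3] with y hy
    exact (image_eq_zero_of_notMem_tsupport hy).symm

/-- product with a function of compact support is continuous -/
lemma gr_cont_mul {f ψ : V2 → ℝ} (hψ : Continuous ψ) (hf : ∀ x ∈ tsupport ψ, ContinuousAt f x) :
    Continuous fun x => f x * ψ x := by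
  rw [continuous_iff_continuousAt]
  intro x
  by_cases hx : x ∈ tsupport ψ
  · exact (hf x hx).mul hψ.continuousAt
  · have h3 : (tsupport ψ)ᶜ ∈ 𝓝 x := (isClosed_tsupport ψ).isOpen_compl.mem_nhds hx
    have : (fun x => f x * ψ x) =ᶠ[𝓝 x] fun _ => 0 := by
      filter_upwards [h3] with y hy
      rw [image_eq_zero_of_notMem_tsupport hy, mul_zero]
    exact continuousAt_const.congr this.symm

lemma gr_int_mul {f ψ : V2 → ℝ} (hψ : Continuous ψ) (hc : HasCompactSupport ψ)
    (hf : ∀ x ∈ tsupport ψ, ContinuousAt f x) : Integrable fun x => f x * ψ x :=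
  (gr_cont_mul hψ hf).integrable_of_hasCompactSupport hc.mul_left

/-- integrals over the cube of functions supported in the open square -/
lemma gr_int_cube {f : V2 → ℝ} (hf : ∀ x, x ∉ Osq → f x = 0) :
    ∫ x, f x ∂(cubeMeasure 2) = ∫ x, f x := by
  rw [cubeMeasure]
  refine setIntegral_eq_integral_of_forall_compl_eq_zero fun x hx => hf x fun h => hx ?_
  exact fun i hi => Ioo_subset_Ioc_self (h i hi)

theorem gr : S_GR := by
  intro u G hu _ hu2 hG hw
  have hcc : cc ∈ Osq := fun i _ => by simp only [cc, mem_Ioo]; norm_num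
  set O : Set V2 := Osq \ {cc} with hO
  have hOo : IsOpen O := Osq_open.sdiff isClosed_singleton
  have hOs : O ⊆ Osq := sdiff_subset
  have hdc : ∀ x ∈ O, ContinuousAt (pd 0 u) x := by
    intro x hx
    have h1 := (hu x hx.2).fderiv_right (m := 0) (by norm_num)
    have h2 := h1.continuousAt
    unfold pd
    exact h2.clm_apply continuousAt_const
  have hcube : ∀ x ∈ Osq, x ∈ cube 2 := fun x h i hi => Ioo_subset_Ioc_self (h i hi)
  have hGi : IntegrableOn G (cube 2) := by
    have := hG.integrable (by norm_num)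
    exact this
  have hloc : LocallyIntegrableOn (fun x => G x - pd 0 u x) O volume := by
    apply LocallyIntegrableOn.sub
    · exact (hGi.mono_set fun x hx => hcube x (hOs hx)).locallyIntegrableOn
    · refine ContinuousOn.locallyIntegrableOn (fun x hx => (hdc x hx).continuousWithinAt)
        hOo.measurableSet
  have key : ∀ g : V2 → ℝ, ContDiff ℝ ∞ g → HasCompactSupport g → tsupport g ⊆ O →
      ∫ x, g x • (G x - pd 0 u x) = 0 := by
    intro g hg hgc hgs
    have hgs' : tsupport g ⊆ Osq := hgs.trans hOs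
    have h1 := hw _ (per_SP hg hgc hgs')
    have h2 : ∫ x, u x * pd 0 (fun y => g (frc y)) x ∂(cubeMeasure 2) =
        ∫ x, u x * pd 0 g x := by
      rw [← gr_int_cube]
      · refine integral_congr_ae ?_
        filter_upwards [ae_cube 2] with x hx
        simp only [pd, (per_eq hgc hgs' hx).fderiv_eq]
      · intro x hx
        have : x ∉ tsupport g := fun h => hx (hgs' h)
        have h3 : g =ᶠ[𝓝 x] fun _ => 0 := by
          have h3 : (tsupport g)ᶜ ∈ 𝓝 x := (isClosed_tsupport g).isOpen_compl.mem_nhds this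
          filter_upwards [h3] with y hy
          exact (image_eq_zero_of_notMem_tsupport hy)
        simp [pd, h3.fderiv_eq]
    have h3 : ∫ x, G x * g (frc x) ∂(cubeMeasure 2) = ∫ x, G x * g x := by
      rw [← gr_int_cube]
      · refine integral_congr_ae ?_
        filter_upwards [ae_cube 2] with x hx
        have := (per_eq hgc hgs' hx).self_of_nhds
        simp only at this
        rw [this]
      · intro x hx
        have : x ∉ tsupport g := fun h => hx (hgs' h)
        rw [image_eq_zero_of_notMem_tsupport this, mul_zero]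
    have hdu : ∀ x ∈ tsupport g, DifferentiableAt ℝ u x := fun x hx =>
      (hu x (hgs hx).2).differentiableAt (by norm_num)
    have hgd : Continuous (fun x => fderiv ℝ g x (Pi.single 0 1)) :=
      (hg.continuous_fderiv (by simp)).clm_apply continuous_const
    have hts : tsupport (fun x => fderiv ℝ g x (Pi.single 0 1)) ⊆ tsupport g := by
      refine closure_minimal ?_ (isClosed_tsupport g)
      intro x hx
      by_contra h
      have h3 : g =ᶠ[𝓝 x] fun _ => 0 := by
        have h3 : (tsupport g)ᶜ ∈ 𝓝 x := (isClosed_tsupport g).isOpen_compl.mem_nhds h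
        filter_upwards [h3] with y hy
        exact (image_eq_zero_of_notMem_tsupport hy)
      exact hx (by simp [h3.fderiv_eq])
    have hgdc : HasCompactSupport (fun x => fderiv ℝ g x (Pi.single 0 1)) :=
      hgc.isCompact.of_isClosed_subset (isClosed_tsupport _) hts
    have hi1 : Integrable fun x => pd 0 u x * g x :=
      gr_int_mul hg.continuous hgc fun x hx => hdc x (hgs hx)
    have hi2 : Integrable fun x => u x * fderiv ℝ g x (Pi.single 0 1) :=
      gr_int_mul hgd hgdc fun x hx => (hdu x (hts hx)).continuousAt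
    have hi3 : Integrable fun x => u x * g x :=
      gr_int_mul hg.continuous hgc fun x hx => (hdu x hx).continuousAt
    have h4 := integral_mul_fderiv_eq_neg_fderiv_mul_of_integrable (μ := (volume : Measure V2))
      (f := u) (g := g) (v := Pi.single 0 1) hi1 hi2 hi3 hdu
      (fun x _ => (hg.differentiable (by simp)).differentiableAt)
    have h5 : Integrable fun x => G x * g x := by
      have h6 : Integrable (fun x => G x * g x) (volume.restrict (cube 2)) := by
        refine Integrable.mul_bdd (c := sSup (range fun x => ‖g x‖)) hGi hg.continuous.aestronglyMeasurable ?_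
        refine Eventually.of_forall fun x => ?_
        refine le_csSup ?_ ⟨x, rfl⟩
        exact (hg.continuous.norm).bddAbove_range_of_hasCompactSupport hgc.norm
      rw [← integrableOn_univ]
      have h7 : IntegrableOn (fun x => G x * g x) (cube 2) := h6
      refine (integrableOn_iff_integrable_of_support_subset ?_ |>.1 h7).integrableOn
      intro x hx
      refine hcube x (hgs' ?_)
      by_contra h
      exact hx (by simp [image_eq_zero_of_notMem_tsupport h])
    have h6 : ∫ x, G x * g x = ∫ x, pd 0 u x * g x := by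
      have h7 : ∫ x, u x * pd 0 g x = - ∫ x, pd 0 u x * g x := h4
      rw [h2, h3, h7] at h1
      linarith
    have h8 : ∫ x, g x • (G x - pd 0 u x) = ∫ x, (G x * g x - pd 0 u x * g x) := by
      congr 1
      funext x
      simp only [smul_eq_mul]
      ring
    rw [h8, integral_sub h5 hi1, h6, sub_self]
  have hae := hOo.ae_eq_zero_of_integral_contDiff_smul_eq_zero hloc key
  have hnull : ∀ᵐ x ∂(cubeMeasure 2), x ∈ O := by
    have e1 : (Set.pi univ fun _ : Fin 2 => Ioo (0 : ℝ) 1) =ᵐ[volume]
        (Set.pi univ fun _ : Fin 2 => Icc (0 : ℝ) 1) := by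
      exact Measure.univ_pi_Ioo_ae_eq_Icc (f := fun _ : Fin 2 => (0 : ℝ)) (g := fun _ => 1)
        (μ := fun _ => volume) |>.trans (by simp [Set.pi_univ_Icc])
    have e2 : (Set.pi univ fun _ : Fin 2 => Ioc (0 : ℝ) 1) =ᵐ[volume]
        (Set.pi univ fun _ : Fin 2 => Icc (0 : ℝ) 1) := by
      exact Measure.univ_pi_Ioc_ae_eq_Icc (f := fun _ : Fin 2 => (0 : ℝ)) (g := fun _ => 1)
        (μ := fun _ => volume) |>.trans (by simp [Set.pi_univ_Icc])
    have e3 := e2.trans e1.symm
    have h9 : ∀ᵐ x : V2, x ∈ cube 2 → x ∈ Osq := by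
      filter_upwards [e3] with x hx
      intro h
      have : (x ∈ Set.pi univ fun _ : Fin 2 => Ioc (0 : ℝ) 1) = (x ∈ Set.pi univ fun _ : Fin 2 => Ioo (0 : ℝ) 1) := hx
      rw [Osq, ← this]
      exact h
    have h10 : ∀ᵐ x : V2, x ≠ cc := by
      simp [ae_iff]
    rw [cubeMeasure, ae_restrict_iff' (cube_meas 2)]
    filter_upwards [h9, h10] with x hx1 hx2 hx
    exact ⟨hx1 hx, hx2⟩
  have hfin : G =ᵐ[cubeMeasure 2] pd 0 u := by
    have hae' : ∀ᵐ x ∂(cubeMeasure 2), x ∈ O → G x - pd 0 u x = 0 := ae_restrict_of_ae hae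
    filter_upwards [hae', hnull] with x h1 h2
    linarith [h1 h2]
  exact hG.ae_eq hfin

end Pool.Agent.R213.NP
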