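import Pool.Agent.R213.NP.Asm

open MeasureTheory Set Filter Topology
open scoped ContDiff ENNReal

namespace Pool.Agent.R213.NP

open Pool.Agent.R212

namespace L2

variable {m m1 m2 P P1 n : ℝ → ℝ}

/-- the radial majorant of the squares -/
noncomputable def H (n : ℝ → ℝ) (r : ℝ) : ℝ :=
  (Ioo 0 (Real.exp (-1))).indicator (fun r => (n (-Real.log r - 9 / 10) / r) ^ 2) r

lemma H_nonneg (n : ℝ → ℝ) (r : ℝ) : 0 ≤ H n r := by
  unfold H
  exact Set.indicator_nonneg (fun _ _ => sq_nonneg _) _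

lemma image_exp : (fun t : ℝ => Real.exp (-t)) '' (Ioi 1) = Ioo 0 (Real.exp (-1)) := by
  ext x
  constructor
  · rintro ⟨t, ht, rfl⟩
    exact ⟨Real.exp_pos _, Real.exp_lt_exp.2 (by simpa using ht)⟩
  · rintro ⟨h0, h1⟩
    refine ⟨-Real.log x, ?_, by simp [Real.exp_log h0]⟩
    have : Real.log x < -1 := (Real.log_lt_iff_lt_exp h0).2 h1
    show (1 : ℝ) < -Real.log x
    linarith

lemma H_int (h : Profile m m1 m2 P P1 n) : Integrable (fun y : V2 => H n ‖y‖) volume := by
  rw [integrable_fun_norm_addHaar (volume : Measure V2) (f := H n)]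
  have hfr : Module.finrank ℝ V2 = 2 := by simp
  rw [hfr]
  have e1 : (fun y : ℝ => y ^ (2 - 1) • H n y) =
      (Ioo 0 (Real.exp (-1))).indicator (fun r => n (-Real.log r - 9 / 10) ^ 2 / r) := by
    ext y
    unfold H
    by_cases hy : y ∈ Ioo 0 (Real.exp (-1))
    · rw [Set.indicator_of_mem hy, Set.indicator_of_mem hy]
      have := hy.1.ne'
      simp only [smul_eq_mul, Nat.add_one_sub_one, pow_one]
      field_simp
    · rw [Set.indicator_of_notMem hy, Set.indicator_of_notMem hy]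
      simp
  rw [e1]
  have hI : IntegrableOn (fun r : ℝ => n (-Real.log r - 9 / 10) ^ 2 / r)
      (Ioo 0 (Real.exp (-1))) := by
    rw [← image_exp]
    rw [integrableOn_image_iff_integrableOn_abs_deriv_smul (f := fun t : ℝ => Real.exp (-t))
      (f' := fun t => -Real.exp (-t)) measurableSet_Ioi]
    · have e2 : EqOn (fun t : ℝ => |-Real.exp (-t)| •
          (n (-Real.log (Real.exp (-t)) - 9 / 10) ^ 2 / Real.exp (-t)))
          (fun t => n (t - 9 / 10) ^ 2) (Ioi 1) := by
        intro t _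
        have := (Real.exp_pos (-t)).ne'
        simp only [smul_eq_mul, abs_neg, abs_of_pos (Real.exp_pos (-t)), Real.log_exp, neg_neg]
        field_simp
      rw [integrableOn_congr_fun e2 measurableSet_Ioi]
      have h1 := h.nint
      have h2 := (MeasurePreserving.integrableOn_comp_preimage
        (measurePreserving_sub_right (volume : Measure ℝ) (9 / 10 : ℝ))
        (measurableEmbedding_subRight (9 / 10 : ℝ)) (f := fun t => n t ^ 2) (s := Ioi 0)).2 h1
      refine h2.mono_set ?_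
      intro t ht
      show (0 : ℝ) < t - 9 / 10
      have : (1 : ℝ) < t := ht
      linarith
    · intro t _
      have h1 : HasDerivAt (fun t : ℝ => Real.exp (-t)) (Real.exp (-t) * (-1)) t :=
        (hasDerivAt_neg t).exp
      have h2 := h1.hasDerivWithinAt (s := Ioi 1)
      simpa using h2
    · intro a _ b _ hab
      have := Real.exp_injective hab
      linarith
  exact (hI.integrable_indicator measurableSet_Ioo).integrableOn

lemma norm_sq_le_D (y : V2) : ‖y‖ ^ 2 ≤ D y := by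
  have h1 : ‖y‖ ≤ √(D y) := by
    rw [pi_norm_le_iff_of_nonneg (Real.sqrt_nonneg _)]
    intro i
    rw [Real.norm_eq_abs]
    refine Real.abs_le_sqrt ?_
    unfold D
    fin_cases i
    · simp only [Fin.zero_eta, Fin.isValue]
      nlinarith [sq_nonneg (y 1)]
    · simp only [Fin.mk_one, Fin.isValue]
      nlinarith [sq_nonneg (y 0)]
  have h2 : 0 ≤ D y := by unfold D; positivity
  calc ‖y‖ ^ 2 ≤ √(D y) ^ 2 := by gcongr
    _ = D y := Real.sq_sqrt h2

lemma D_le (y : V2) : D y ≤ 2 * ‖y‖ ^ 2 := by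
  unfold D
  have h : ∀ i, y i ^ 2 ≤ ‖y‖ ^ 2 := by
    intro i
    have := norm_le_pi_norm y i
    rw [Real.norm_eq_abs] at this
    rw [← sq_abs]
    gcongr
  linarith [h 0, h 1]

lemma exp_two : Real.exp 1 ^ 2 < 8 := by
  have h1 := Real.exp_one_lt_d9
  have h2 := Real.exp_pos 1
  nlinarith

lemma norm_lt {y : V2} (h : D y < 1 / 10) : ‖y‖ < Real.exp (-1) := by
  have h1 := norm_sq_le_D y
  by_contra hc
  push Not at hc
  have h3 : Real.exp (-1) ^ 2 ≤ ‖y‖ ^ 2 := by gcongr
  have h4 : Real.exp (-1) * Real.exp 1 = 1 := by rw [← Real.exp_add]; simp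
  have h5 := exp_two
  have h6 := Real.exp_pos (-1)
  have h7 := Real.exp_pos 1
  have h8 : Real.exp (-1) ^ 2 * Real.exp 1 ^ 2 = 1 := by rw [← mul_pow, h4, one_pow]
  nlinarith [sq_nonneg (Real.exp (-1))]

/-- the bound of the profile -/
lemma n_le (h : Profile m m1 m2 P P1 n) {y : V2} (hy : y ≠ 0) (hD : D y < 1 / 10) :
    n (Tt y) ≤ n (-Real.log ‖y‖ - 9 / 10) := by
  have hs : 0 < ‖y‖ := norm_pos_iff.2 hy
  have hDp := D_pos hy
  have h1 : -Real.log ‖y‖ - 9 / 10 ≤ Tt y := by
    have h2 : Real.log (D y) ≤ Real.log 2 + 2 * Real.log ‖y‖ := by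
      have := Real.log_le_log hDp (D_le y)
      rw [Real.log_mul (by norm_num) (by positivity), Real.log_pow] at this
      simpa using this
    have h3 := Real.log_two_lt_d9
    have h4 : (y 0 ^ 2 - y 1 ^ 2) / (2 * D y) ≤ 1 / 2 := by
      rw [div_le_iff₀ (by positivity)]
      unfold D
      nlinarith [sq_nonneg (y 1)]
    unfold Tt
    linarith
  have h5 : 0 < -Real.log ‖y‖ - 9 / 10 := by
    have := (Real.log_lt_iff_lt_exp hs).2 (norm_lt hD)
    linarith
  exact h.nanti h5 (lt_of_lt_of_le h5 h1) h1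

lemma n_nonneg (h : Profile m m1 m2 P P1 n) {t : ℝ} (ht : 0 < t) : 0 ≤ n t :=
  (h.mpos t ht).le.trans (h.mn t ht)

/-- a function bounded by `C n / √D` near the centre -/
lemma sq_le_H (h : Profile m m1 m2 P P1 n) {y : V2} (hy : y ≠ 0) (hD : D y < 1 / 10) {C v : ℝ}
    (hC : 0 ≤ C) (hv : |v| ≤ C * (n (Tt y) / √(D y))) : v ^ 2 ≤ C ^ 2 * H n ‖y‖ := by
  have hs : 0 < ‖y‖ := norm_pos_iff.2 hy
  have hDp := D_pos hy
  have h1 := n_le h hy hD
  have h0 := n_nonneg h (Tt_pos hy hD)
  have h2 : ‖y‖ ≤ √(D y) := by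
    rw [Real.le_sqrt hs.le hDp.le]
    exact norm_sq_le_D y
  have h3 : H n ‖y‖ = (n (-Real.log ‖y‖ - 9 / 10) / ‖y‖) ^ 2 := by
    unfold H
    rw [Set.indicator_of_mem]
    exact ⟨hs, norm_lt hD⟩
  rw [h3, ← mul_pow, ← sq_abs v]
  refine pow_le_pow_left₀ (abs_nonneg _) (hv.trans ?_) 2
  refine mul_le_mul_of_nonneg_left ?_ hC
  exact div_le_div₀ (h0.trans h1) h1 hs h2

lemma U_bound (h : Profile m m1 m2 P P1 n) {y : V2} (hy : y ≠ 0) (hD : D y < 1 / 10) :
    |U m y| ≤ n (Tt y) / √(D y) := by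
  have hDp := D_pos hy
  have hT := Tt_pos hy hD
  have h1 : |y 0| ≤ √(D y) := by
    refine Real.abs_le_sqrt ?_
    unfold D
    nlinarith [sq_nonneg (y 1)]
  have hs : 0 < √(D y) := Real.sqrt_pos.2 hDp
  have hss : √(D y) * √(D y) = D y := Real.mul_self_sqrt hDp.le
  unfold U
  rw [abs_mul, abs_div, abs_of_pos hDp, abs_of_pos (h.mpos _ hT)]
  have h2 : |y 0| / D y ≤ 1 / √(D y) := by
    rw [div_le_div_iff₀ hDp hs]
    nlinarith
  calc |y 0| / D y * m (Tt y) ≤ 1 / √(D y) * n (Tt y) :=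
        mul_le_mul h2 (h.mn _ hT) (h.mpos _ hT).le (by positivity)
    _ = n (Tt y) / √(D y) := by ring

lemma Psi_bound (h : Profile m m1 m2 P P1 n) {y : V2} (hy : y ≠ 0) (hD : D y < 1 / 10) :
    |Psi P y| ≤ n (Tt y) / √(D y) := by
  have hDp := D_pos hy
  have hT := Tt_pos hy hD
  have hs : 0 < √(D y) := Real.sqrt_pos.2 hDp
  have hs1 : √(D y) ≤ 1 := by
    rw [Real.sqrt_le_one]
    linarith
  have h1 : |2 * y 0 * y 1 / D y| ≤ 1 := by
    rw [abs_div, abs_of_pos hDp, div_le_one hDp, abs_le]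
    unfold D
    constructor
    · nlinarith [sq_nonneg (y 0 + y 1)]
    · nlinarith [sq_nonneg (y 0 - y 1)]
  have h0 := n_nonneg h hT
  unfold Psi
  rw [abs_mul]
  calc |2 * y 0 * y 1 / D y| * |P (Tt y)| ≤ 1 * n (Tt y) :=
        mul_le_mul h1 (h.Pn _ hT) (abs_nonneg _) zero_le_one
    _ = n (Tt y) := one_mul _
    _ ≤ n (Tt y) / √(D y) := by
        rw [le_div_iff₀ hs]
        nlinarith

lemma cut_abs (a s : ℝ) : |cut a s| ≤ 1 := by
  unfold cut
  rw [abs_of_nonneg (Real.smoothTransition.nonneg _)]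
  exact Real.smoothTransition.le_one _

/-- the cutoff, as a function in the plane -/
noncomputable def kk (x : V2) : ℝ := cut (3 / 50) (D (x - cc))

lemma kk_smooth : ContDiff ℝ ∞ kk := (cut_smooth _).comp D_sub_smooth

lemma kk_supp : HasCompactSupport kk := by
  refine HasCompactSupport.intro box_compact fun x hx => ?_
  unfold kk
  by_contra hc
  have h1 : D (x - cc) < 2 / 25 := by
    by_contra h2
    push Not at h2
    exact hc (cut_zero (by linarith))
  apply hx
  intro i _
  have := coord_of_D (x := x) (by linarith) i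
  exact this

lemma kk_bound : ∃ C : ℝ, 0 ≤ C ∧ ∀ i x, |pd i kk x| ≤ C := by
  have h1 : Continuous (fderiv ℝ kk) := kk_smooth.continuous_fderiv (by simp)
  have h2 : HasCompactSupport (fderiv ℝ kk) := kk_supp.fderiv ℝ
  obtain ⟨C, hC⟩ := h1.bounded_above_of_compact_support h2
  refine ⟨C, (norm_nonneg _).trans (hC 0), fun i x => ?_⟩
  unfold pd
  have h3 := (fderiv ℝ kk x).le_opNorm (Pi.single i 1)
  have h4 : ‖(Pi.single i (1 : ℝ) : V2)‖ = 1 := by
    rw [Pi.norm_single, norm_one]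
  rw [h4, mul_one] at h3
  exact h3.trans (hC x)

lemma ae_ne : ∀ᵐ x : V2, x ≠ cc := by
  have : (volume : Measure V2) {cc} = 0 := measure_singleton _
  rw [ae_iff]
  simp

lemma meas_of {f : V2 → ℝ} (h : ∀ x, x ≠ cc → ContinuousAt f x) :
    AEStronglyMeasurable f volume := by
  have h1 : ContinuousOn f ({cc}ᶜ : Set V2) := fun x hx => (h x hx).continuousWithinAt
  have h2 := h1.aestronglyMeasurable (μ := volume) (measurableSet_singleton cc).compl
  rwa [restrict_compl_singleton] at h2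

lemma memLp_of (h : Profile m m1 m2 P P1 n) {f : V2 → ℝ} {C : ℝ} (hC : 0 ≤ C)
    (hf : ∀ x, x ≠ cc → ContinuousAt f x)
    (hb : ∀ x, x ≠ cc → D (x - cc) < 1 / 10 →
      |f x| ≤ C * (n (Tt (x - cc)) / √(D (x - cc))))
    (hz : ∀ x, 2 / 25 < D (x - cc) → f x = 0) : MemLp f 2 volume := by
  have hm := meas_of hf
  rw [memLp_two_iff_integrable_sq hm]
  have h1 : Integrable (fun x : V2 => C ^ 2 * H n ‖x - cc‖) volume :=
    ((H_int h).comp_sub_right cc).const_mul _
  refine Integrable.mono' h1 (hm.pow 2) ?_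
  filter_upwards [ae_ne] with x hx
  rw [Real.norm_eq_abs, abs_of_nonneg (sq_nonneg _)]
  by_cases hD : D (x - cc) < 1 / 10
  · exact sq_le_H h (sub_ne hx) hD hC (hb x hx hD)
  · rw [hz x (by linarith [not_lt.1 hD])]
    have := mul_nonneg (sq_nonneg C) (H_nonneg n ‖x - cc‖)
    simpa using this

end L2

open L2 in
/-- square integrability -/
theorem l2 (hG : S_GRAD) (hP : S_PDE) : S_L2 := by
  intro m m1 m2 P P1 n h
  constructor
  · refine memLp_of h zero_le_one (fun x hx => (u1_smooth h hP hx).continuousAt) ?_ ?_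
    · intro x hx hD
      unfold u1
      rw [abs_mul, one_mul]
      calc |cut (1 / 50) (D (x - cc))| * |U m (x - cc)| ≤ 1 * |U m (x - cc)| :=
            mul_le_mul_of_nonneg_right (cut_abs _ _) (abs_nonneg _)
        _ = |U m (x - cc)| := one_mul _
        _ ≤ _ := U_bound h (sub_ne hx) hD
    · intro x hx
      exact u1_zero (by linarith)
  · intro i
    obtain ⟨C, hC0, hC⟩ := kk_bound
    refine memLp_of (C := 20 + C) h (by linarith)
      (fun x hx => pd_continuousAt ((psi_smooth h hP hx).of_le (by norm_num))) ?_ ?_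
    · intro x hx hD
      have hy := sub_ne hx
      have hT := Tt_pos hy hD
      have hPs := (hP m m1 m2 P P1 n h (x - cc) hy hT).2.1
      have hd1 : DifferentiableAt ℝ kk x := (kk_smooth.differentiable (by simp)) x
      have hd2 : DifferentiableAt ℝ (fun x : V2 => Psi P (x - cc)) x := by
        have h1 : DifferentiableAt ℝ (Psi P) (x - cc) := hPs.differentiableAt (by norm_num)
        exact DifferentiableAt.comp x h1 (by fun_prop : DifferentiableAt ℝ (fun x : V2 => x - cc) x)
      have h1 : pd i (psi P) x = kk x * pd i (Psi P) (x - cc) + pd i kk x * Psi P (x - cc) := by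
        have h2 := pd_mul i hd1 hd2
        rw [pd_translate] at h2
        exact h2
      rw [h1]
      have h3 := (hG m m1 m2 P P1 n h (x - cc) hy hT).1 i
      have h4 := Psi_bound h hy hD
      have h5 : 0 ≤ n (Tt (x - cc)) / √(D (x - cc)) :=
        div_nonneg (n_nonneg h hT) (Real.sqrt_nonneg _)
      have h6 : |kk x * pd i (Psi P) (x - cc)| ≤ 20 * (n (Tt (x - cc)) / √(D (x - cc))) := by
        rw [abs_mul]
        calc |kk x| * |pd i (Psi P) (x - cc)| ≤ 1 * (20 * n (Tt (x - cc)) / √(D (x - cc))) :=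
              mul_le_mul (cut_abs _ _) h3 (abs_nonneg _) zero_le_one
          _ = _ := by ring
      have h7 : |pd i kk x * Psi P (x - cc)| ≤ C * (n (Tt (x - cc)) / √(D (x - cc))) := by
        rw [abs_mul]
        exact mul_le_mul (hC i x) h4 (abs_nonneg _) hC0
      calc |kk x * pd i (Psi P) (x - cc) + pd i kk x * Psi P (x - cc)|
          ≤ |kk x * pd i (Psi P) (x - cc)| + |pd i kk x * Psi P (x - cc)| := abs_add_le _ _
        _ ≤ (20 + C) * (n (Tt (x - cc)) / √(D (x - cc))) := by linarith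
    · intro x hx
      exact pd_psi_zero hx

end Pool.Agent.R213.NP
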