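import Pool.Agent.R213.NP.Stm

open MeasureTheory Set Filter Topology
open scoped ContDiff ENNReal

namespace Pool.Agent.R213.NP

open Pool.Agent.R212

/-- lower corner of the box -/
noncomputable def ni_a (k : ℕ) : V2 := ![1 / 2 + (1 / 2) ^ (k + 1), 1 / 2 - (1 / 2) ^ (k + 2)]
/-- upper corner of the box -/
noncomputable def ni_b (k : ℕ) : V2 := ![1 / 2 + (1 / 2) ^ k, 1 / 2 + (1 / 2) ^ (k + 2)]

lemma ni_vol (k : ℕ) : volume.real (Icc (ni_a k) (ni_b k)) = (1 / 4) ^ k / 4 := by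
  rw [Measure.real, Real.volume_Icc_pi, Fin.prod_univ_two, ENNReal.toReal_mul]
  have h0 : ni_b k 0 - ni_a k 0 = (1 / 2) ^ k / 2 := by
    simp [ni_a, ni_b]
    ring
  have h1 : ni_b k 1 - ni_a k 1 = (1 / 2) ^ k / 2 := by
    simp [ni_a, ni_b]
    ring
  rw [h0, h1, ENNReal.toReal_ofReal (by positivity)]
  have : ((1:ℝ) / 4) ^ k = (1 / 2) ^ k * (1 / 2) ^ k := by rw [← mul_pow]; norm_num
  rw [this]
  ring

lemma ni_mem {k : ℕ} {x : V2} (hx : x ∈ Icc (ni_a k) (ni_b k)) :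
    (1 / 2) ^ (k + 1) ≤ (x - cc) 0 ∧ (x - cc) 0 ≤ (1 / 2) ^ k ∧
      -(1 / 2) ^ (k + 2) ≤ (x - cc) 1 ∧ (x - cc) 1 ≤ (1 / 2) ^ (k + 2) := by
  obtain ⟨h1, h2⟩ := hx
  have a0 := h1 0
  have a1 := h1 1
  have b0 := h2 0
  have b1 := h2 1
  simp only [ni_a, ni_b, Matrix.cons_val_zero, Matrix.cons_val_one] at a0 a1 b0 b1
  simp only [Pi.sub_apply, cc]
  refine ⟨?_, ?_, ?_, ?_⟩ <;> linarith

lemma ni_small {k : ℕ} (hk : 4 ≤ k) : ((1:ℝ) / 2) ^ k ≤ 1 / 16 := by
  calc ((1:ℝ) / 2) ^ k ≤ (1 / 2) ^ 4 := pow_le_pow_of_le_one (by norm_num) (by norm_num) hk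
    _ = 1 / 16 := by norm_num

lemma ni_cube {k : ℕ} (hk : 4 ≤ k) : Icc (ni_a k) (ni_b k) ⊆ cube 2 := by
  intro x hx i _
  obtain ⟨h1, h2, h3, h4⟩ := ni_mem hx
  have hs := ni_small hk
  have h0 : (0:ℝ) < (1 / 2) ^ k := by positivity
  simp only [Pi.sub_apply, cc, pow_succ] at h1 h2 h3 h4
  rw [mem_Ioc]
  fin_cases i
  · simp only [Fin.zero_eta]
    constructor <;> linarith
  · simp only [Fin.mk_one]
    constructor <;> linarith

lemma ni_D {k : ℕ} {x : V2} (hx : x ∈ Icc (ni_a k) (ni_b k)) :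
    (1 / 4) ^ (k + 1) ≤ D (x - cc) ∧ D (x - cc) ≤ 17 / 16 * (1 / 4) ^ k ∧
      4 * (x - cc) 1 ^ 2 ≤ (x - cc) 0 ^ 2 := by
  obtain ⟨h1, h2, h3, h4⟩ := ni_mem hx
  have e : ((1:ℝ) / 4) ^ k = (1 / 2) ^ k * (1 / 2) ^ k := by rw [← mul_pow]; norm_num
  have h0 : (0:ℝ) < (1 / 2) ^ k := by positivity
  unfold D
  rw [pow_succ, e]
  simp only [pow_succ] at h1 h2 h3 h4
  generalize ((1:ℝ) / 2) ^ k = r at *
  generalize (x - cc) 0 = a at *
  generalize (x - cc) 1 = b at *
  have hb : b ^ 2 ≤ (r / 4) ^ 2 := by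
    apply sq_le_sq'
    · linarith
    · linarith
  have ha : (r / 2) ^ 2 ≤ a ^ 2 := pow_le_pow_left₀ (by linarith) (by linarith) 2
  have ha' : a ^ 2 ≤ r ^ 2 := pow_le_pow_left₀ (by linarith) (by linarith) 2
  refine ⟨?_, ?_, ?_⟩ <;> nlinarith [sq_nonneg b]

theorem ni (hG : S_GRAD) : S_NI := by
  intro m m1 m2 P P1 n h hmem
  have hint : Integrable (fun x => pd 0 (u1 m) x ^ 2) (cubeMeasure 2) := hmem.integrable_sq
  -- lower bound of the profile
  have hmono : MonotoneOn (fun t => m t * Real.exp (t / 4)) (Ioi 0) := by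
    have hd : ∀ t : ℝ, 0 < t → HasDerivAt (fun t => m t * Real.exp (t / 4))
        ((m1 t + m t / 4) * Real.exp (t / 4)) t := by
      intro t ht
      have h1 := (h.dm t ht).mul (((hasDerivAt_id t).div_const 4).exp)
      refine h1.congr_deriv ?_
      simp only [id]
      ring
    apply monotoneOn_of_deriv_nonneg (convex_Ioi 0)
    · exact fun t ht => (hd t ht).continuousAt.continuousWithinAt
    · rw [interior_Ioi]
      exact fun t ht => (hd t ht).differentiableAt.differentiableWithinAt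
    · rw [interior_Ioi]
      intro t ht
      rw [(hd t ht).deriv]
      have := h.m1ge t ht
      apply mul_nonneg _ (Real.exp_pos _).le
      linarith
  have m1pos := h.mpos 1 one_pos
  have hlow : ∀ t : ℝ, 1 ≤ t → m 1 ^ 2 * Real.exp (-t) ≤ m t ^ 2 := by
    intro t ht
    have h1 := hmono (mem_Ioi.2 one_pos) (mem_Ioi.2 (lt_of_lt_of_le one_pos ht)) ht
    simp only at h1
    have h2 : m 1 ≤ m t * Real.exp (t / 4) := by
      refine le_trans ?_ h1
      have : 1 ≤ Real.exp ((1:ℝ) / 4) := Real.one_le_exp (by norm_num)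
      nlinarith
    have h3 : m 1 ^ 2 ≤ (m t * Real.exp (t / 4)) ^ 2 := pow_le_pow_left₀ m1pos.le h2 2
    have h4 : (m t * Real.exp (t / 4)) ^ 2 = m t ^ 2 * Real.exp (t / 2) := by
      rw [mul_pow, ← Real.exp_nat_mul]
      congr 2
      push_cast
      ring
    rw [h4] at h3
    have h5 : m 1 ^ 2 * Real.exp (-t) ≤ m t ^ 2 * Real.exp (t / 2) * Real.exp (-t) :=
      mul_le_mul_of_nonneg_right h3 (Real.exp_pos _).le
    have h6 : m t ^ 2 * Real.exp (t / 2) * Real.exp (-t) = m t ^ 2 * Real.exp (-t / 2) := by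
      rw [mul_assoc, ← Real.exp_add]
      congr 2
      ring
    rw [h6] at h5
    have h7 : Real.exp (-t / 2) ≤ 1 := Real.exp_le_one_iff.2 (by linarith)
    nlinarith [sq_nonneg (m t)]
  -- the derivative on the boxes
  have hbox : ∀ k : ℕ, 4 ≤ k → ∀ x ∈ Icc (ni_a k) (ni_b k),
      m 1 ^ 2 * (1 / 2) ^ (k + 1) * 16 ^ k / 64 ≤ pd 0 (u1 m) x ^ 2 := by
    intro k hk x hx
    obtain ⟨d1, d2, d3⟩ := ni_D hx
    set y := x - cc with hy
    have hD0 : 0 < D y := lt_of_lt_of_le (by positivity) d1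
    have hs := ni_small hk
    have hr0 : (0:ℝ) < (1 / 2) ^ k := by positivity
    have e4 : ((1:ℝ) / 4) ^ k = (1 / 2) ^ k * (1 / 2) ^ k := by rw [← mul_pow]; norm_num
    have hDs : D y < 1 / 50 := by
      refine lt_of_le_of_lt d2 ?_
      rw [e4]
      nlinarith
    have hy0 : y ≠ 0 := by
      intro h0
      rw [h0] at hD0
      simp [D] at hD0
    -- u1 = U near x
    have hpd : pd 0 (u1 m) x = pd 0 (U m) y := by
      have h1 : u1 m =ᶠ[𝓝 x] fun z => U m (z - cc) := by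
        have hc : ContinuousAt (fun z : V2 => D (z - cc)) x := by
          unfold D
          fun_prop
        have h2 : ∀ᶠ z in 𝓝 x, D (z - cc) < 1 / 50 := hc.eventually (gt_mem_nhds hDs)
        filter_upwards [h2] with z hz
        unfold u1 cut
        rw [Real.smoothTransition.one_of_one_le (by linarith), one_mul]
      unfold pd
      rw [h1.fderiv_eq, fderiv_comp_sub]
    -- bounds of T
    have hq : 0 ≤ (y 0 ^ 2 - y 1 ^ 2) / (2 * D y) := by
      apply div_nonneg _ (by positivity)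
      nlinarith [sq_nonneg (y 1)]
    have hq' : (y 0 ^ 2 - y 1 ^ 2) / (2 * D y) ≤ 1 / 2 := by
      rw [div_le_iff₀ (by positivity)]
      unfold D
      nlinarith [sq_nonneg (y 1)]
    have hTle : Tt y ≤ (k + 1) * Real.log 2 := by
      unfold Tt
      have h1 : Real.log ((1 / 4) ^ (k + 1)) ≤ Real.log (D y) :=
        Real.log_le_log (by positivity) d1
      have h2 : Real.log (((1:ℝ) / 4) ^ (k + 1)) = -(2 * ((k + 1) * Real.log 2)) := by
        rw [Real.log_pow, one_div, Real.log_inv, show (4:ℝ) = 2 ^ 2 by norm_num, Real.log_pow]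
        push_cast
        ring
      rw [h2] at h1
      linarith
    have hTge : 1 ≤ Tt y := by
      unfold Tt
      have h1 : Real.log (D y) ≤ Real.log (1 / 50) := Real.log_le_log hD0 hDs.le
      have h2 : Real.log ((1:ℝ) / 50) ≤ -3 := by
        rw [Real.log_le_iff_le_exp (by norm_num), Real.exp_neg, one_div]
        apply inv_anti₀ (Real.exp_pos _)
        have h3 : Real.exp 3 = Real.exp 1 ^ 3 := by
          rw [← Real.exp_nat_mul]; norm_num
        have h4 := Real.exp_one_lt_d9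
        have h5 := Real.exp_pos 1
        rw [h3]
        calc Real.exp 1 ^ 3 ≤ 2.7182818286 ^ 3 := pow_le_pow_left₀ h5.le h4.le 3
          _ ≤ 50 := by norm_num
      linarith
    have hg := (hG m m1 m2 P P1 n h y hy0 (by linarith)).2 d3
    have hm2 := hlow (Tt y) hTge
    have hexp : (1 / 2 : ℝ) ^ (k + 1) ≤ Real.exp (-Tt y) := by
      have h1 : (1 / 2 : ℝ) ^ (k + 1) = Real.exp (-((k + 1) * Real.log 2)) := by
        rw [Real.exp_neg, mul_comm, ← Nat.cast_succ, Real.exp_mul, Real.exp_log (by norm_num),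
          Real.rpow_natCast]
        rw [one_div, inv_pow]
      rw [h1]
      apply Real.exp_le_exp.2
      linarith
    have hmp := h.mpos (Tt y) (by linarith)
    have h1 : (m (Tt y) / (4 * D y)) ^ 2 ≤ (-pd 0 (U m) y) ^ 2 :=
      pow_le_pow_left₀ (by positivity) hg 2
    rw [neg_sq] at h1
    rw [hpd]
    refine le_trans ?_ h1
    have h2 : D y ^ 2 ≤ (2 * (1 / 4) ^ k) ^ 2 := by
      apply pow_le_pow_left₀ hD0.le
      have : (0:ℝ) < (1 / 4) ^ k := by positivity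
      linarith
    rw [div_pow (m (Tt y)), div_le_div_iff₀ (by norm_num) (by positivity)]
    have h3 : m 1 ^ 2 * (1 / 2) ^ (k + 1) ≤ m (Tt y) ^ 2 := by
      refine le_trans ?_ hm2
      exact mul_le_mul_of_nonneg_left hexp (sq_nonneg _)
    have h4 : (16:ℝ) ^ k * (2 * (1 / 4) ^ k) ^ 2 = 4 := by
      have : (16:ℝ) ^ k * ((1 / 4) ^ k * (1 / 4) ^ k) = 1 := by
        rw [← mul_pow, ← mul_pow]
        norm_num
      calc (16:ℝ) ^ k * (2 * (1 / 4) ^ k) ^ 2 = 4 * (16 ^ k * ((1 / 4) ^ k * (1 / 4) ^ k)) := by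
            ring
        _ = 4 := by rw [this]; ring
    have h5 : (16:ℝ) ^ k * D y ^ 2 ≤ 4 := by
      rw [← h4]
      exact mul_le_mul_of_nonneg_left h2 (by positivity)
    calc m 1 ^ 2 * (1 / 2) ^ (k + 1) * 16 ^ k * (4 * D y) ^ 2 =
          16 * (m 1 ^ 2 * (1 / 2) ^ (k + 1)) * (16 ^ k * D y ^ 2) := by ring
      _ ≤ 16 * (m (Tt y) ^ 2) * 4 := by
          apply mul_le_mul _ h5 (by positivity) (by positivity)
          linarith
      _ = m (Tt y) ^ 2 * 64 := by ring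
  -- integrate over the boxes
  have hfin : ∀ k : ℕ, 4 ≤ k →
      m 1 ^ 2 / 512 * 2 ^ k ≤ ∫ x, pd 0 (u1 m) x ^ 2 ∂(cubeMeasure 2) := by
    intro k hk
    have hsub := ni_cube hk
    have hms : MeasurableSet (Icc (ni_a k) (ni_b k)) := measurableSet_Icc
    have hIc : IntegrableOn (fun x => pd 0 (u1 m) x ^ 2) (cube 2) := hint
    have hIb : IntegrableOn (fun x => pd 0 (u1 m) x ^ 2) (Icc (ni_a k) (ni_b k)) :=
      hIc.mono_set hsub
    have h1 := setIntegral_ge_of_const_le_real hms (by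
      rw [Real.volume_Icc_pi]
      exact (ENNReal.prod_lt_top fun _ _ => ENNReal.ofReal_lt_top).ne) (hbox k hk) hIb
    rw [ni_vol] at h1
    have h2 : ∫ x in Icc (ni_a k) (ni_b k), pd 0 (u1 m) x ^ 2 ≤
        ∫ x in cube 2, pd 0 (u1 m) x ^ 2 :=
      setIntegral_mono_set hIc (Eventually.of_forall fun _ => sq_nonneg _)
        (HasSubset.Subset.eventuallyLE hsub)
    refine le_trans (le_of_eq ?_) (h1.trans h2)
    have h3 : ((1:ℝ) / 2) ^ k * 16 ^ k * (1 / 4) ^ k = 2 ^ k := by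
      rw [← mul_pow, ← mul_pow]
      norm_num
    rw [← h3, pow_succ]
    ring
  have htend : Tendsto (fun k : ℕ => m 1 ^ 2 / 512 * 2 ^ k) atTop atTop :=
    (tendsto_pow_atTop_atTop_of_one_lt (by norm_num : (1:ℝ) < 2)).const_mul_atTop (by positivity)
  obtain ⟨k, hk4, hk⟩ := ((eventually_ge_atTop 4).and
    (htend.eventually_gt_atTop (∫ x, pd 0 (u1 m) x ^ 2 ∂(cubeMeasure 2)))).exists
  exact absurd (hfin k hk4) (not_le.2 hk)

end Pool.Agent.R213.NP
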