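import Pool.Agent.R212.ParDef
import Pool.Agent.R212.Par3

/-!
# A non-parabolic distributional solution of a 2-dimensional advection-diffusion equation: statements

`pd i f` is the `i`-th partial derivative, `lap` the Laplacian, `cubeMeasure 2` Lebesgue measure on
`(0,1]²` (all from `Pool.Agent.R212`). In the punctured plane put `D = y₀² + y₁²`,
`Tt = -½ log D - (y₀² - y₁²) / (2 D)`, `U = (y₀ / D) m (Tt)`, `Psi = (2 y₀ y₁ / D) P (Tt)`. If `m`, `P`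
solve the system of ordinary differential equations in `Profile` then `ΔU = b · ∇U` with
`b = (∂₁ Psi, -∂₀ Psi)`, `U` and `b` are square integrable near `0` and `∇U` is not.
-/

open MeasureTheory Set
open scoped ContDiff ENNReal

namespace Pool.Agent.R213.NP

open Pool.Agent.R212

abbrev V2 := Fin 2 → ℝ

/-- solutions of the system `N' = -p²`, `p' = 2 N (1 - p) - 2 p - p²` on `(0,∞)` -/
def S_ODE : Prop := ∃ N p : ℝ → ℝ, ∀ t : ℝ, 0 < t →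
  HasDerivAt N (-(p t) ^ 2) t ∧ HasDerivAt p (2 * N t * (1 - p t) - 2 * p t - p t ^ 2) t ∧
    0 < p t ∧ p t ≤ 3 / 20 ∧ 9 / 10 * p t ≤ N t ∧ N t ≤ 6 / 5 * p t

/-- the profile functions -/
structure Profile (m m1 m2 P P1 n : ℝ → ℝ) : Prop where
  dm : ∀ t : ℝ, 0 < t → HasDerivAt m (m1 t) t
  dm1 : ∀ t : ℝ, 0 < t → HasDerivAt m1 (m2 t) t
  dP : ∀ t : ℝ, 0 < t → HasDerivAt P (P1 t) t
  mc : ContDiffOn ℝ 2 m (Ioi 0)
  Pc : ContDiffOn ℝ 2 P (Ioi 0)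
  ode1 : ∀ t : ℝ, 0 < t → P1 t * m t = -m2 t
  ode2 : ∀ t : ℝ, 0 < t → 2 * (m t + m1 t) * P t = -m2 t - 4 * m1 t
  mpos : ∀ t : ℝ, 0 < t → 0 < m t
  m1neg : ∀ t : ℝ, 0 < t → m1 t ≤ 0
  m1ge : ∀ t : ℝ, 0 < t → -(m t) / 4 ≤ m1 t
  mn : ∀ t : ℝ, 0 < t → m t ≤ n t
  Pn : ∀ t : ℝ, 0 < t → |P t| ≤ n t
  P1n : ∀ t : ℝ, 0 < t → |P1 t| ≤ n t
  nanti : AntitoneOn n (Ioi 0)
  nint : IntegrableOn (fun t => n t ^ 2) (Ioi 0)

def S_PROF : Prop := ∃ m m1 m2 P P1 n : ℝ → ℝ, Profile m m1 m2 P P1 n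

/-- `D = |y|²` -/
def D (y : V2) : ℝ := y 0 ^ 2 + y 1 ^ 2

noncomputable def Tt (y : V2) : ℝ :=
  -(1 / 2) * Real.log (D y) - (y 0 ^ 2 - y 1 ^ 2) / (2 * D y)

noncomputable def U (m : ℝ → ℝ) (y : V2) : ℝ := y 0 / D y * m (Tt y)

noncomputable def Psi (P : ℝ → ℝ) (y : V2) : ℝ := 2 * y 0 * y 1 / D y * P (Tt y)

/-- the equation, and smoothness, in the punctured plane -/
def S_PDE : Prop := ∀ m m1 m2 P P1 n : ℝ → ℝ, Profile m m1 m2 P P1 n → ∀ y : V2, y ≠ 0 → 0 < Tt y →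
  ContDiffAt ℝ 2 (U m) y ∧ ContDiffAt ℝ 2 (Psi P) y ∧
    lap (U m) y = pd 1 (Psi P) y * pd 0 (U m) y - pd 0 (Psi P) y * pd 1 (U m) y

/-- bounds of the gradients -/
def S_GRAD : Prop := ∀ m m1 m2 P P1 n : ℝ → ℝ, Profile m m1 m2 P P1 n →
  ∀ y : V2, y ≠ 0 → 0 < Tt y →
    (∀ i, |pd i (Psi P) y| ≤ 20 * n (Tt y) / √(D y)) ∧
    (4 * y 1 ^ 2 ≤ y 0 ^ 2 → m (Tt y) / (4 * D y) ≤ -pd 0 (U m) y)

/-- a cutoff function: `1` for `s ≤ a`, `0` for `s ≥ a + 1/50` -/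
noncomputable def cut (a s : ℝ) : ℝ := Real.smoothTransition (50 * (a - s) + 1)

/-- the centre of the unit square -/
noncomputable def cc : V2 := fun _ => 1 / 2

/-- the singular part of the solution -/
noncomputable def u1 (m : ℝ → ℝ) (x : V2) : ℝ := cut (1 / 50) (D (x - cc)) * U m (x - cc)

/-- the stream function; `cut (3/50)` is `1` on the support of `u1` -/
noncomputable def psi (P : ℝ → ℝ) (x : V2) : ℝ := cut (3 / 50) (D (x - cc)) * Psi P (x - cc)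

/-- the drift -/
noncomputable def bb (P : ℝ → ℝ) (x : V2) : V2 := ![pd 1 (psi P) x, -pd 0 (psi P) x]

/-- square integrability -/
def S_L2 : Prop := ∀ m m1 m2 P P1 n : ℝ → ℝ, Profile m m1 m2 P P1 n →
  MemLp (u1 m) 2 volume ∧ ∀ i, MemLp (pd i (psi P)) 2 volume

/-- the gradient of `u1` is not square integrable -/
def S_NI : Prop := ∀ m m1 m2 P P1 n : ℝ → ℝ, Profile m m1 m2 P P1 n →
  ¬ MemLp (pd 0 (u1 m)) 2 (cubeMeasure 2)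

/-- weak formulation across an isolated singularity, abstract version -/
def S_WEAK : Prop := ∀ (c : V2) (u ψ g : V2 → ℝ),
  (∀ x, x ≠ c → ContDiffAt ℝ 2 u x) → (∀ x, x ≠ c → ContDiffAt ℝ 2 ψ x) →
  HasCompactSupport u → HasCompactSupport ψ →
  (∀ y, u (c - y) = -u (c + y)) → (∀ y, ψ (c - y) = ψ (c + y)) →
  MemLp u 2 volume → (∀ i, MemLp (pd i ψ) 2 volume) →
  (∀ x, x ≠ c → g x = lap u x - (pd 1 ψ x * pd 0 u x - pd 0 ψ x * pd 1 u x)) →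
  (∃ ρ > 0, ∀ x, x ≠ c → dist x c < ρ → g x = 0) →
  (∀ φ : V2 → ℝ, ContDiff ℝ ∞ φ →
    ∫ x, u x * (lap φ x + (pd 1 ψ x * pd 0 φ x - pd 0 ψ x * pd 1 φ x)) = ∫ x, g x * φ x) ∧
  (∀ φ : V2 → ℝ, ContDiff ℝ ∞ φ → ∫ x, (pd 1 ψ x * pd 0 φ x - pd 0 ψ x * pd 1 φ x) = 0)

/-- Lions's lemma -/
def S_LIONS : Prop := ∀ (K Φ : Type) [NormedAddCommGroup K] [InnerProductSpace ℝ K]
  [CompleteSpace K] [AddCommGroup Φ] [Module ℝ Φ] (J A : Φ →ₗ[ℝ] K) (l : Φ →ₗ[ℝ] ℝ) (C : ℝ),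
  (∀ φ, |l φ| ≤ C * ‖J φ‖) → (∀ φ, ‖J φ‖ ^ 2 ≤ inner ℝ (J φ) (A φ)) →
  ∃ v ∈ closure (range J), ∀ φ, inner ℝ v (A φ) = l φ

/-- smooth functions on the torus -/
def SP (φ : V2 → ℝ) : Prop := ContDiff ℝ ∞ φ ∧ ∀ i x, φ (x + Pi.single i 1) = φ x

/-- the regular part: a solution in `H¹` of `w + div (b w) = Δ w + g` for a rough drift `b` -/
def S_W : Prop := ∀ (b : V2 → V2) (g : V2 → ℝ), (∀ i, MemLp (fun x => b x i) 2 (cubeMeasure 2)) →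
  DivFree b → MemLp g 2 (cubeMeasure 2) →
  ∃ w W0 W1 : V2 → ℝ, MemLp w 2 (cubeMeasure 2) ∧ MemLp W0 2 (cubeMeasure 2) ∧
    MemLp W1 2 (cubeMeasure 2) ∧
    (∀ φ, SP φ → ∫ x, w x * pd 0 φ x ∂(cubeMeasure 2) = -∫ x, W0 x * φ x ∂(cubeMeasure 2)) ∧
    (∀ φ, SP φ → ∫ x, w x * pd 1 φ x ∂(cubeMeasure 2) = -∫ x, W1 x * φ x ∂(cubeMeasure 2)) ∧
    (∀ φ, SP φ → ∫ x, w x * (φ x - lap φ x - adv b φ x) ∂(cubeMeasure 2) =
      ∫ x, g x * φ x ∂(cubeMeasure 2))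

/-- a function which is `C¹` off the centre, with compact support in the open unit square and with a
square integrable weak derivative `G` (tested with smooth functions on the torus) has a square
integrable classical derivative -/
def S_GR : Prop := ∀ (u G : V2 → ℝ), (∀ x, x ≠ cc → ContDiffAt ℝ 1 u x) →
  (∀ x, u x ≠ 0 → ∀ i, x i ∈ Icc (1 / 5 : ℝ) (4 / 5)) →
  MemLp u 2 (cubeMeasure 2) → MemLp G 2 (cubeMeasure 2) →
  (∀ φ, SP φ → ∫ x, u x * pd 0 φ x ∂(cubeMeasure 2) = -∫ x, G x * φ x ∂(cubeMeasure 2)) →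
  MemLp (pd 0 u) 2 (cubeMeasure 2)

/-- the final statement -/
def S_MAIN : Prop := ∃ (b : V2 → V2) (v : V2 → ℝ), (∀ i, MemLp (fun x => b x i) 2 (cubeMeasure 2)) ∧
  DivFree b ∧ MemLp v 2 (cubeMeasure 2) ∧
  (∀ φ, SP φ → ∫ x, v x * (φ x - lap φ x - adv b φ x) ∂(cubeMeasure 2) = 0) ∧
  ¬ ∃ G : V2 → ℝ, MemLp G 2 (cubeMeasure 2) ∧
    ∀ φ, SP φ → ∫ x, v x * pd 0 φ x ∂(cubeMeasure 2) = -∫ x, G x * φ x ∂(cubeMeasure 2)

end Pool.Agent.R213.NP
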