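import Pool.Agent.R213.GlobalODE
import Pool.Agent.R213.NP.Stm

open Set Filter Topology
open scoped NNReal

namespace Pool.Agent.R213.NP

/-- clamp to `[0,1]` -/
noncomputable def cl (x : ℝ) : ℝ := max 0 (min 1 x)

lemma cl_nonneg (x : ℝ) : 0 ≤ cl x := le_max_left _ _
lemma cl_le (x : ℝ) : cl x ≤ 1 := max_le (by norm_num) (min_le_left _ _)
lemma cl_eq {x : ℝ} (h0 : 0 ≤ x) (h1 : x ≤ 1) : cl x = x := by
  unfold cl
  rw [min_eq_right h1, max_eq_right h0]

lemma cl_lip (x y : ℝ) : |cl x - cl y| ≤ |x - y| := by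
  unfold cl
  refine (abs_max_sub_max_le_max _ _ _ _).trans ?_
  rw [sub_self, abs_zero]
  refine max_le (abs_nonneg _) ((abs_min_sub_min_le_max _ _ _ _).trans ?_)
  rw [sub_self, abs_zero]
  exact max_le (abs_nonneg _) le_rfl

/-- the truncated vector field -/
noncomputable def vf (z : ℝ × ℝ) : ℝ × ℝ :=
  (-(cl z.2) ^ 2, 2 * cl z.1 * (1 - cl z.2) - 2 * cl z.2 - cl z.2 ^ 2)

lemma vf_lip : LipschitzWith 8 vf := by
  refine LipschitzWith.of_dist_le_mul fun z w => ?_
  have h1 := cl_lip z.1 w.1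
  have h2 := cl_lip z.2 w.2
  have d1 : |z.1 - w.1| ≤ dist z w := by
    rw [Prod.dist_eq, ← Real.dist_eq]; exact le_max_left _ _
  have d2 : |z.2 - w.2| ≤ dist z w := by
    rw [Prod.dist_eq, ← Real.dist_eq]; exact le_max_right _ _
  have a0 := cl_nonneg z.1
  have a1 := cl_le z.1
  have b0 := cl_nonneg z.2
  have b1 := cl_le z.2
  have c0 := cl_nonneg w.1
  have c1 := cl_le w.1
  have e0 := cl_nonneg w.2
  have e1 := cl_le w.2
  set a := cl z.1
  set b := cl z.2
  set c := cl w.1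
  set e := cl w.2
  have h1' := h1.trans d1
  have h2' := h2.trans d2
  have hd : 0 ≤ dist z w := dist_nonneg
  rw [abs_le] at h1' h2'
  rw [Prod.dist_eq]
  unfold vf
  refine max_le ?_ ?_
  · show dist (-b ^ 2) (-e ^ 2) ≤ _
    rw [Real.dist_eq]
    have : |-b ^ 2 - -e ^ 2| = |b - e| * |b + e| := by
      rw [← abs_mul, abs_sub_comm]
      congr 1
      ring
    rw [this, abs_of_nonneg (add_nonneg b0 e0)]
    have h3 : |b - e| ≤ dist z w := abs_le.2 h2'
    push_cast
    nlinarith [abs_nonneg (b - e)]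
  · show dist (2 * a * (1 - b) - 2 * b - b ^ 2) (2 * c * (1 - e) - 2 * e - e ^ 2) ≤ _
    rw [Real.dist_eq]
    have h3 : |b - e| ≤ dist z w := abs_le.2 h2'
    have h4 : |a - c| ≤ dist z w := abs_le.2 h1'
    have : 2 * a * (1 - b) - 2 * b - b ^ 2 - (2 * c * (1 - e) - 2 * e - e ^ 2) =
        (2 * (1 - b)) * (a - c) + (-(2 * c + 2 + (b + e))) * (b - e) := by ring
    rw [this]
    refine (abs_add_le _ _).trans ?_
    rw [abs_mul (2 * (1 - b)) (a - c), abs_mul (-(2 * c + 2 + (b + e))) (b - e),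
      abs_of_nonneg (by linarith : (0:ℝ) ≤ 2 * (1 - b)), abs_neg,
      abs_of_nonneg (by linarith : (0:ℝ) ≤ 2 * c + 2 + (b + e))]
    push_cast
    nlinarith [abs_nonneg (b - e), abs_nonneg (a - c)]

lemma vf_bd (z : ℝ × ℝ) : ‖vf z‖ ≤ (8 : ℝ≥0) := by
  have a0 := cl_nonneg z.1
  have a1 := cl_le z.1
  have b0 := cl_nonneg z.2
  have b1 := cl_le z.2
  rw [Prod.norm_def]
  unfold vf
  refine max_le ?_ ?_
  · show ‖-(cl z.2) ^ 2‖ ≤ _
    rw [Real.norm_eq_abs, abs_le]
    push_cast
    constructor <;> nlinarith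
  · show ‖2 * cl z.1 * (1 - cl z.2) - 2 * cl z.2 - cl z.2 ^ 2‖ ≤ _
    rw [Real.norm_eq_abs, abs_le]
    push_cast
    constructor <;> nlinarith [mul_nonneg a0 (sub_nonneg.2 b1)]

/-- comparison with an exponential -/
lemma pos_of_deriv {f f' : ℝ → ℝ} {T : ℝ} (hT : 0 ≤ T) (hf : ContinuousOn f (Icc 0 T))
    (hd : ∀ t ∈ Ioo 0 T, HasDerivAt f (f' t) t) (h : ∀ t ∈ Ioo 0 T, -(3 * f t) ≤ f' t)
    (h0 : 0 < f 0) : 0 < f T := by
  have hm : MonotoneOn (fun t => f t * Real.exp (3 * t)) (Icc 0 T) := by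
    apply monotoneOn_of_deriv_nonneg (convex_Icc _ _)
    · exact hf.mul (by fun_prop)
    · rw [interior_Icc]
      intro t ht
      exact ((hd t ht).mul ((hasDerivAt_id t).const_mul 3).exp).differentiableAt.differentiableWithinAt
    · rw [interior_Icc]
      intro t ht
      have h1 : HasDerivAt (fun t => f t * Real.exp (3 * t))
          (f' t * Real.exp (3 * t) + f t * (Real.exp (3 * t) * (3 * 1))) t :=
        (hd t ht).mul ((hasDerivAt_id t).const_mul 3).exp
      rw [h1.deriv]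
      have := h t ht
      have he := Real.exp_pos (3 * t)
      nlinarith
  have := hm (left_mem_Icc.2 hT) (right_mem_Icc.2 hT) hT
  simp only [mul_zero, Real.exp_zero, mul_one] at this
  have he := Real.exp_pos (3 * T)
  by_contra hc
  push Not at hc
  nlinarith

theorem ode : S_ODE := by
  obtain ⟨α, hα0, hα⟩ := exists_solution_Ici vf_lip vf_bd ((1 / 10, 1 / 10) : ℝ × ℝ)
  set N : ℝ → ℝ := fun t => (α t).1 with hN
  set p : ℝ → ℝ := fun t => (α t).2 with hp
  have hd : ∀ t, 0 < t → HasDerivAt α (vf (α t)) t := fun t ht =>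
    (hα t ht.le).hasDerivAt (Ici_mem_nhds ht)
  have hNd : ∀ t, 0 < t → HasDerivAt N (-(cl (p t)) ^ 2) t := fun t ht => (hd t ht).fst
  have hpd : ∀ t, 0 < t → HasDerivAt p
      (2 * cl (N t) * (1 - cl (p t)) - 2 * cl (p t) - cl (p t) ^ 2) t := fun t ht => (hd t ht).snd
  have hαc : ContinuousOn α (Ici 0) := fun t ht => (hα t ht).continuousWithinAt
  have hNc : ContinuousOn N (Ici 0) := continuous_fst.comp_continuousOn hαc
  have hpc : ContinuousOn p (Ici 0) := continuous_snd.comp_continuousOn hαc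
  have hN0 : N 0 = 1 / 10 := by simp [hN, hα0]
  have hp0 : p 0 = 1 / 10 := by simp [hp, hα0]
  -- N is at most 1/10
  have hNle : ∀ t, 0 ≤ t → N t ≤ 1 / 10 := by
    intro t ht
    have : AntitoneOn N (Ici 0) := by
      apply antitoneOn_of_deriv_nonpos (convex_Ici 0) hNc
      · rw [interior_Ici]
        exact fun s hs => (hNd s hs).differentiableAt.differentiableWithinAt
      · rw [interior_Ici]
        intro s hs
        rw [(hNd s hs).deriv]
        have := sq_nonneg (cl (p s))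
        linarith
    rw [← hN0]
    exact this self_mem_Ici ht ht
  set A : ℝ → ℝ := fun t => N t - 9 / 10 * p t with hA
  set B : ℝ → ℝ := fun t => 6 / 5 * p t - N t with hB
  have hAc : ContinuousOn A (Ici 0) := hNc.sub (hpc.const_smul (9 / 10 : ℝ))
  have hBc : ContinuousOn B (Ici 0) := (hpc.const_smul (6 / 5 : ℝ)).sub hNc
  have key : ∀ t, 0 ≤ t → 0 < A t ∧ 0 < B t := by
    by_contra hc
    push Not at hc
    obtain ⟨t0, ht0, ht0'⟩ := hc
    -- the first time
    set S : Set ℝ := {t | t ∈ Icc 0 t0 ∧ min (A t) (B t) ≤ 0} with hS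
    have hmc : ContinuousOn (fun t => min (A t) (B t)) (Icc 0 t0) :=
      ContinuousOn.inf (hAc.mono Icc_subset_Ici_self) (hBc.mono Icc_subset_Ici_self)
    have hSc : IsClosed S := hmc.preimage_isClosed_of_isClosed isClosed_Icc isClosed_Iic
    have hSne : S.Nonempty := by
      refine ⟨t0, right_mem_Icc.2 ht0, ?_⟩
      by_cases h : 0 < A t0
      · exact (min_le_right _ _).trans (ht0' h)
      · exact (min_le_left _ _).trans (not_lt.1 h)
    have hSb : BddBelow S := ⟨0, fun t ht => ht.1.1⟩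
    have hT := hSc.csInf_mem hSne hSb
    set T := sInf S with hTdef
    have hlt : ∀ s, 0 ≤ s → s < T → 0 < A s ∧ 0 < B s := by
      intro s hs0 hs
      have : s ∉ S := fun h => absurd (csInf_le hSb h) (not_le.2 hs)
      have h2 : 0 < min (A s) (B s) := by
        by_contra h3
        exact this ⟨⟨hs0, hs.le.trans hT.1.2⟩, not_lt.1 h3⟩
      exact ⟨h2.trans_le (min_le_left _ _), h2.trans_le (min_le_right _ _)⟩
    have hcl : ∀ s ∈ Ioo 0 T, cl (p s) = p s ∧ cl (N s) = N s ∧ 0 < p s ∧ p s ≤ 1 / 9 := by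
      intro s hs
      obtain ⟨h1, h2⟩ := hlt s hs.1.le hs.2
      have h3 := hNle s hs.1.le
      simp only [hA, hB] at h1 h2
      have hp1 : 0 < p s := by linarith
      have hp2 : p s ≤ 1 / 9 := by linarith
      have hn1 : 0 ≤ N s := by linarith
      exact ⟨cl_eq hp1.le (by linarith), cl_eq hn1 (by linarith), hp1, hp2⟩
    have hA1 : 0 < A T := by
      apply pos_of_deriv (f := A) (f' := fun s => -(p s) ^ 2 -
        9 / 10 * (2 * N s * (1 - p s) - 2 * p s - p s ^ 2)) hT.1.1
        (hAc.mono Icc_subset_Ici_self)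
      · intro s hs
        obtain ⟨c1, c2, _, _⟩ := hcl s hs
        have e1 := hNd s hs.1
        have e2 := hpd s hs.1
        rw [c1] at e1 e2
        rw [c2] at e2
        exact e1.sub (e2.const_mul _)
      · intro s hs
        obtain ⟨_, _, c3, c4⟩ := hcl s hs
        obtain ⟨h1, h2⟩ := hlt s hs.1.le hs.2
        simp only [hA, hB] at h1 h2 ⊢
        nlinarith
      · simp only [hA, hN0, hp0]; norm_num
    have hB1 : 0 < B T := by
      apply pos_of_deriv (f := B) (f' := fun s =>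
        6 / 5 * (2 * N s * (1 - p s) - 2 * p s - p s ^ 2) - -(p s) ^ 2) hT.1.1
        (hBc.mono Icc_subset_Ici_self)
      · intro s hs
        obtain ⟨c1, c2, _, _⟩ := hcl s hs
        have e1 := hNd s hs.1
        have e2 := hpd s hs.1
        rw [c1] at e1 e2
        rw [c2] at e2
        exact (e2.const_mul _).sub e1
      · intro s hs
        obtain ⟨_, _, c3, c4⟩ := hcl s hs
        obtain ⟨h1, h2⟩ := hlt s hs.1.le hs.2
        simp only [hA, hB] at h1 h2 ⊢
        nlinarith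
      · simp only [hB, hN0, hp0]; norm_num
    have := hT.2
    rcases min_le_iff.1 this with h | h <;> linarith
  refine ⟨N, p, fun t ht => ?_⟩
  obtain ⟨h1, h2⟩ := key t ht.le
  simp only [hA, hB] at h1 h2
  have h3 := hNle t ht.le
  have hp1 : 0 < p t := by linarith
  have hp2 : p t ≤ 1 / 9 := by linarith
  have c1 : cl (p t) = p t := cl_eq hp1.le (by linarith)
  have c2 : cl (N t) = N t := cl_eq (by linarith) (by linarith)
  have e1 := hNd t ht
  have e2 := hpd t ht
  rw [c1] at e1 e2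
  rw [c2] at e2
  exact ⟨e1, e2, hp1, by linarith, by linarith, by linarith⟩

end Pool.Agent.R213.NP
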