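import Pool.Agent.R213.NP.Stm

open MeasureTheory Set Filter Topology
open scoped ContDiff ENNReal

namespace Pool.Agent.R213.NP

/-- bounded increasing functions have integrable derivatives -/
lemma int_of_bdd {F F' : ℝ → ℝ} {C : ℝ} (hd : ∀ t, 0 ≤ t → HasDerivAt F (F' t) t)
    (hc : ContinuousOn F' (Ici 0)) (h0 : ∀ t, 0 ≤ t → 0 ≤ F' t) (hb : ∀ t, 0 ≤ t → F t ≤ C) :
    IntegrableOn F' (Ioi 0) := by
  have hi : ∀ b : ℝ, 0 ≤ b → IntervalIntegrable F' volume 0 b := fun b hb => by
    apply ContinuousOn.intervalIntegrable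
    rw [uIcc_of_le hb]
    exact hc.mono Icc_subset_Ici_self
  refine integrableOn_Ioi_of_intervalIntegral_norm_bounded (C - F 0) (0 : ℝ) (b := fun b : ℝ => b)
    (l := atTop) (fun b => ?_) tendsto_id ?_
  · by_cases hb0 : 0 ≤ b
    · exact (intervalIntegrable_iff_integrableOn_Ioc_of_le hb0).1 (hi b hb0)
    · rw [Ioc_eq_empty (by linarith [not_le.1 hb0] : ¬ (0 : ℝ) < b)]
      exact integrableOn_empty
  · filter_upwards [eventually_ge_atTop (0 : ℝ)] with b hb0
    have h1 : ∫ x in (0 : ℝ)..b, ‖F' x‖ = ∫ x in (0 : ℝ)..b, F' x := by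
      apply intervalIntegral.integral_congr
      intro x hx
      rw [uIcc_of_le hb0] at hx
      simp only [Real.norm_eq_abs]
      exact abs_of_nonneg (h0 x hx.1)
    rw [h1, intervalIntegral.integral_eq_sub_of_hasDerivAt (fun x hx => by
      rw [uIcc_of_le hb0] at hx; exact hd x hx.1) (hi b hb0)]
    linarith [hb b hb0]

theorem prof (h : S_ODE) : S_PROF := by
  obtain ⟨N0, p0, h⟩ := h
  set N : ℝ → ℝ := fun t => N0 (t + 1) with hN
  set p : ℝ → ℝ := fun t => p0 (t + 1) with hp
  set p' : ℝ → ℝ := fun t => 2 * N t * (1 - p t) - 2 * p t - p t ^ 2 with hp'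
  have hNd : ∀ t, -1 < t → HasDerivAt N (-(p t) ^ 2) t := fun t ht => by
    have := (h (t + 1) (by linarith)).1
    exact this.comp_add_const t 1
  have hpd : ∀ t, -1 < t → HasDerivAt p (p' t) t := fun t ht => by
    have := (h (t + 1) (by linarith)).2.1
    exact this.comp_add_const t 1
  have hp1 : ∀ t, -1 < t → 0 < p t := fun t ht => (h (t + 1) (by linarith)).2.2.1
  have hp2 : ∀ t, -1 < t → p t ≤ 3 / 20 := fun t ht => (h (t + 1) (by linarith)).2.2.2.1
  have hN1 : ∀ t, -1 < t → 9 / 10 * p t ≤ N t := fun t ht => (h (t + 1) (by linarith)).2.2.2.2.1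
  have hN2 : ∀ t, -1 < t → N t ≤ 6 / 5 * p t := fun t ht => (h (t + 1) (by linarith)).2.2.2.2.2
  have hNpos : ∀ t, -1 < t → 0 < N t := fun t ht => by linarith [hp1 t ht, hN1 t ht]
  set S : Set ℝ := Ioi (-1) with hS
  have hSo : IsOpen S := isOpen_Ioi
  have hNc : ContinuousOn N S := fun t ht => (hNd t ht).continuousAt.continuousWithinAt
  have hpc : ContinuousOn p S := fun t ht => (hpd t ht).continuousAt.continuousWithinAt
  have step : ∀ k : ℕ, ContDiffOn ℝ k p S ∧ ContDiffOn ℝ k N S := by
    intro k
    induction k with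
    | zero => exact ⟨by simpa using hpc, by simpa using hNc⟩
    | succ k ih =>
      obtain ⟨ih1, ih2⟩ := ih
      constructor
      · rw [Nat.cast_succ, contDiffOn_succ_iff_deriv_of_isOpen hSo]
        refine ⟨fun t ht => (hpd t ht).differentiableAt.differentiableWithinAt, by simp, ?_⟩
        have : ContDiffOn ℝ k p' S :=
          (((contDiffOn_const.mul ih2).mul (contDiffOn_const.sub ih1)).sub
            (contDiffOn_const.mul ih1)).sub (ih1.pow 2)
        exact this.congr fun t ht => (hpd t ht).deriv
      · rw [Nat.cast_succ, contDiffOn_succ_iff_deriv_of_isOpen hSo]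
        refine ⟨fun t ht => (hNd t ht).differentiableAt.differentiableWithinAt, by simp, ?_⟩
        exact (ih1.pow 2).neg.congr fun t ht => (hNd t ht).deriv
  -- the function `m`
  set I : ℝ → ℝ := fun t => ∫ s in (0 : ℝ)..t, p s with hI
  have hId : ∀ t, -1 < t → HasDerivAt I (p t) t := by
    intro t ht
    apply intervalIntegral.integral_hasDerivAt_right
    · apply ContinuousOn.intervalIntegrable
      refine hpc.mono fun s hs => ?_
      rw [mem_uIcc] at hs
      rcases hs with hs | hs
      · exact lt_of_lt_of_le (by norm_num) hs.1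
      · exact ht.trans_le hs.1
    · exact hpc.stronglyMeasurableAtFilter hSo t ht
    · exact (hpd t ht).continuousAt
  set m : ℝ → ℝ := fun t => Real.exp (-I t) with hm
  have hmd : ∀ t, -1 < t → HasDerivAt m (-(p t * m t)) t := fun t ht => by
    have := (hId t ht).neg.exp
    refine this.congr_deriv ?_
    simp only [hm, Pi.neg_apply]
    ring
  have hmpos : ∀ t, 0 < m t := fun t => Real.exp_pos _
  set m1 : ℝ → ℝ := fun t => -(p t * m t) with hm1
  set m2 : ℝ → ℝ := fun t => (p t ^ 2 - p' t) * m t with hm2
  have hm1d : ∀ t, -1 < t → HasDerivAt m1 (m2 t) t := fun t ht => by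
    have := ((hpd t ht).fun_mul (hmd t ht)).fun_neg
    refine this.congr_deriv ?_
    simp only [hm2]
    ring
  have hmc : ContDiffOn ℝ 2 m S := by
    have e1 : ContDiffOn ℝ 0 m S := by
      rw [contDiffOn_zero]
      exact fun t ht => (hmd t ht).continuousAt.continuousWithinAt
    have e2 : ContDiffOn ℝ ((1 : ℕ) : ℕ∞ω) m S := by
      have : ((1 : ℕ) : ℕ∞ω) = 0 + 1 := by simp
      rw [this, contDiffOn_succ_iff_deriv_of_isOpen hSo]
      refine ⟨fun t ht => (hmd t ht).differentiableAt.differentiableWithinAt, by simp, ?_⟩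
      exact ((by simpa using (step 0).1 : ContDiffOn ℝ 0 p S).mul e1).neg.congr
        fun t ht => (hmd t ht).deriv
    have : (2 : ℕ∞ω) = ((1 : ℕ) : ℕ∞ω) + 1 := by norm_num
    rw [this, contDiffOn_succ_iff_deriv_of_isOpen hSo]
    refine ⟨fun t ht => (hmd t ht).differentiableAt.differentiableWithinAt, by simp, ?_⟩
    exact ((step 1).1.mul e2).neg.congr fun t ht => (hmd t ht).deriv
  have hSs : Ioi (0 : ℝ) ⊆ S := by
    intro t ht
    rw [mem_Ioi] at ht
    change (-1 : ℝ) < t
    linarith
  have hNanti : AntitoneOn N S := by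
    apply antitoneOn_of_deriv_nonpos (convex_Ioi _) hNc
    · rw [interior_Ioi]
      exact fun s hs => (hNd s hs).differentiableAt.differentiableWithinAt
    · rw [interior_Ioi]
      intro s hs
      rw [(hNd s hs).deriv]
      have := sq_nonneg (p s)
      linarith
  have hmanti : AntitoneOn m S := by
    apply antitoneOn_of_deriv_nonpos (convex_Ioi _)
      (fun t ht => (hmd t ht).continuousAt.continuousWithinAt)
    · rw [interior_Ioi]
      exact fun s hs => (hmd s hs).differentiableAt.differentiableWithinAt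
    · rw [interior_Ioi]
      intro s hs
      rw [(hmd s hs).deriv]
      have := mul_pos (hp1 s hs) (hmpos s)
      linarith
  have hIci : Ici (0 : ℝ) ⊆ S := by
    intro t ht
    rw [mem_Ici] at ht
    change (-1 : ℝ) < t
    linarith
  -- integrability of `N²`
  have i1 : IntegrableOn (fun t => p t ^ 2) (Ioi 0) := by
    refine int_of_bdd (F := fun t => -N t) (C := 0) (fun t ht => ?_) ((hpc.mono hIci).pow 2)
      (fun t _ => sq_nonneg _) (fun t ht => by linarith [hNpos t (hIci ht)])
    exact (hNd t (hIci ht)).fun_neg.congr_deriv (by ring)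
  have i2 : IntegrableOn (fun t => p t ^ 2 / (2 * √(N t))) (Ioi 0) := by
    refine int_of_bdd (F := fun t => -√(N t)) (C := 0) (fun t ht => ?_) ?_
      (fun t ht => by positivity) (fun t ht => by linarith [Real.sqrt_nonneg (N t)])
    · have := ((hNd t (hIci ht)).sqrt (hNpos t (hIci ht)).ne').fun_neg
      exact this.congr_deriv (by ring)
    · refine ((hpc.mono hIci).pow 2).div (continuousOn_const.mul (hNc.mono hIci).sqrt) fun t ht => ?_
      have := Real.sqrt_pos.2 (hNpos t (hIci ht))
      positivity
  have hR : ∀ t, 0 ≤ t → m t ^ 2 / (N t * √(N t)) ≤ m 0 ^ 2 / (N 0 * √(N 0)) := by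
    have hanti : AntitoneOn (fun t => m t ^ 2 / (N t * √(N t))) (Ici 0) := by
      have hd : ∀ t, 0 ≤ t → HasDerivAt (fun t => m t ^ 2 / (N t * √(N t)))
          (m t ^ 2 * √(N t) * (-2 * (p t * N t) + 3 / 2 * p t ^ 2) / (N t * √(N t)) ^ 2) t := by
        intro t ht
        have ht' := hIci ht
        have s1 := Real.sqrt_pos.2 (hNpos t ht')
        have s2 : √(N t) ^ 2 = N t := Real.sq_sqrt (hNpos t ht').le
        have e1 := (hmd t ht').fun_pow 2
        have e2 := (hNd t ht').fun_mul ((hNd t ht').sqrt (hNpos t ht').ne')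
        have e3 := e1.fun_div e2 (mul_pos (hNpos t ht') s1).ne'
        refine e3.congr_deriv ?_
        congr 1
        push_cast
        have s3 : N t * (-p t ^ 2 / (2 * √(N t))) = √(N t) * (-p t ^ 2) / 2 := by
          field_simp
          rw [s2]
          ring
        rw [s3]
        ring
      apply antitoneOn_of_deriv_nonpos (convex_Ici _)
        (fun t ht => (hd t ht).continuousAt.continuousWithinAt)
      · rw [interior_Ici]
        exact fun s hs => (hd s (le_of_lt hs)).differentiableAt.differentiableWithinAt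
      · rw [interior_Ici]
        intro s hs
        rw [(hd s (le_of_lt hs)).deriv]
        have hs' := hIci (le_of_lt hs : (0 : ℝ) ≤ s)
        have s1 := Real.sqrt_pos.2 (hNpos s hs')
        have a1 := hp1 s hs'
        have a2 := hN1 s hs'
        apply div_nonpos_of_nonpos_of_nonneg _ (by positivity)
        apply mul_nonpos_of_nonneg_of_nonpos (by positivity)
        nlinarith
    intro t ht
    exact hanti self_mem_Ici ht ht
  set C : ℝ := m 0 ^ 2 / (N 0 * √(N 0)) with hC
  have i3 : IntegrableOn (fun t => m t ^ 2) (Ioi 0) := by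
    refine Integrable.mono' (i2.const_mul (3 * C)) ?_ ?_
    · refine ContinuousOn.aestronglyMeasurable (ContinuousOn.pow (fun t ht => ?_) 2) measurableSet_Ioi
      exact (hmd t (hSs ht)).continuousAt.continuousWithinAt
    · filter_upwards [ae_restrict_mem measurableSet_Ioi] with t ht
      have ht0 : (0 : ℝ) ≤ t := le_of_lt ht
      have s0 := hNpos t (hIci ht0)
      have s1 := Real.sqrt_pos.2 s0
      have s2 : √(N t) ^ 2 = N t := Real.sq_sqrt s0.le
      have r := hR t ht0
      rw [div_le_iff₀ (by positivity)] at r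
      have a1 := hp1 t (hIci ht0)
      have a2 := hN2 t (hIci ht0)
      have hC0 : 0 ≤ C := by
        have := hNpos 0 (by norm_num)
        positivity
      rw [Real.norm_eq_abs, abs_of_nonneg (sq_nonneg _)]
      refine r.trans ?_
      have e1 : N t * √(N t) ≤ 3 * (p t ^ 2 / (2 * √(N t))) := by
        rw [mul_div_assoc', le_div_iff₀ (by positivity)]
        have : N t * √(N t) * (2 * √(N t)) = 2 * N t * √(N t) ^ 2 := by ring
        rw [this, s2]
        nlinarith
      calc C * (N t * √(N t)) ≤ C * (3 * (p t ^ 2 / (2 * √(N t)))) :=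
            mul_le_mul_of_nonneg_left e1 hC0
        _ = 3 * C * (p t ^ 2 / (2 * √(N t))) := by ring
  refine ⟨m, m1, m2, fun t => N t + p t, fun t => p' t - p t ^ 2, fun t => m t + 10 * N t, ?_⟩
  exact
  { dm := fun t ht => hmd t (hSs ht)
    dm1 := fun t ht => hm1d t (hSs ht)
    dP := fun t ht => ((hNd t (hSs ht)).fun_add (hpd t (hSs ht))).congr_deriv (by ring)
    mc := hmc.mono hSs
    Pc := by
      have := ((step 2).2.add (step 2).1).mono hSs
      simpa using this
    ode1 := fun t ht => by simp only [hm2]; ring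
    ode2 := fun t ht => by simp only [hm2, hm1, hp']; ring
    mpos := fun t _ => hmpos t
    m1neg := fun t ht => by
      have := mul_pos (hp1 t (hSs ht)) (hmpos t)
      simp only [hm1]
      linarith
    m1ge := fun t ht => by
      have a := hp2 t (hSs ht)
      have b := hmpos t
      simp only [hm1]
      nlinarith
    mn := fun t ht => by linarith [hNpos t (hSs ht)]
    Pn := fun t ht => by
      have a1 := hp1 t (hSs ht)
      have a2 := hN1 t (hSs ht)
      have b := hmpos t
      rw [abs_of_nonneg (by linarith)]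
      linarith
    P1n := fun t ht => by
      have a1 := hp1 t (hSs ht)
      have a2 := hN1 t (hSs ht)
      have a3 := hp2 t (hSs ht)
      have a4 := hN2 t (hSs ht)
      have b := hmpos t
      simp only [hp']
      rw [abs_le]
      constructor <;> nlinarith
    nanti := fun s hs t ht hst => by
      have e1 := hmanti (hSs hs) (hSs ht) hst
      have e2 := hNanti (hSs hs) (hSs ht) hst
      show m t + 10 * N t ≤ m s + 10 * N s
      linarith
    nint := by
      have e : IntegrableOn (fun t => 2 * m t ^ 2 + 300 * p t ^ 2) (Ioi 0) :=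
        (i3.const_mul 2).add (i1.const_mul 300)
      refine Integrable.mono' e ?_ ?_
      · refine ContinuousOn.aestronglyMeasurable (ContinuousOn.pow (ContinuousOn.add
          (fun t ht => ?_) (continuousOn_const.mul (hNc.mono hSs))) 2) measurableSet_Ioi
        exact (hmd t (hSs ht)).continuousAt.continuousWithinAt
      · filter_upwards [ae_restrict_mem measurableSet_Ioi] with t ht
        have a1 := hp1 t (hSs ht)
        have a4 := hN2 t (hSs ht)
        have a5 := hNpos t (hSs ht)
        rw [Real.norm_eq_abs, abs_of_nonneg (sq_nonneg _)]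
        nlinarith [sq_nonneg (m t - 10 * N t)] }

end Pool.Agent.R213.NP
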