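import Pool.Agent.R213.NP.Stm

/-!
# Lions's lemma and the regular part of the solution (task NP-W of MP_fe2fb1_an)
-/

open MeasureTheory Set
open scoped ContDiff ENNReal

namespace Pool.Agent.R213.NP

open Pool.Agent.R212

theorem lions : S_LIONS := by
  intro K Φ _ _ _ _ _ J A l C hl hJA
  set V : Submodule ℝ K := (LinearMap.range J).topologicalClosure with hV
  have hVc : IsClosed (V : Set K) := Submodule.isClosed_topologicalClosure _
  have : CompleteSpace V := hVc.completeSpace_coe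
  set P := V.orthogonalProjectionOnto with hP
  set B : Φ →ₗ[ℝ] V := P.toLinearMap ∘ₗ A with hB
  have hJV : ∀ φ, J φ ∈ V := fun φ => Submodule.le_topologicalClosure _ (LinearMap.mem_range_self J φ)
  have hin : ∀ (v : V) (φ : Φ), inner ℝ (v : K) (A φ) = inner ℝ v (B φ) := by
    intro v φ
    rw [hB]
    simp only [LinearMap.comp_apply, ContinuousLinearMap.coe_coe]
    rw [hP, Submodule.inner_orthogonalProjectionOnto_eq_of_mem_left]
  have hJB : ∀ φ, ‖J φ‖ ≤ ‖B φ‖ := by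
    intro φ
    have h1 := hJA φ
    have h2 := hin ⟨J φ, hJV φ⟩ φ
    simp only at h2
    rw [h2] at h1
    have h3 := real_inner_le_norm (⟨J φ, hJV φ⟩ : V) (B φ)
    have h4 : ‖(⟨J φ, hJV φ⟩ : V)‖ = ‖J φ‖ := rfl
    rw [h4] at h3
    rcases (norm_nonneg (J φ)).eq_or_lt with h0 | h0
    · rw [← h0]; exact norm_nonneg _
    · have : ‖J φ‖ * ‖J φ‖ ≤ ‖J φ‖ * ‖B φ‖ := by nlinarith
      exact le_of_mul_le_mul_left this h0
  obtain ⟨g, hg⟩ := LinearMap.exists_rightInverse_of_surjective B.rangeRestrict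
    (LinearMap.range_rangeRestrict B)
  have hBg : ∀ y : LinearMap.range B, B (g y) = y := by
    intro y
    have := LinearMap.congr_fun hg y
    have h2 := congrArg Subtype.val this
    simpa using h2
  have hC0 : ∀ φ, |l φ| ≤ |C| * ‖B φ‖ := by
    intro φ
    calc |l φ| ≤ C * ‖J φ‖ := hl φ
      _ ≤ |C| * ‖J φ‖ := by gcongr; exact le_abs_self C
      _ ≤ |C| * ‖B φ‖ := by gcongr; exact hJB φ
  set f : StrongDual ℝ (LinearMap.range B) := LinearMap.mkContinuous (l ∘ₗ g) |C| (by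
    intro y
    have h1 := hC0 (g y)
    rw [hBg y] at h1
    exact h1) with hf
  obtain ⟨F, hF, -⟩ := exists_extension_norm_eq (LinearMap.range B) f
  set v : V := (InnerProductSpace.toDual ℝ V).symm F with hv
  refine ⟨(v : K), ?_, fun φ => ?_⟩
  · have hVs : (V : Set K) = closure (range J) := by
      rw [hV, Submodule.topologicalClosure_coe, LinearMap.coe_range]
    exact (Set.ext_iff.1 hVs (v : K)).1 v.2
  · rw [hin v φ, hv, InnerProductSpace.toDual_symm_apply]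
    have h1 := hF ⟨B φ, LinearMap.mem_range_self B φ⟩
    simp only at h1
    rw [h1, hf, LinearMap.mkContinuous_apply, LinearMap.comp_apply]
    have h2 := hC0 (g ⟨B φ, LinearMap.mem_range_self B φ⟩ - φ)
    rw [map_sub, map_sub, hBg] at h2
    simp only [sub_self, norm_zero, mul_zero] at h2
    have h3 := abs_nonpos_iff.1 h2
    linarith

/-! ### The second part -/

/-- smooth functions on the torus -/
def wPhi : Submodule ℝ (V2 → ℝ) where
  carrier := {φ | SP φ}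
  add_mem' := by
    rintro a b ⟨ha, ha'⟩ ⟨hb, hb'⟩
    exact ⟨ha.add hb, fun i x => by simp only [Pi.add_apply, ha' i x, hb' i x]⟩
  zero_mem' := ⟨contDiff_const, fun i x => rfl⟩
  smul_mem' := by
    rintro c a ⟨ha, ha'⟩
    exact ⟨contDiff_const.smul ha, fun i x => by simp only [Pi.smul_apply, ha' i x]⟩

noncomputable abbrev wL := Lp ℝ 2 (cubeMeasure 2)

/-- linear maps into `L²` -/
noncomputable def wLp (T : wPhi →ₗ[ℝ] (V2 → ℝ)) (h : ∀ φ, MemLp (T φ) 2 (cubeMeasure 2)) :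
    wPhi →ₗ[ℝ] wL where
  toFun φ := (h φ).toLp
  map_add' a b := by
    rw [← MemLp.toLp_add]
    congr 1
    exact map_add T a b
  map_smul' c a := by
    rw [RingHom.id_apply, ← MemLp.toLp_const_smul]
    congr 1
    exact map_smul T c a

lemma wLp_apply (T : wPhi →ₗ[ℝ] (V2 → ℝ)) (h : ∀ φ, MemLp (T φ) 2 (cubeMeasure 2)) (φ : wPhi) :
    wLp T h φ = (h φ).toLp := rfl

lemma w_cont_memLp {f : V2 → ℝ} (hf : Continuous f) : MemLp f 2 (cubeMeasure 2) := by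
  obtain ⟨C, _, hC⟩ := cont_bounded hf
  refine MemLp.of_bound hf.aestronglyMeasurable C ?_
  filter_upwards [ae_cube 2] with x hx
  exact hC x hx

/-- partial derivatives as a linear map -/
noncomputable def wpd (i : Fin 2) : wPhi →ₗ[ℝ] (V2 → ℝ) where
  toFun φ := pd i φ
  map_add' a b := by
    funext x
    exact pd_add i (cdiff a.2.1 x) (cdiff b.2.1 x)
  map_smul' c a := by
    funext x
    exact pd_const_mul i c (cdiff a.2.1 x)

lemma w_smul_memLp {b f : V2 → ℝ} (hb : MemLp b 2 (cubeMeasure 2)) (hf : Continuous f) :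
    MemLp (fun x => b x * f x) 2 (cubeMeasure 2) := by
  obtain ⟨C, _, hC⟩ := cont_bounded hf
  refine MemLp.of_le_mul (c := C) hb (hb.1.mul hf.aestronglyMeasurable) ?_
  filter_upwards [ae_cube 2] with x hx
  rw [norm_mul, mul_comm]
  exact mul_le_mul_of_nonneg_right (hC x hx) (norm_nonneg _)

/-- the operator `φ - b · ∇ φ` -/
noncomputable def wA0 (b : V2 → V2) : wPhi →ₗ[ℝ] (V2 → ℝ) where
  toFun φ := fun x => (φ : V2 → ℝ) x - adv b φ x
  map_add' a c := by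
    funext x
    simp only [adv, Submodule.coe_add, Pi.add_apply]
    have h : ∀ i, pd i ((a : V2 → ℝ) + (c : V2 → ℝ)) x = pd i a x + pd i c x :=
      fun i => pd_add i (cdiff a.2.1 x) (cdiff c.2.1 x)
    simp only [h, mul_add, Finset.sum_add_distrib]
    ring
  map_smul' c a := by
    funext x
    simp only [adv, Submodule.coe_smul, Pi.smul_apply, smul_eq_mul, RingHom.id_apply]
    have h : ∀ i, pd i (c • (a : V2 → ℝ)) x = c * pd i a x :=
      fun i => pd_const_mul i c (cdiff a.2.1 x)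
    simp only [h, mul_sub, Finset.mul_sum]
    congr 1
    exact Finset.sum_congr rfl fun i _ => by ring

lemma w_adv_memLp {b : V2 → V2} (hb : ∀ i, MemLp (fun x => b x i) 2 (cubeMeasure 2))
    {φ : V2 → ℝ} (hφ : ContDiff ℝ ∞ φ) : MemLp (adv b φ) 2 (cubeMeasure 2) := by
  unfold adv
  exact memLp_finsetSum _ fun i _ => w_smul_memLp (hb i) (pd_smooth' hφ i).continuous

lemma w_inner {f g : V2 → ℝ} (hf : MemLp f 2 (cubeMeasure 2)) (hg : MemLp g 2 (cubeMeasure 2)) :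
    inner ℝ (hf.toLp) (hg.toLp) = ∫ x, f x * g x ∂(cubeMeasure 2) := by
  rw [L2.inner_def]
  refine integral_congr_ae ?_
  filter_upwards [hf.coeFn_toLp, hg.coeFn_toLp] with x h1 h2
  rw [h1, h2]
  simp [mul_comm]

lemma w_inner' (w : wL) {g : V2 → ℝ} (hg : MemLp g 2 (cubeMeasure 2)) :
    inner ℝ w (hg.toLp) = ∫ x, w x * g x ∂(cubeMeasure 2) := by
  rw [L2.inner_def]
  refine integral_congr_ae ?_
  filter_upwards [hg.coeFn_toLp] with x h2
  rw [h2]
  simp [mul_comm]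

noncomputable abbrev wK := PiLp 2 (fun _ : Fin 3 => wL)

/-- triples of linear maps -/
noncomputable def w3 (a : Fin 3 → (wPhi →ₗ[ℝ] wL)) : wPhi →ₗ[ℝ] wK :=
  (WithLp.linearEquiv 2 ℝ (Fin 3 → wL)).symm.toLinearMap ∘ₗ LinearMap.pi a

lemma w3_apply (a : Fin 3 → (wPhi →ₗ[ℝ] wL)) (φ : wPhi) (i : Fin 3) : (w3 a φ) i = a i φ := rfl

lemma w_div {b : V2 → V2} (hb : ∀ i, MemLp (fun x => b x i) 2 (cubeMeasure 2)) (hdiv : DivFree b)
    {φ : V2 → ℝ} (hφ : SP φ) : ∫ x, φ x * adv b φ x ∂(cubeMeasure 2) = 0 := by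
  have hf := hφ.1
  have h1 := hdiv (fun x => φ x * φ x) (hf.mul hf) (fun i x => by simp only [hφ.2 i x])
  have h2 : ∀ x, ∑ i, b x i * pd i (fun x => φ x * φ x) x =
      2 * (φ x * adv b φ x) := by
    intro x
    unfold adv
    rw [Finset.mul_sum, Finset.mul_sum]
    apply Finset.sum_congr rfl
    intro i _
    rw [pd_mul i (cdiff hf x) (cdiff hf x)]
    ring
  simp_rw [h2] at h1
  rw [integral_const_mul] at h1
  linarith

theorem wpart : S_W := by
  intro b g hb hdiv hg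
  have hc0 : ∀ φ : wPhi, MemLp (wPhi.subtype φ) 2 (cubeMeasure 2) := fun φ =>
    w_cont_memLp φ.2.1.continuous
  have hc1 : ∀ (i : Fin 2) (φ : wPhi), MemLp (wpd i φ) 2 (cubeMeasure 2) := fun i φ =>
    w_cont_memLp (pd_smooth' φ.2.1 i).continuous
  have hcA : ∀ φ : wPhi, MemLp (wA0 b φ) 2 (cubeMeasure 2) := fun φ =>
    (hc0 φ).sub (w_adv_memLp hb φ.2.1)
  set J : wPhi →ₗ[ℝ] wK := w3 ![wLp wPhi.subtype hc0, wLp (wpd 0) (hc1 0), wLp (wpd 1) (hc1 1)]
    with hJ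
  set A : wPhi →ₗ[ℝ] wK := w3 ![wLp (wA0 b) hcA, wLp (wpd 0) (hc1 0), wLp (wpd 1) (hc1 1)]
    with hA
  set l : wPhi →ₗ[ℝ] ℝ := (innerSL ℝ hg.toLp).toLinearMap ∘ₗ wLp wPhi.subtype hc0 with hl
  have hl' : ∀ φ : wPhi, l φ = ∫ x, g x * (φ : V2 → ℝ) x ∂(cubeMeasure 2) := by
    intro φ
    rw [hl]
    exact w_inner hg (hc0 φ)
  have J0 : ∀ φ, J φ 0 = (hc0 φ).toLp := fun φ => rfl
  have J1 : ∀ φ, J φ 1 = (hc1 0 φ).toLp := fun φ => rfl
  have J2 : ∀ φ, J φ 2 = (hc1 1 φ).toLp := fun φ => rfl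
  have A0 : ∀ φ, A φ 0 = (hcA φ).toLp := fun φ => rfl
  have A1 : ∀ φ, A φ 1 = (hc1 0 φ).toLp := fun φ => rfl
  have A2 : ∀ φ, A φ 2 = (hc1 1 φ).toLp := fun φ => rfl
  obtain ⟨v, hv, hvA⟩ := lions wK wPhi J A l ‖hg.toLp‖ (by
    intro φ
    have h1 : |l φ| ≤ ‖hg.toLp‖ * ‖(hc0 φ).toLp‖ := by
      change |inner ℝ (hg.toLp) ((hc0 φ).toLp)| ≤ _
      exact abs_real_inner_le_norm _ _
    refine h1.trans ?_
    have h2 : ‖(hc0 φ).toLp‖ ≤ ‖J φ‖ := by
      rw [← J0]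
      exact PiLp.norm_apply_le (J φ) 0
    gcongr) (by
    intro φ
    rw [← real_inner_self_eq_norm_sq, PiLp.inner_apply, PiLp.inner_apply, Fin.sum_univ_three,
      Fin.sum_univ_three, J0, J1, J2, A0, A1, A2, w_inner, w_inner (hc0 φ) (hcA φ)]
    have h1 : ∫ x, (wPhi.subtype φ) x * (wA0 b φ) x ∂(cubeMeasure 2) =
        ∫ x, (wPhi.subtype φ) x * (wPhi.subtype φ) x ∂(cubeMeasure 2) := by
      have h2 : ∀ x, (wPhi.subtype φ) x * (wA0 b φ) x =
          (wPhi.subtype φ) x * (wPhi.subtype φ) x - (φ : V2 → ℝ) x * adv b φ x := by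
        intro x
        have : (wA0 b φ) x = (wPhi.subtype φ) x - adv b φ x := rfl
        rw [this]
        simp only [Submodule.subtype_apply]
        ring
      simp_rw [h2]
      rw [integral_sub, w_div hb hdiv φ.2, sub_zero]
      · exact MemLp.integrable_mul (hc0 φ) (hc0 φ)
      · exact MemLp.integrable_mul (hc0 φ) (w_adv_memLp hb φ.2.1)
    rw [h1])
  have hweak : ∀ (i : Fin 2) (j : Fin 3) (hij : ∀ φ, J φ j = (hc1 i φ).toLp) (ψ : wPhi),
      inner ℝ (v 0) ((hc1 i ψ).toLp) + inner ℝ (v j) ((hc0 ψ).toLp) = 0 := by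
    intro i j hij ψ
    have hclosed : IsClosed {u : wK | inner ℝ (u 0) ((hc1 i ψ).toLp) +
        inner ℝ (u j) ((hc0 ψ).toLp) = 0} := by
      refine isClosed_eq ?_ continuous_const
      have e1 : Continuous fun u : wK => u 0 := PiLp.continuous_apply 2 _ 0
      have e2 : Continuous fun u : wK => u j := PiLp.continuous_apply 2 _ j
      exact (e1.inner continuous_const).add (e2.inner continuous_const)
    refine closure_minimal ?_ hclosed hv
    rintro _ ⟨φ, rfl⟩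
    simp only [Set.mem_ofPred_eq]
    rw [J0, hij φ, w_inner, w_inner]
    have := ibp (n := 1) φ.2.1 ψ.2.1 φ.2.2 ψ.2.2 i
    have e1 : ∫ x, (wPhi.subtype φ) x * (wpd i ψ) x ∂(cubeMeasure 2) =
        ∫ x, (φ : V2 → ℝ) x * pd i (ψ : V2 → ℝ) x ∂(cubeMeasure (1 + 1)) := rfl
    have e2 : ∫ x, (wpd i φ) x * (wPhi.subtype ψ) x ∂(cubeMeasure 2) =
        ∫ x, pd i (φ : V2 → ℝ) x * (ψ : V2 → ℝ) x ∂(cubeMeasure (1 + 1)) := rfl
    rw [e1, e2, this]
    ring
  have hw0 : ∀ φ, SP φ → ∫ x, v 0 x * pd 0 φ x ∂(cubeMeasure 2) =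
      -∫ x, v 1 x * φ x ∂(cubeMeasure 2) := by
    intro φ hφ
    have h := hweak 0 1 J1 ⟨φ, hφ⟩
    rw [w_inner', w_inner'] at h
    have h' : ∫ x, v 0 x * pd 0 φ x ∂(cubeMeasure 2) + ∫ x, v 1 x * φ x ∂(cubeMeasure 2) = 0 := h
    linarith
  have hw1 : ∀ φ, SP φ → ∫ x, v 0 x * pd 1 φ x ∂(cubeMeasure 2) =
      -∫ x, v 2 x * φ x ∂(cubeMeasure 2) := by
    intro φ hφ
    have h := hweak 1 2 J2 ⟨φ, hφ⟩
    rw [w_inner', w_inner'] at h
    have h' : ∫ x, v 0 x * pd 1 φ x ∂(cubeMeasure 2) + ∫ x, v 2 x * φ x ∂(cubeMeasure 2) = 0 := h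
    linarith
  refine ⟨v 0, v 1, v 2, Lp.memLp _, Lp.memLp _, Lp.memLp _, hw0, hw1, ?_⟩
  intro φ hφ
  have h := hvA ⟨φ, hφ⟩
  rw [PiLp.inner_apply, Fin.sum_univ_three, A0, A1, A2, w_inner', w_inner', w_inner', hl'] at h
  have hpd : ∀ i, SP (pd i φ) := fun i =>
    ⟨pd_smooth' hφ.1 i, fun j x => pd_per (hφ.2 j) i x⟩
  have h1 : ∫ x, v 1 x * pd 0 φ x ∂(cubeMeasure 2) = -∫ x, v 0 x * pd 0 (pd 0 φ) x ∂(cubeMeasure 2) := by
    rw [hw0 _ (hpd 0)]; ring
  have h2 : ∫ x, v 2 x * pd 1 φ x ∂(cubeMeasure 2) = -∫ x, v 0 x * pd 1 (pd 1 φ) x ∂(cubeMeasure 2) := by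
    rw [hw1 _ (hpd 1)]; ring
  have h3 : ∫ x, v 0 x * (φ x - adv b φ x) ∂(cubeMeasure 2) + ∫ x, v 1 x * pd 0 φ x ∂(cubeMeasure 2) +
      ∫ x, v 2 x * pd 1 φ x ∂(cubeMeasure 2) = ∫ x, g x * φ x ∂(cubeMeasure 2) := h
  rw [h1, h2] at h3
  rw [← h3]
  have i1 : Integrable (fun x => v 0 x * (φ x - adv b φ x)) (cubeMeasure 2) :=
    MemLp.integrable_mul (Lp.memLp (v 0)) (hcA ⟨φ, hφ⟩)
  have i2 : ∀ i, Integrable (fun x => v 0 x * pd i (pd i φ) x) (cubeMeasure 2) := fun i =>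
    MemLp.integrable_mul (Lp.memLp (v 0)) (w_cont_memLp (pd_smooth' (hpd i).1 i).continuous)
  have e : ∀ x, v 0 x * (φ x - lap φ x - adv b φ x) = v 0 x * (φ x - adv b φ x) -
      v 0 x * pd 0 (pd 0 φ) x - v 0 x * pd 1 (pd 1 φ) x := by
    intro x
    simp only [lap, Fin.sum_univ_two]
    ring
  simp_rw [e]
  have i3 : Integrable (fun x => v 0 x * (φ x - adv b φ x) - v 0 x * pd 0 (pd 0 φ) x)
      (cubeMeasure 2) := i1.sub (i2 0)
  rw [integral_sub i3 (i2 1), integral_sub i1 (i2 0)]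
  ring

end Pool.Agent.R213.NP
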