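import Pool.Agent.R213.NP.Stm

/-!
# Weak formulation across an isolated singularity
-/

open MeasureTheory Set Filter
open scoped ContDiff ENNReal Topology

namespace Pool.Agent.R213.NP

open Pool.Agent.R212

namespace Wk

/-! ## The cutoff function -/

lemma pd_refl (f : V2 → ℝ) (a : V2) (i : Fin 2) (x : V2) :
    pd i (fun x => f (a - x)) x = -pd i f (a - x) := by
  unfold pd
  have h : (fun x => f (a - x)) = fun x => (fun z => f ((-1 : ℝ) • z)) (x - a) := by
    funext x; simp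
  rw [h, fderiv_comp_sub (f := fun z => f ((-1 : ℝ) • z)), fderiv_comp_smul]
  simp

lemma pd_scale (f : V2 → ℝ) (s : ℝ) (c : V2) (i : Fin 2) (x : V2) :
    pd i (fun x => f (s • (x - c))) x = s * pd i f (s • (x - c)) := by
  unfold pd
  rw [fderiv_comp_sub (f := fun z => f (s • z)), fderiv_comp_smul]
  simp

lemma D_le (y : V2) : D y ≤ 2 * ‖y‖ ^ 2 := by
  unfold D
  have h0 := norm_le_pi_norm y 0
  have h1 := norm_le_pi_norm y 1
  rw [Real.norm_eq_abs] at h0 h1
  have h2 : y 0 ^ 2 ≤ ‖y‖ ^ 2 := sq_le_sq' (by linarith [abs_le.1 h0]) (abs_le.1 h0).2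
  have h3 : y 1 ^ 2 ≤ ‖y‖ ^ 2 := sq_le_sq' (by linarith [abs_le.1 h1]) (abs_le.1 h1).2
  linarith

lemma le_D (y : V2) : ‖y‖ ^ 2 ≤ D y := by
  have h : ‖y‖ ≤ √(D y) := by
    refine (pi_norm_le_iff_of_nonneg (Real.sqrt_nonneg _)).2 fun i => ?_
    rw [Real.norm_eq_abs]
    refine Real.abs_le_sqrt ?_
    unfold D
    fin_cases i
    · simp; positivity
    · simp; positivity
  have h0 : 0 ≤ D y := by unfold D; positivity
  calc ‖y‖ ^ 2 ≤ √(D y) ^ 2 := pow_le_pow_left₀ (norm_nonneg _) h 2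
    _ = D y := Real.sq_sqrt h0

/-- the cutoff function -/
noncomputable def eta (y : V2) : ℝ := Real.smoothTransition (2 - D y)

lemma eta_smooth : ContDiff ℝ ∞ eta := by
  unfold eta D
  refine Real.smoothTransition.contDiff.comp ?_
  fun_prop

lemma eta_one {y : V2} (h : ‖y‖ ≤ 1 / 2) : eta y = 1 := by
  unfold eta
  refine Real.smoothTransition.one_of_one_le ?_
  have := D_le y
  have := norm_nonneg y
  nlinarith

lemma eta_zero {y : V2} (h : 2 < ‖y‖) : eta y = 0 := by
  unfold eta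
  refine Real.smoothTransition.zero_of_nonpos ?_
  have := le_D y
  nlinarith

lemma eta_even (y : V2) : eta (-y) = eta y := by
  unfold eta D; simp

lemma eta_tsupp : tsupport eta ⊆ Metric.closedBall 0 2 := by
  refine closure_minimal (fun y hy => ?_) Metric.isClosed_closedBall
  rw [mem_closedBall_zero_iff]
  by_contra h
  exact hy (eta_zero (not_le.1 h))

lemma eta_cs : HasCompactSupport eta :=
  (isCompact_closedBall _ _).of_isClosed_subset (isClosed_tsupport _) eta_tsupp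

lemma pd_cs {f : V2 → ℝ} (h : HasCompactSupport f) (i : Fin 2) : HasCompactSupport (pd i f) :=
  h.fderiv_apply (𝕜 := ℝ) _

lemma pd_tsupp (f : V2 → ℝ) (i : Fin 2) : tsupport (pd i f) ⊆ tsupport f :=
  tsupport_fderiv_apply_subset ℝ _

/-- the scaled cutoff function -/
noncomputable def hh (c : V2) (s : ℝ) (x : V2) : ℝ := eta (s • (x - c))

lemma hh_smooth (c : V2) (s : ℝ) : ContDiff ℝ ∞ (hh c s) := by
  unfold hh
  exact eta_smooth.comp (by fun_prop)

lemma pd_hh (c : V2) (s : ℝ) (i : Fin 2) : pd i (hh c s) = fun x => s * pd i eta (s • (x - c)) := by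
  funext x
  exact pd_scale eta s c i x

lemma pd_pd_hh (c : V2) (s : ℝ) (i : Fin 2) :
    pd i (pd i (hh c s)) = fun x => s * (s * pd i (pd i eta) (s • (x - c))) := by
  funext x
  rw [pd_hh]
  have h : DifferentiableAt ℝ (fun x => pd i eta (s • (x - c))) x :=
    cdiff ((pd_smooth' eta_smooth i).comp (by fun_prop)) x
  rw [pd_const_mul i s h, pd_scale]

/-- bounds for the scaled cutoff functions -/
lemma hh_bounds (c : V2) : ∃ C : ℝ, 0 ≤ C ∧ ∀ s : ℝ, 1 ≤ s → ∀ x : V2,
    |hh c s x| ≤ C ∧ (∀ i, |pd i (hh c s) x| ≤ C * s) ∧ |lap (hh c s) x| ≤ C * s ^ 2 ∧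
    (2 < s * ‖x - c‖ → hh c s x = 0 ∧ (∀ i, pd i (hh c s) x = 0) ∧ lap (hh c s) x = 0) := by
  obtain ⟨C0, h0⟩ := eta_cs.exists_bound_of_continuous eta_smooth.continuous
  have h1 : ∀ i : Fin 2, ∃ C, ∀ x, ‖pd i eta x‖ ≤ C := fun i =>
    (pd_cs eta_cs i).exists_bound_of_continuous (pd_smooth' eta_smooth i).continuous
  have h2 : ∀ i : Fin 2, ∃ C, ∀ x, ‖pd i (pd i eta) x‖ ≤ C := fun i =>
    (pd_cs (pd_cs eta_cs i) i).exists_bound_of_continuous
      (pd_smooth' (pd_smooth' eta_smooth i) i).continuous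
  choose C1 h1 using h1
  choose C2 h2 using h2
  have p0 : 0 ≤ C0 := (norm_nonneg _).trans (h0 0)
  have p1 : ∀ i, 0 ≤ C1 i := fun i => (norm_nonneg _).trans (h1 i 0)
  have p2 : ∀ i, 0 ≤ C2 i := fun i => (norm_nonneg _).trans (h2 i 0)
  refine ⟨C0 + C1 0 + C1 1 + C2 0 + C2 1, ?_, fun s hs x => ⟨?_, fun i => ?_, ?_, fun h => ?_⟩⟩
  · linarith [p1 0, p1 1, p2 0, p2 1]
  · have := h0 (s • (x - c))
    rw [Real.norm_eq_abs] at this
    unfold hh
    linarith [p1 0, p1 1, p2 0, p2 1]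
  · rw [pd_hh]
    have := h1 i (s • (x - c))
    rw [Real.norm_eq_abs] at this
    simp only [abs_mul, abs_of_pos (lt_of_lt_of_le one_pos hs)]
    rw [mul_comm]
    refine mul_le_mul_of_nonneg_right ?_ (by linarith)
    have h3 : C1 i ≤ C1 0 + C1 1 := by fin_cases i <;> simp [p1]
    linarith [p2 0, p2 1]
  · unfold lap
    rw [Fin.sum_univ_two, pd_pd_hh, pd_pd_hh]
    have e0 := h2 0 (s • (x - c))
    have e1 := h2 1 (s • (x - c))
    rw [Real.norm_eq_abs] at e0 e1
    have e2 : s * (s * pd 0 (pd 0 eta) (s • (x - c))) + s * (s * pd 1 (pd 1 eta) (s • (x - c))) =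
        s ^ 2 * (pd 0 (pd 0 eta) (s • (x - c)) + pd 1 (pd 1 eta) (s • (x - c))) := by ring
    simp only
    rw [e2, abs_mul, abs_of_nonneg (sq_nonneg s), mul_comm]
    refine mul_le_mul_of_nonneg_right ?_ (sq_nonneg s)
    have := abs_add_le (pd 0 (pd 0 eta) (s • (x - c))) (pd 1 (pd 1 eta) (s • (x - c)))
    linarith [p1 0, p1 1]
  · have hn : s • (x - c) ∉ tsupport eta := by
      intro hm
      have := eta_tsupp hm
      rw [mem_closedBall_zero_iff, norm_smul, Real.norm_eq_abs,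
        abs_of_pos (lt_of_lt_of_le one_pos hs)] at this
      linarith
    refine ⟨image_eq_zero_of_notMem_tsupport (f := eta) hn, fun i => ?_, ?_⟩
    · rw [pd_hh]
      simp only
      rw [image_eq_zero_of_notMem_tsupport (fun hm => hn (pd_tsupp _ i hm)), mul_zero]
    · unfold lap
      rw [Fin.sum_univ_two, pd_pd_hh, pd_pd_hh]
      simp only
      rw [image_eq_zero_of_notMem_tsupport
          (fun hm => hn (pd_tsupp _ 0 (pd_tsupp _ 0 hm))),
        image_eq_zero_of_notMem_tsupport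
          (fun hm => hn (pd_tsupp _ 1 (pd_tsupp _ 1 hm)))]
      simp

lemma hh_refl (c : V2) (s : ℝ) (x : V2) : hh c s (2 • c - x) = hh c s x := by
  unfold hh
  rw [← eta_even]
  congr 1
  rw [two_smul, ← smul_neg]
  congr 1
  abel

/-! ## Two limits -/

lemma ev_far {c x : V2} (h : x ≠ c) : ∀ᶠ k : ℕ in atTop, 2 < ((k : ℝ) + 1) * ‖x - c‖ := by
  have h0 : 0 < ‖x - c‖ := norm_pos_iff.2 (sub_ne_zero.2 h)
  have h1 : Tendsto (fun k : ℕ => ((k : ℝ) + 1) * ‖x - c‖) atTop atTop :=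
    (tendsto_natCast_atTop_atTop.atTop_add tendsto_const_nhds).atTop_mul_const h0
  exact h1.eventually_gt_atTop 2

lemma ae_ne (c : V2) : ∀ᵐ x ∂(volume : Measure V2), x ≠ c := by
  have : (volume : Measure V2) {c} = 0 := by simp
  exact compl_mem_ae_iff.2 this

lemma limB {w : V2 → ℝ} (hw : Integrable w) (c : V2) (G : ℕ → V2 → ℝ) (C : ℝ)
    (hm : ∀ k, AEStronglyMeasurable (G k) volume) (hb : ∀ k x, |G k x| ≤ C)
    (h0 : ∀ (k : ℕ) x, 2 < ((k : ℝ) + 1) * ‖x - c‖ → G k x = 0) :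
    Tendsto (fun k => ∫ x, w x * G k x) atTop (𝓝 0) := by
  have h := tendsto_integral_of_dominated_convergence (μ := (volume : Measure V2))
    (F := fun k x => w x * G k x) (f := fun _ => (0 : ℝ)) (fun x => |w x| * C)
    (fun k => hw.aestronglyMeasurable.mul (hm k)) (hw.abs.mul_const C)
    (fun k => Eventually.of_forall fun x => by
      rw [Real.norm_eq_abs, abs_mul]
      exact mul_le_mul_of_nonneg_left (hb k x) (abs_nonneg _))
    (by
      filter_upwards [ae_ne c] with x hx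
      refine tendsto_const_nhds.congr' ?_
      filter_upwards [ev_far hx] with k hk
      rw [h0 k x hk, mul_zero])
  simpa using h

lemma limA {w : V2 → ℝ} (hw : MemLp w 2 volume) (c : V2) (G : ℕ → V2 → ℝ) (C : ℝ)
    (hm : ∀ k, AEStronglyMeasurable (G k) volume) (hb : ∀ (k : ℕ) x, |G k x| ≤ C * (k + 1))
    (h0 : ∀ (k : ℕ) x, 2 < ((k : ℝ) + 1) * ‖x - c‖ → G k x = 0) :
    Tendsto (fun k => ∫ x, w x * G k x) atTop (𝓝 0) := by
  have hw2 : Integrable (fun x => w x ^ 2) volume := hw.integrable_sq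
  set B : ℕ → Set V2 := fun k => Metric.closedBall c (2 / ((k : ℝ) + 1)) with hB
  have hBm : ∀ k, MeasurableSet (B k) := fun k => Metric.isClosed_closedBall.measurableSet
  have hBx : ∀ (k : ℕ) x, x ∉ B k → 2 < ((k : ℝ) + 1) * ‖x - c‖ := by
    intro k x hx
    have hk : (0 : ℝ) < (k : ℝ) + 1 := by positivity
    rw [hB, Metric.mem_closedBall, dist_eq_norm, not_le, div_lt_iff₀ hk] at hx
    linarith
  -- the square integrals over the small balls
  have hlim : Tendsto (fun k => ∫ x, ((B k).indicator (fun x => w x) x) ^ 2) atTop (𝓝 0) := by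
    have h := tendsto_integral_of_dominated_convergence (μ := (volume : Measure V2))
      (F := fun k x => ((B k).indicator (fun x => w x) x) ^ 2) (f := fun _ => (0 : ℝ))
      (fun x => w x ^ 2)
      (fun k => (hw.aestronglyMeasurable.indicator (hBm k)).pow 2) hw2
      (fun k => Eventually.of_forall fun x => by
        rw [Real.norm_eq_abs, abs_of_nonneg (sq_nonneg _)]
        by_cases hx : x ∈ B k
        · rw [indicator_of_mem hx]
        · rw [indicator_of_notMem hx]; simp; positivity)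
      (by
        filter_upwards [ae_ne c] with x hx
        refine tendsto_const_nhds.congr' ?_
        filter_upwards [ev_far hx] with k hk
        have hk' : (0 : ℝ) < (k : ℝ) + 1 := by positivity
        have : x ∉ B k := by
          rw [hB, Metric.mem_closedBall, dist_eq_norm, not_le, div_lt_iff₀ hk']
          linarith
        rw [indicator_of_notMem this]
        simp)
    simpa using h
  have hG2 : ∀ k, Integrable (fun x => G k x ^ 2) volume ∧ ∫ x, G k x ^ 2 ≤ 16 * C ^ 2 := by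
    intro k
    have hk' : (0 : ℝ) < (k : ℝ) + 1 := by positivity
    have hvol : (volume : Measure V2) (B k) = ENNReal.ofReal ((2 * (2 / ((k : ℝ) + 1))) ^ 2) := by
      have := Real.volume_pi_closedBall c (show (0 : ℝ) ≤ 2 / ((k : ℝ) + 1) by positivity)
      simpa using this
    have hfin : (volume : Measure V2) (B k) ≠ ⊤ := by rw [hvol]; exact ENNReal.ofReal_ne_top
    have hint : Integrable ((B k).indicator fun _ => (C * ((k : ℝ) + 1)) ^ 2) volume := by
      rw [integrable_indicator_iff (hBm k)]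
      exact integrableOn_const hfin
    have hle : ∀ x, G k x ^ 2 ≤ (B k).indicator (fun _ => (C * ((k : ℝ) + 1)) ^ 2) x := by
      intro x
      by_cases hx : x ∈ B k
      · rw [indicator_of_mem hx]
        rw [← sq_abs]
        exact pow_le_pow_left₀ (abs_nonneg _) (hb k x) 2
      · rw [indicator_of_notMem hx, h0 k x (hBx k x hx)]
        simp
    have hi : Integrable (fun x => G k x ^ 2) volume :=
      hint.mono' ((hm k).pow 2) (Eventually.of_forall fun x => by
        rw [Real.norm_eq_abs, abs_of_nonneg (sq_nonneg _)]; exact hle x)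
    refine ⟨hi, (integral_mono hi hint hle).trans (le_of_eq ?_)⟩
    rw [integral_indicator (hBm k), setIntegral_const, measureReal_def, hvol,
      ENNReal.toReal_ofReal (by positivity), smul_eq_mul]
    field_simp
    ring
  have hbound : ∀ k, |∫ x, w x * G k x| ≤
      √(∫ x, ((B k).indicator (fun x => w x) x) ^ 2) * √(16 * C ^ 2) := by
    intro k
    have he : ∀ x, w x * G k x = (B k).indicator (fun x => w x) x * G k x := by
      intro x
      by_cases hx : x ∈ B k
      · rw [indicator_of_mem hx]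
      · rw [indicator_of_notMem hx, h0 k x (hBx k x hx)]; simp
    rw [integral_congr_ae (Eventually.of_forall he)]
    have hwB : MemLp ((B k).indicator (fun x => w x)) 2 volume := hw.indicator (hBm k)
    have hGL : MemLp (G k) 2 volume := (memLp_two_iff_integrable_sq (hm k)).2 (hG2 k).1
    refine (cs hwB.integrable_sq (hG2 k).1 (hwB.integrable_mul hGL)).trans ?_
    exact mul_le_mul_of_nonneg_left (Real.sqrt_le_sqrt (hG2 k).2) (Real.sqrt_nonneg _)
  have h1 := (hlim.sqrt).mul_const (√(16 * C ^ 2))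
  rw [Real.sqrt_zero, zero_mul] at h1
  exact squeeze_zero_norm (fun k => by rw [Real.norm_eq_abs]; exact hbound k) h1

/-! ## Integration by parts -/

lemma int_pd {F : V2 → ℝ} (hF : ContDiff ℝ 1 F) (hc : HasCompactSupport F) (i : Fin 2) :
    Integrable (pd i F) volume ∧ ∫ x, pd i F x = 0 := by
  have h1 : Continuous (pd i F) := (hF.continuous_fderiv (by norm_num)).clm_apply continuous_const
  have h2 : Integrable (pd i F) volume := h1.integrable_of_hasCompactSupport (pd_cs hc i)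
  refine ⟨h2, ?_⟩
  have h3 := integral_mul_fderiv_eq_neg_fderiv_mul_of_integrable (μ := (volume : Measure V2))
    (f := F) (g := fun _ => (1 : ℝ)) (v := Pi.single i 1)
    (by
      simp only [mul_one]
      exact h2) (by simp)
    (by simpa using hF.continuous.integrable_of_hasCompactSupport hc)
    (fun x _ => hF.differentiable (by norm_num) x) (fun x _ => differentiableAt_const _)
  simp at h3
  unfold pd
  linarith

lemma glue {F : V2 → ℝ} {c : V2} (h0 : F =ᶠ[𝓝 c] fun _ => 0)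
    (h1 : ∀ x, x ≠ c → ContDiffAt ℝ 1 F x) : ContDiff ℝ 1 F := by
  refine contDiff_iff_contDiffAt.2 fun x => ?_
  by_cases hx : x = c
  · subst hx
    exact contDiffAt_const.congr_of_eventuallyEq h0
  · exact h1 x hx

lemma pd_ev {f : V2 → ℝ} {c : V2} (h : f =ᶠ[𝓝 c] fun _ => 0) (i : Fin 2) :
    pd i f =ᶠ[𝓝 c] fun _ => 0 := by
  filter_upwards [h.fderiv (𝕜 := ℝ)] with x hx
  unfold pd
  rw [hx]
  simp

lemma pd_cda {f : V2 → ℝ} {x : V2} (h : ContDiffAt ℝ 2 f x) (i : Fin 2) :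
    ContDiffAt ℝ 1 (pd i f) x := by
  unfold pd
  exact (h.fderiv_right (m := 1) (by norm_num)).clm_apply contDiffAt_const

lemma pd_symm {f : V2 → ℝ} {x : V2} (h : ContDiffAt ℝ 2 f x) :
    pd 0 (pd 1 f) x = pd 1 (pd 0 f) x := by
  have h1 : DifferentiableAt ℝ (fderiv ℝ f) x :=
    (h.fderiv_right (m := 1) (by norm_num)).differentiableAt (by norm_num)
  have h2 : ∀ i j : Fin 2, pd i (pd j f) x =
      fderiv ℝ (fderiv ℝ f) x (Pi.single i 1) (Pi.single j 1) := by
    intro i j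
    unfold pd
    rw [fderiv_clm_apply h1 (differentiableAt_const _)]
    simp
  rw [h2, h2]
  exact (h.isSymmSndFDerivAt (by simp)) _ _

lemma zero_off {f : V2 → ℝ} {x : V2} (h : x ∉ tsupport f) (i : Fin 2) : f x = 0 ∧ pd i f x = 0 :=
  ⟨image_eq_zero_of_notMem_tsupport h, by unfold pd; rw [fderiv_of_notMem_tsupport ℝ h]; rfl⟩

/-- integrability of a product with a continuous function -/
lemma int_mul {w f : V2 → ℝ} (hw : Integrable w volume) (hws : HasCompactSupport w)
    (hf : Continuous f) : Integrable (fun x => w x * f x) volume := by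
  have h1 : IntegrableOn (fun x => w x * f x) (tsupport w) volume :=
    hw.integrableOn.mul_continuousOn hf.continuousOn hws
  refine (integrableOn_iff_integrable_of_support_subset fun x hx => ?_).1 h1
  by_contra h
  exact hx (by simp [image_eq_zero_of_notMem_tsupport h])

section D

variable {c : V2} {u ψ g : V2 → ℝ}

/-- the first identity for test functions that vanish near the singularity -/
lemma far1 (hu : ∀ x, x ≠ c → ContDiffAt ℝ 2 u x) (hψ : ∀ x, x ≠ c → ContDiffAt ℝ 2 ψ x)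
    (hus : HasCompactSupport u)
    (hg : ∀ x, x ≠ c → g x = lap u x - (pd 1 ψ x * pd 0 u x - pd 0 ψ x * pd 1 u x))
    {φ : V2 → ℝ} (hφ : ContDiff ℝ ∞ φ) (h0 : φ =ᶠ[𝓝 c] fun _ => 0)
    (hint : Integrable (fun x => u x * (lap φ x + (pd 1 ψ x * pd 0 φ x - pd 0 ψ x * pd 1 φ x)))
      volume) :
    ∫ x, u x * (lap φ x + (pd 1 ψ x * pd 0 φ x - pd 0 ψ x * pd 1 φ x)) = ∫ x, g x * φ x := by
  set F0 : V2 → ℝ := fun x => u x * pd 0 φ x - φ x * pd 0 u x + u x * φ x * pd 1 ψ x with hF0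
  set F1 : V2 → ℝ := fun x => u x * pd 1 φ x - φ x * pd 1 u x - u x * φ x * pd 0 ψ x with hF1
  have hφ1 : ∀ x, ContDiffAt ℝ 1 φ x := fun x => (hφ.of_le (by exact_mod_cast le_top)).contDiffAt
  have hpφ : ∀ i x, ContDiffAt ℝ 1 (pd i φ) x := fun i x =>
    ((pd_smooth' hφ i).of_le (by exact_mod_cast le_top)).contDiffAt
  have hu1 : ∀ x, x ≠ c → ContDiffAt ℝ 1 u x := fun x hx => (hu x hx).of_le (by norm_num)
  have c0 : ContDiff ℝ 1 F0 := by
    refine glue (c := c) ?_ fun x hx => ?_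
    · filter_upwards [h0, pd_ev h0 0] with x hx hx0
      rw [hF0]; simp [hx, hx0]
    · exact (((hu1 x hx).mul (hpφ 0 x)).sub ((hφ1 x).mul (pd_cda (hu x hx) 0))).add
        (((hu1 x hx).mul (hφ1 x)).mul (pd_cda (hψ x hx) 1))
  have c1 : ContDiff ℝ 1 F1 := by
    refine glue (c := c) ?_ fun x hx => ?_
    · filter_upwards [h0, pd_ev h0 1] with x hx hx0
      rw [hF1]; simp [hx, hx0]
    · exact (((hu1 x hx).mul (hpφ 1 x)).sub ((hφ1 x).mul (pd_cda (hu x hx) 1))).sub
        (((hu1 x hx).mul (hφ1 x)).mul (pd_cda (hψ x hx) 0))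
  have s0 : HasCompactSupport F0 := HasCompactSupport.intro hus fun x hx => by
    simp [hF0, zero_off hx 0]
  have s1 : HasCompactSupport F1 := HasCompactSupport.intro hus fun x hx => by
    simp [hF1, zero_off hx 1]
  obtain ⟨i0, e0⟩ := int_pd c0 s0 0
  obtain ⟨i1, e1⟩ := int_pd c1 s1 1
  have key : ∀ x, x ≠ c → pd 0 F0 x + pd 1 F1 x =
      u x * (lap φ x + (pd 1 ψ x * pd 0 φ x - pd 0 ψ x * pd 1 φ x)) - g x * φ x := by
    intro x hx
    have du := ((hu1 x hx).differentiableAt (by norm_num)).hasFDerivAt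
    have dφ := ((hφ1 x).differentiableAt (by norm_num)).hasFDerivAt
    have dφi := fun i => (((hpφ i x)).differentiableAt (by norm_num)).hasFDerivAt
    have dui := fun i => ((pd_cda (hu x hx) i).differentiableAt (by norm_num)).hasFDerivAt
    have dψi := fun i => ((pd_cda (hψ x hx) i).differentiableAt (by norm_num)).hasFDerivAt
    have a0 := (((du.mul (dφi 0)).sub (dφ.mul (dui 0))).add ((du.mul dφ).mul (dψi 1))).fderiv
    have a1 := (((du.mul (dφi 1)).sub (dφ.mul (dui 1))).sub ((du.mul dφ).mul (dψi 0))).fderiv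
    have b0 : pd 0 F0 x = u x * pd 0 (pd 0 φ) x + pd 0 φ x * pd 0 u x -
        (φ x * pd 0 (pd 0 u) x + pd 0 u x * pd 0 φ x) +
        (u x * φ x * pd 0 (pd 1 ψ) x + pd 1 ψ x * (u x * pd 0 φ x + φ x * pd 0 u x)) := by
      have : pd 0 F0 x = fderiv ℝ F0 x (Pi.single 0 1) := rfl
      rw [this]
      erw [a0]
      simp [pd]
      ring
    have b1 : pd 1 F1 x = u x * pd 1 (pd 1 φ) x + pd 1 φ x * pd 1 u x -
        (φ x * pd 1 (pd 1 u) x + pd 1 u x * pd 1 φ x) -
        (u x * φ x * pd 1 (pd 0 ψ) x + pd 0 ψ x * (u x * pd 1 φ x + φ x * pd 1 u x)) := by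
      have : pd 1 F1 x = fderiv ℝ F1 x (Pi.single 1 1) := rfl
      rw [this]
      erw [a1]
      simp [pd]
      ring
    rw [b0, b1, hg x hx, pd_symm (hψ x hx)]
    unfold lap
    rw [Fin.sum_univ_two, Fin.sum_univ_two]
    ring
  have hsum : ∫ x, (pd 0 F0 x + pd 1 F1 x) = 0 := by rw [integral_add i0 i1, e0, e1, add_zero]
  have hae : (fun x => pd 0 F0 x + pd 1 F1 x) =ᵐ[volume] fun x =>
      u x * (lap φ x + (pd 1 ψ x * pd 0 φ x - pd 0 ψ x * pd 1 φ x)) - g x * φ x := by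
    filter_upwards [ae_ne c] with x hx using key x hx
  have hB : Integrable (fun x => g x * φ x) volume := by
    refine (hint.sub (i0.add i1)).congr ?_
    filter_upwards [hae] with x hx
    simp only [Pi.sub_apply, Pi.add_apply]
    linarith
  rw [integral_congr_ae hae, integral_sub hint hB] at hsum
  linarith

/-- the second identity for test functions that vanish near the singularity -/
lemma far2 (hψ : ∀ x, x ≠ c → ContDiffAt ℝ 2 ψ x) (hψs : HasCompactSupport ψ)
    {φ : V2 → ℝ} (hφ : ContDiff ℝ ∞ φ) (h0 : φ =ᶠ[𝓝 c] fun _ => 0) :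
    ∫ x, (pd 1 ψ x * pd 0 φ x - pd 0 ψ x * pd 1 φ x) = 0 := by
  set F0 : V2 → ℝ := fun x => φ x * pd 1 ψ x with hF0
  set F1 : V2 → ℝ := fun x => φ x * pd 0 ψ x with hF1
  have hφ1 : ∀ x, ContDiffAt ℝ 1 φ x := fun x => (hφ.of_le (by exact_mod_cast le_top)).contDiffAt
  have c0 : ContDiff ℝ 1 F0 := by
    refine glue (c := c) ?_ fun x hx => (hφ1 x).mul (pd_cda (hψ x hx) 1)
    filter_upwards [h0] with x hx
    rw [hF0]; simp [hx]
  have c1 : ContDiff ℝ 1 F1 := by
    refine glue (c := c) ?_ fun x hx => (hφ1 x).mul (pd_cda (hψ x hx) 0)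
    filter_upwards [h0] with x hx
    rw [hF1]; simp [hx]
  have s0 : HasCompactSupport F0 := HasCompactSupport.intro hψs fun x hx => by
    simp [hF0, zero_off hx 1]
  have s1 : HasCompactSupport F1 := HasCompactSupport.intro hψs fun x hx => by
    simp [hF1, zero_off hx 0]
  obtain ⟨i0, e0⟩ := int_pd c0 s0 0
  obtain ⟨i1, e1⟩ := int_pd c1 s1 1
  have key : ∀ x, x ≠ c → pd 0 F0 x - pd 1 F1 x = pd 1 ψ x * pd 0 φ x - pd 0 ψ x * pd 1 φ x := by
    intro x hx
    have dφ := (hφ1 x).differentiableAt (by norm_num)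
    have dψi := fun i => (pd_cda (hψ x hx) i).differentiableAt (by norm_num)
    rw [hF0, hF1, pd_mul 0 dφ (dψi 1), pd_mul 1 dφ (dψi 0), pd_symm (hψ x hx)]
    ring
  have hsum : ∫ x, (pd 0 F0 x - pd 1 F1 x) = 0 := by rw [integral_sub i0 i1, e0, e1, sub_zero]
  rw [← hsum]
  refine integral_congr_ae ?_
  filter_upwards [ae_ne c] with x hx using (key x hx).symm

end D

/-! ## Assembly -/

/-- the integrand of the first identity -/
noncomputable def LI (u ψ φ : V2 → ℝ) (x : V2) : ℝ :=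
  u x * (lap φ x + (pd 1 ψ x * pd 0 φ x - pd 0 ψ x * pd 1 φ x))

/-- the integrand of the second identity -/
noncomputable def MI (ψ φ : V2 → ℝ) (x : V2) : ℝ := pd 1 ψ x * pd 0 φ x - pd 0 ψ x * pd 1 φ x

lemma cont_bd {f : V2 → ℝ} (hf : Continuous f) (c : V2) :
    ∃ C, 0 ≤ C ∧ ∀ x, ‖x - c‖ ≤ 2 → |f x| ≤ C := by
  obtain ⟨C, hC⟩ := (isCompact_closedBall c 2).exists_bound_of_continuousOn hf.continuousOn
  refine ⟨C, (norm_nonneg _).trans (hC c (by simp)), fun x hx => ?_⟩
  rw [← Real.norm_eq_abs]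
  exact hC x (by rwa [Metric.mem_closedBall, dist_eq_norm])

lemma lip {φ : V2 → ℝ} (hφ : ContDiff ℝ ∞ φ) (c : V2) :
    ∃ L, 0 ≤ L ∧ ∀ x, ‖x - c‖ ≤ 2 → |φ x - φ c| ≤ L * ‖x - c‖ := by
  have hf : Continuous (fderiv ℝ φ) := hφ.continuous_fderiv (by simp)
  obtain ⟨C, hC⟩ := (isCompact_closedBall c 2).exists_bound_of_continuousOn hf.continuousOn
  refine ⟨C, (norm_nonneg _).trans (hC c (by simp)), fun x hx => ?_⟩
  rw [← Real.norm_eq_abs]
  exact (convex_closedBall c 2).norm_image_sub_le_of_norm_fderiv_le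
    (fun y _ => cdiff hφ y) hC (by simp) (by rwa [Metric.mem_closedBall, dist_eq_norm])

lemma memlp_int {w : V2 → ℝ} (hw : MemLp w 2 volume) (hs : HasCompactSupport w) :
    Integrable w volume := by
  have h1 : IntegrableOn w (tsupport w) volume :=
    (hw.locallyIntegrable (by norm_num)).integrableOn_isCompact hs
  exact (integrableOn_iff_integrable_of_support_subset (subset_tsupport w)).1 h1

lemma lap_cont {φ : V2 → ℝ} (hφ : ContDiff ℝ ∞ φ) : Continuous (lap φ) := by
  unfold lap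
  simp only [Fin.sum_univ_two]
  exact (pd_smooth' (pd_smooth' hφ 0) 0).continuous.add (pd_smooth' (pd_smooth' hφ 1) 1).continuous

lemma pd_mul' {H φ : V2 → ℝ} (hH : ContDiff ℝ ∞ H) (hφ : ContDiff ℝ ∞ φ) (i : Fin 2) :
    pd i (fun x => H x * φ x) = fun x => H x * pd i φ x + pd i H x * φ x := by
  funext x
  exact pd_mul i (cdiff hH x) (cdiff hφ x)

lemma lap_mul' {H φ : V2 → ℝ} (hH : ContDiff ℝ ∞ H) (hφ : ContDiff ℝ ∞ φ) (x : V2) :
    lap (fun x => H x * φ x) x = H x * lap φ x + 2 * (pd 0 H x * pd 0 φ x + pd 1 H x * pd 1 φ x) +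
      φ x * lap H x := by
  have h : ∀ i, pd i (pd i (fun x => H x * φ x)) x =
      H x * pd i (pd i φ) x + 2 * (pd i H x * pd i φ x) + pd i (pd i H) x * φ x := by
    intro i
    have a1 := cdiff (hH.mul (pd_smooth' hφ i)) x
    have a2 := cdiff ((pd_smooth' hH i).mul hφ) x
    rw [pd_mul' hH hφ, pd_add i a1 a2, pd_mul i (cdiff hH x) (cdiff (pd_smooth' hφ i) x),
      pd_mul i (cdiff (pd_smooth' hH i) x) (cdiff hφ x)]
    ring
  unfold lap
  rw [Fin.sum_univ_two, Fin.sum_univ_two, Fin.sum_univ_two, h, h]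
  ring

lemma pd_sub' {f h : V2 → ℝ} (hf : ContDiff ℝ ∞ f) (hh : ContDiff ℝ ∞ h) (i : Fin 2) :
    pd i (fun x => f x - h x) = fun x => pd i f x - pd i h x := by
  funext x
  unfold pd
  rw [fderiv_fun_sub (cdiff hf x) (cdiff hh x)]
  simp

lemma LI_sub {u ψ f h : V2 → ℝ} (hf : ContDiff ℝ ∞ f) (hh : ContDiff ℝ ∞ h) (x : V2) :
    LI u ψ (fun x => f x - h x) x = LI u ψ f x - LI u ψ h x := by
  unfold LI lap
  simp only [Fin.sum_univ_two]
  rw [pd_sub' hf hh 0, pd_sub' hf hh 1, pd_sub' (pd_smooth' hf 0) (pd_smooth' hh 0) 0,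
    pd_sub' (pd_smooth' hf 1) (pd_smooth' hh 1) 1]
  ring

lemma MI_sub {ψ f h : V2 → ℝ} (hf : ContDiff ℝ ∞ f) (hh : ContDiff ℝ ∞ h) (x : V2) :
    MI ψ (fun x => f x - h x) x = MI ψ f x - MI ψ h x := by
  unfold MI
  rw [pd_sub' hf hh 0, pd_sub' hf hh 1]
  ring

lemma odd_zero (c : V2) {F : V2 → ℝ} (h : ∀ x, F (2 • c - x) = -F x) : ∫ x, F x = 0 := by
  have h1 := integral_sub_left_eq_self F (volume : Measure V2) (2 • c)
  rw [integral_congr_ae (Eventually.of_forall h), integral_neg] at h1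
  linarith

lemma pd_of_even {c : V2} {f : V2 → ℝ} (h : ∀ x, f (2 • c - x) = f x) (i : Fin 2) (x : V2) :
    pd i f (2 • c - x) = -pd i f x := by
  have h1 := pd_refl f (2 • c) i x
  have h2 : (fun x => f (2 • c - x)) = f := funext h
  rw [h2] at h1
  linarith

lemma pd_of_odd {c : V2} {f : V2 → ℝ} (h : ∀ x, f (2 • c - x) = -f x) (i : Fin 2) (x : V2) :
    pd i f (2 • c - x) = pd i f x := by
  have h1 := pd_refl f (2 • c) i x
  have h2 : (fun x => f (2 • c - x)) = fun x => -f x := funext h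
  have h3 : pd i (fun x => -f x) x = -pd i f x := by
    unfold pd
    rw [fderiv_fun_neg]
    simp
  rw [h2, h3] at h1
  linarith

lemma lap_of_even {c : V2} {f : V2 → ℝ} (h : ∀ x, f (2 • c - x) = f x) (x : V2) :
    lap f (2 • c - x) = lap f x := by
  unfold lap
  simp only [Fin.sum_univ_two]
  rw [pd_of_odd (pd_of_even h 0), pd_of_odd (pd_of_even h 1)]

lemma LI_int {u ψ : V2 → ℝ} (hus : HasCompactSupport u) (huL : MemLp u 2 volume)
    (hψL : ∀ i, MemLp (pd i ψ) 2 volume) {φ : V2 → ℝ} (hφ : ContDiff ℝ ∞ φ) :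
    Integrable (LI u ψ φ) volume := by
  have hs : ∀ i, HasCompactSupport (fun x => u x * pd i ψ x) := fun i =>
    HasCompactSupport.intro hus fun x hx => by simp [zero_off hx 0]
  have h1 := int_mul (memlp_int huL hus) hus (lap_cont hφ)
  have h2 := int_mul (w := fun x => u x * pd 1 ψ x) (huL.integrable_mul (hψL 1)) (hs 1)
    (pd_smooth' hφ 0).continuous
  have h3 := int_mul (w := fun x => u x * pd 0 ψ x) (huL.integrable_mul (hψL 0)) (hs 0)
    (pd_smooth' hφ 1).continuous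
  refine (h1.add (h2.sub h3)).congr (Eventually.of_forall fun x => ?_)
  simp only [Pi.add_apply, Pi.sub_apply, LI]
  ring

lemma MI_int {ψ : V2 → ℝ} (hψs : HasCompactSupport ψ)
    (hψL : ∀ i, MemLp (pd i ψ) 2 volume) {φ : V2 → ℝ} (hφ : ContDiff ℝ ∞ φ) :
    Integrable (MI ψ φ) volume := by
  have h2 := int_mul (memlp_int (hψL 1) (pd_cs hψs 1)) (pd_cs hψs 1) (pd_smooth' hφ 0).continuous
  have h3 := int_mul (memlp_int (hψL 0) (pd_cs hψs 0)) (pd_cs hψs 0) (pd_smooth' hφ 1).continuous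
  exact h2.sub h3

/-- the singular part disappears in the limit, second identity -/
lemma lim_MI {c : V2} {ψ : V2 → ℝ} (hψs : HasCompactSupport ψ)
    (hψL : ∀ i, MemLp (pd i ψ) 2 volume) {φ : V2 → ℝ} (hφ : ContDiff ℝ ∞ φ) :
    Tendsto (fun k : ℕ => ∫ x, MI ψ (fun x => hh c (k + 1) x * φ x) x) atTop (𝓝 0) := by
  obtain ⟨C, hC, hb⟩ := hh_bounds c
  obtain ⟨B, hB, hbB⟩ := cont_bd hφ.continuous c
  obtain ⟨B0, hB0, hbB0⟩ := cont_bd (pd_smooth' hφ 0).continuous c
  obtain ⟨B1, hB1, hbB1⟩ := cont_bd (pd_smooth' hφ 1).continuous c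
  have hs1 : ∀ k : ℕ, (1 : ℝ) ≤ (k : ℝ) + 1 := fun k => by
    have := Nat.cast_nonneg (α := ℝ) k; linarith
  have cont : ∀ (k : ℕ) (i : Fin 2), Continuous
      (fun x => hh c ((k : ℝ) + 1) x * pd i φ x + pd i (hh c ((k : ℝ) + 1)) x * φ x) :=
    fun k i => ((hh_smooth c _).continuous.mul (pd_smooth' hφ i).continuous).add
      ((pd_smooth' (hh_smooth c _) i).continuous.mul hφ.continuous)
  have gen : ∀ (i : Fin 2) (Bi : ℝ), 0 ≤ Bi → (∀ x, ‖x - c‖ ≤ 2 → |pd i φ x| ≤ Bi) →
      ∀ w : V2 → ℝ, MemLp w 2 volume →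
      Tendsto (fun k : ℕ => ∫ x, w x *
        (hh c ((k : ℝ) + 1) x * pd i φ x + pd i (hh c ((k : ℝ) + 1)) x * φ x)) atTop (𝓝 0) := by
    intro i Bi hBi hbi w hw
    refine limA hw c _ (C * Bi + C * B) (fun k => (cont k i).aestronglyMeasurable)
      (fun k x => ?_) (fun k x hx => ?_)
    · by_cases hx : 2 < ((k : ℝ) + 1) * ‖x - c‖
      · obtain ⟨z1, z2, _⟩ := (hb _ (hs1 k) x).2.2.2 hx
        rw [z1, z2 i]
        simp
        positivity
      · have hx2 : ‖x - c‖ ≤ 2 := by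
          have := norm_nonneg (x - c)
          nlinarith [hs1 k]
        obtain ⟨y1, y2, _⟩ := hb _ (hs1 k) x
        have e1 : |hh c ((k : ℝ) + 1) x * pd i φ x| ≤ C * Bi := by
          rw [abs_mul]; exact mul_le_mul y1 (hbi x hx2) (abs_nonneg _) hC
        have e2 : |pd i (hh c ((k : ℝ) + 1)) x * φ x| ≤ C * (k + 1) * B := by
          rw [abs_mul]; exact mul_le_mul (y2 i) (hbB x hx2) (abs_nonneg _) (by positivity)
        have e3 : C * Bi ≤ C * Bi * (k + 1) := le_mul_of_one_le_right (by positivity) (hs1 k)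
        refine (abs_add_le _ _).trans ?_
        linarith
    · obtain ⟨z1, z2, _⟩ := (hb _ (hs1 k) x).2.2.2 hx
      simp only [z1, z2 i]
      simp
  have t1 := gen 0 B0 hB0 hbB0 _ (hψL 1)
  have t2 := gen 1 B1 hB1 hbB1 _ (hψL 0)
  have t3 := t1.sub t2
  rw [sub_zero] at t3
  refine t3.congr fun k => ?_
  rw [← integral_sub (int_mul (memlp_int (hψL 1) (pd_cs hψs 1)) (pd_cs hψs 1) (cont k 0))
    (int_mul (memlp_int (hψL 0) (pd_cs hψs 0)) (pd_cs hψs 0) (cont k 1))]
  refine integral_congr_ae (Eventually.of_forall fun x => ?_)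
  simp only [MI]
  rw [pd_mul' (hh_smooth c _) hφ, pd_mul' (hh_smooth c _) hφ]

/-- the singular part disappears in the limit, first identity -/
lemma lim_LI {c : V2} {u ψ : V2 → ℝ} (hus : HasCompactSupport u)
    (hodd : ∀ x, u (2 • c - x) = -u x) (heven : ∀ x, ψ (2 • c - x) = ψ x)
    (huL : MemLp u 2 volume) (hψL : ∀ i, MemLp (pd i ψ) 2 volume)
    {φ : V2 → ℝ} (hφ : ContDiff ℝ ∞ φ) :
    Tendsto (fun k : ℕ => ∫ x, LI u ψ (fun x => hh c (k + 1) x * φ x) x) atTop (𝓝 0) := by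
  obtain ⟨C, hC, hb⟩ := hh_bounds c
  obtain ⟨L, hL, hbL⟩ := lip hφ c
  obtain ⟨B, hB, hbB⟩ := cont_bd (lap_cont hφ) c
  obtain ⟨B0, hB0, hbB0⟩ := cont_bd (pd_smooth' hφ 0).continuous c
  obtain ⟨B1, hB1, hbB1⟩ := cont_bd (pd_smooth' hφ 1).continuous c
  have hs1 : ∀ k : ℕ, (1 : ℝ) ≤ (k : ℝ) + 1 := fun k => by
    have := Nat.cast_nonneg (α := ℝ) k; linarith
  have hs : ∀ i, HasCompactSupport (fun x => u x * pd i ψ x) := fun i =>
    HasCompactSupport.intro hus fun x hx => by simp [zero_off hx 0]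
  have iu := memlp_int huL hus
  have iw : ∀ i, Integrable (fun x => u x * pd i ψ x) volume := fun i =>
    huL.integrable_mul (hψL i)
  have hHc : ∀ k : ℕ, Continuous (hh c ((k : ℝ) + 1)) := fun k => (hh_smooth c _).continuous
  have hHi : ∀ (k : ℕ) i, Continuous (pd i (hh c ((k : ℝ) + 1))) := fun k i =>
    (pd_smooth' (hh_smooth c _) i).continuous
  have hHl : ∀ k : ℕ, Continuous (lap (hh c ((k : ℝ) + 1))) := fun k => lap_cont (hh_smooth c _)
  have hφc := hφ.continuous
  have hφi : ∀ i, Continuous (pd i φ) := fun i => (pd_smooth' hφ i).continuous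
  have hφl := lap_cont hφ
  -- small factor
  have small : ∀ (k : ℕ) x, ¬ (2 < ((k : ℝ) + 1) * ‖x - c‖) →
      ‖x - c‖ ≤ 2 ∧ |φ x - φ c| ≤ 2 * L ∧ |φ x - φ c| * ((k : ℝ) + 1) ≤ 2 * L := by
    intro k x hx
    have h1 := norm_nonneg (x - c)
    have hx2 : ‖x - c‖ ≤ 2 := by nlinarith [hs1 k]
    have h2 := hbL x hx2
    refine ⟨hx2, h2.trans (by nlinarith), ?_⟩
    have h3 : |φ x - φ c| * ((k : ℝ) + 1) ≤ L * ‖x - c‖ * ((k : ℝ) + 1) :=
      mul_le_mul_of_nonneg_right h2 (by positivity)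
    nlinarith
  set P : ℕ → V2 → ℝ := fun k x => hh c ((k : ℝ) + 1) x * lap φ x +
    2 * (pd 0 (hh c ((k : ℝ) + 1)) x * pd 0 φ x + pd 1 (hh c ((k : ℝ) + 1)) x * pd 1 φ x) +
    (φ x - φ c) * lap (hh c ((k : ℝ) + 1)) x with hP
  set Q : Fin 2 → ℕ → V2 → ℝ := fun i k x => hh c ((k : ℝ) + 1) x * pd i φ x +
    (φ x - φ c) * pd i (hh c ((k : ℝ) + 1)) x with hQ
  have cP : ∀ k, Continuous (P k) := fun k => by
    have := hHc k
    have := hHi k 0
    have := hHi k 1
    have := hHl k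
    have := hφi 0
    have := hφi 1
    simp only [hP]
    fun_prop
  have cQ : ∀ i k, Continuous (Q i k) := fun i k => by
    have := hHc k
    have := hHi k i
    have := hφi i
    simp only [hQ]
    fun_prop
  have tP : Tendsto (fun k => ∫ x, u x * P k x) atTop (𝓝 0) := by
    refine limA huL c _ (C * B + 2 * (C * B0 + C * B1) + 2 * L * C)
      (fun k => (cP k).aestronglyMeasurable) (fun k x => ?_) (fun k x hx => ?_)
    · by_cases hx : 2 < ((k : ℝ) + 1) * ‖x - c‖
      · obtain ⟨z1, z2, z3⟩ := (hb _ (hs1 k) x).2.2.2 hx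
        simp only [hP, z1, z2 0, z2 1, z3]
        simp
        positivity
      · obtain ⟨hx2, -, hx3⟩ := small k x hx
        obtain ⟨y1, y2, y3, _⟩ := hb _ (hs1 k) x
        have e0 : |hh c ((k : ℝ) + 1) x * lap φ x| ≤ C * B := by
          rw [abs_mul]; exact mul_le_mul y1 (hbB x hx2) (abs_nonneg _) hC
        have e1 : |pd 0 (hh c ((k : ℝ) + 1)) x * pd 0 φ x| ≤ C * (k + 1) * B0 := by
          rw [abs_mul]; exact mul_le_mul (y2 0) (hbB0 x hx2) (abs_nonneg _) (by positivity)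
        have e2 : |pd 1 (hh c ((k : ℝ) + 1)) x * pd 1 φ x| ≤ C * (k + 1) * B1 := by
          rw [abs_mul]; exact mul_le_mul (y2 1) (hbB1 x hx2) (abs_nonneg _) (by positivity)
        have e3 : |(φ x - φ c) * lap (hh c ((k : ℝ) + 1)) x| ≤ 2 * L * C * (k + 1) := by
          rw [abs_mul]
          calc |φ x - φ c| * |lap (hh c ((k : ℝ) + 1)) x|
              ≤ |φ x - φ c| * (C * ((k : ℝ) + 1) ^ 2) :=
                mul_le_mul_of_nonneg_left y3 (abs_nonneg _)
            _ = (|φ x - φ c| * ((k : ℝ) + 1)) * (C * ((k : ℝ) + 1)) := by ring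
            _ ≤ 2 * L * (C * ((k : ℝ) + 1)) := mul_le_mul_of_nonneg_right hx3 (by positivity)
            _ = 2 * L * C * (k + 1) := by ring
        have e4 : C * B ≤ C * B * (k + 1) := le_mul_of_one_le_right (by positivity) (hs1 k)
        simp only [hP]
        refine (abs_add_le _ _).trans ?_
        have e5 := abs_add_le (hh c ((k : ℝ) + 1) x * lap φ x)
          (2 * (pd 0 (hh c ((k : ℝ) + 1)) x * pd 0 φ x + pd 1 (hh c ((k : ℝ) + 1)) x * pd 1 φ x))
        have e6 := abs_add_le (pd 0 (hh c ((k : ℝ) + 1)) x * pd 0 φ x)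
          (pd 1 (hh c ((k : ℝ) + 1)) x * pd 1 φ x)
        rw [abs_mul 2, abs_two] at e5
        linarith
    · obtain ⟨z1, z2, z3⟩ := (hb _ (hs1 k) x).2.2.2 hx
      simp only [hP, z1, z2 0, z2 1, z3]
      simp
  have tQ : ∀ (i : Fin 2) (w : V2 → ℝ), Integrable w volume →
      Tendsto (fun k => ∫ x, w x * Q i k x) atTop (𝓝 0) := by
    intro i w hw
    obtain ⟨Bi, hBi, hbi⟩ := cont_bd (hφi i) c
    refine limB hw c _ (C * Bi + 2 * L * C)
      (fun k => (cQ i k).aestronglyMeasurable) (fun k x => ?_) (fun k x hx => ?_)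
    · by_cases hx : 2 < ((k : ℝ) + 1) * ‖x - c‖
      · obtain ⟨z1, z2, z3⟩ := (hb _ (hs1 k) x).2.2.2 hx
        simp only [hQ, z1, z2 i]
        simp
        positivity
      · obtain ⟨hx2, -, hx3⟩ := small k x hx
        obtain ⟨y1, y2, y3, _⟩ := hb _ (hs1 k) x
        have e0 : |hh c ((k : ℝ) + 1) x * pd i φ x| ≤ C * Bi := by
          rw [abs_mul]; exact mul_le_mul y1 (hbi x hx2) (abs_nonneg _) hC
        have e3 : |(φ x - φ c) * pd i (hh c ((k : ℝ) + 1)) x| ≤ 2 * L * C := by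
          rw [abs_mul]
          calc |φ x - φ c| * |pd i (hh c ((k : ℝ) + 1)) x|
              ≤ |φ x - φ c| * (C * ((k : ℝ) + 1)) :=
                mul_le_mul_of_nonneg_left (y2 i) (abs_nonneg _)
            _ = (|φ x - φ c| * ((k : ℝ) + 1)) * C := by ring
            _ ≤ 2 * L * C := mul_le_mul_of_nonneg_right hx3 hC
        simp only [hQ]
        exact (abs_add_le _ _).trans (by linarith)
    · obtain ⟨z1, z2, z3⟩ := (hb _ (hs1 k) x).2.2.2 hx
      simp only [hQ, z1, z2 i]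
      simp
  have t3 := (tP.add (tQ 0 _ (iw 1))).sub (tQ 1 _ (iw 0))
  rw [add_zero, sub_zero] at t3
  refine t3.congr fun k => ?_
  -- the odd part
  set H := hh c ((k : ℝ) + 1) with hH
  have hHe : ∀ x, H (2 • c - x) = H x := hh_refl c _
  have I1 := int_mul iu hus (hHl k)
  have I2 := int_mul (iw 1) (hs 1) (hHi k 0)
  have I3 := int_mul (iw 0) (hs 0) (hHi k 1)
  have hz : ∫ x, (u x * lap H x + (u x * pd 1 ψ x * pd 0 H x - u x * pd 0 ψ x * pd 1 H x)) = 0 := by
    refine odd_zero c fun x => ?_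
    rw [hodd, lap_of_even hHe, pd_of_even heven, pd_of_even heven, pd_of_even hHe, pd_of_even hHe]
    ring
  have J1 := int_mul iu hus (cP k)
  have J2 := int_mul (iw 1) (hs 1) (cQ 0 k)
  have J3 := int_mul (iw 0) (hs 0) (cQ 1 k)
  have hdec : ∀ x, LI u ψ (fun x => H x * φ x) x =
      ((u x * P k x + u x * pd 1 ψ x * Q 0 k x) - u x * pd 0 ψ x * Q 1 k x) +
      φ c * (u x * lap H x + (u x * pd 1 ψ x * pd 0 H x - u x * pd 0 ψ x * pd 1 H x)) := by
    intro x
    simp only [LI, hP, hQ]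
    rw [lap_mul' (hh_smooth c _) hφ, pd_mul' (hh_smooth c _) hφ, pd_mul' (hh_smooth c _) hφ]
    ring
  have JJ : Integrable (fun x => u x * P k x + u x * pd 1 ψ x * Q 0 k x -
      u x * pd 0 ψ x * Q 1 k x) volume := (J1.add J2).sub J3
  have J12 : Integrable (fun x => u x * P k x + u x * pd 1 ψ x * Q 0 k x) volume := J1.add J2
  have II : Integrable (fun x => φ c * (u x * lap H x +
      (u x * pd 1 ψ x * pd 0 H x - u x * pd 0 ψ x * pd 1 H x))) volume :=
    (I1.add (I2.sub I3)).const_mul _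
  rw [integral_congr_ae (Eventually.of_forall hdec), integral_add JJ II, integral_const_mul, hz,
    mul_zero, add_zero, integral_sub J12 J3, integral_add J1 J2]

lemma cut_far {c : V2} (φ : V2 → ℝ) {s : ℝ} (hs : 0 < s) :
    (fun x => φ x - hh c s x * φ x) =ᶠ[𝓝 c] fun _ => 0 := by
  have h : ∀ᶠ x in 𝓝 c, dist x c < 1 / (2 * s) := by
    exact Metric.ball_mem_nhds c (by positivity)
  filter_upwards [h] with x hx
  have h1 : hh c s x = 1 := by
    unfold hh
    refine eta_one ?_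
    rw [norm_smul, Real.norm_eq_abs, abs_of_pos hs, ← dist_eq_norm]
    rw [lt_div_iff₀ (by positivity)] at hx
    linarith
  rw [h1]; ring

end Wk

theorem weak : S_WEAK := by
  intro c u ψ g hu hψ hus hψs hodd heven huL hψL hg hgρ
  obtain ⟨ρ, hρ, hgρ⟩ := hgρ
  have hodd' : ∀ x, u (2 • c - x) = -u x := by
    intro x
    have := hodd (x - c)
    rwa [show c - (x - c) = 2 • c - x by rw [two_smul]; abel, add_sub_cancel] at this
  have heven' : ∀ x, ψ (2 • c - x) = ψ x := by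
    intro x
    have := heven (x - c)
    rwa [show c - (x - c) = 2 • c - x by rw [two_smul]; abel, add_sub_cancel] at this
  have hk : ∀ k : ℕ, (0 : ℝ) < (k : ℝ) + 1 := fun k => by positivity
  refine ⟨fun φ hφ => ?_, fun φ hφ => ?_⟩
  · have hlim := Wk.lim_LI (c := c) hus hodd' heven' huL hψL hφ
    have hev : ∀ᶠ k : ℕ in atTop, ∫ x, Wk.LI u ψ (fun x => Wk.hh c ((k : ℝ) + 1) x * φ x) x =
        (∫ x, Wk.LI u ψ φ x) - ∫ x, g x * φ x := by
      have h1 : Tendsto (fun k : ℕ => ((k : ℝ) + 1) * ρ) atTop atTop :=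
        (tendsto_natCast_atTop_atTop.atTop_add tendsto_const_nhds).atTop_mul_const hρ
      filter_upwards [h1.eventually_gt_atTop 2] with k hk2
      have hsm : ContDiff ℝ ∞ (fun x => Wk.hh c ((k : ℝ) + 1) x * φ x) :=
        (Wk.hh_smooth c _).mul hφ
      have h2 := Wk.far1 (c := c) hu hψ hus hg (hφ.sub hsm) (Wk.cut_far φ (hk k))
        (Wk.LI_int hus huL hψL (hφ.sub hsm))
      have h3 : ∫ x, Wk.LI u ψ (fun x => φ x - Wk.hh c ((k : ℝ) + 1) x * φ x) x =
          ∫ x, g x * φ x := by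
        refine Eq.trans h2 (integral_congr_ae ?_)
        filter_upwards [Wk.ae_ne c] with x hx
        by_cases hd : dist x c < ρ
        · rw [hgρ x hx hd]; simp
        · obtain ⟨C, hC, hb⟩ := Wk.hh_bounds c
          have hs1 : (1 : ℝ) ≤ (k : ℝ) + 1 := by
            have := Nat.cast_nonneg (α := ℝ) k; linarith
          have h4 : 2 < ((k : ℝ) + 1) * ‖x - c‖ := by
            rw [← dist_eq_norm]
            have := mul_le_mul_of_nonneg_left (not_lt.1 hd) (hk k).le
            linarith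
          rw [((hb _ hs1 x).2.2.2 h4).1]
          simp
      rw [integral_congr_ae (Eventually.of_forall fun x => Wk.LI_sub hφ hsm x),
        integral_sub (Wk.LI_int hus huL hψL hφ) (Wk.LI_int hus huL hψL hsm)] at h3
      linarith
    have h5 := tendsto_nhds_unique (hlim.congr' hev) tendsto_const_nhds
    have h6 : ∫ x, Wk.LI u ψ φ x = ∫ x, g x * φ x := by linarith
    exact h6
  · have hlim := Wk.lim_MI (c := c) hψs hψL hφ
    have hev : ∀ k : ℕ, ∫ x, Wk.MI ψ (fun x => Wk.hh c ((k : ℝ) + 1) x * φ x) x =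
        ∫ x, Wk.MI ψ φ x := by
      intro k
      have hsm : ContDiff ℝ ∞ (fun x => Wk.hh c ((k : ℝ) + 1) x * φ x) :=
        (Wk.hh_smooth c _).mul hφ
      have h2 := Wk.far2 (c := c) hψ hψs (hφ.sub hsm) (Wk.cut_far φ (hk k))
      have h3 : ∫ x, Wk.MI ψ (fun x => φ x - Wk.hh c ((k : ℝ) + 1) x * φ x) x = 0 := h2
      rw [integral_congr_ae (Eventually.of_forall fun x => Wk.MI_sub hφ hsm x),
        integral_sub (Wk.MI_int hψs hψL hφ) (Wk.MI_int hψs hψL hsm)] at h3
      linarith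
    have h5 := tendsto_nhds_unique (hlim.congr hev) tendsto_const_nhds
    exact h5.symm

end Pool.Agent.R213.NP
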